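import Pool.Agent.Lib.MP_76c2e0_lc.Defs

namespace Pool.Agent.Lib.MP_76c2e0_lc

open ZFSet

@[simp] theorem cons_zero {α : Type 1} (a : α) (v : ℕ → α) : cons a v 0 = a := rfl
@[simp] theorem cons_succ {α : Type 1} (a : α) (v : ℕ → α) (n : ℕ) : cons a v (n + 1) = v n := rfl

theorem mem_val {G : Set V} {x z : V} :
    z ∈ val G x ↔ ∃ y, ∃ p ∈ G, pair y p ∈ x ∧ z = val G y := by
  rw [val, mem_range]
  constructor
  · rintro ⟨⟨⟨⟨y, p⟩, h⟩, hp⟩, rfl⟩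
    exact ⟨y, p, hp, h, rfl⟩
  · rintro ⟨y, p, hp, h, rfl⟩
    exact ⟨⟨⟨⟨y, p⟩, h⟩, hp⟩, rfl⟩

theorem mem_act {π : Equiv.Perm V} {x z : V} :
    z ∈ act π x ↔ ∃ y p, pair y p ∈ x ∧ z = pair (act π y) (π p) := by
  rw [act, mem_range]
  constructor
  · rintro ⟨⟨⟨y, p⟩, h⟩, rfl⟩
    exact ⟨y, p, h, rfl⟩
  · rintro ⟨y, p, h, rfl⟩
    exact ⟨⟨⟨y, p⟩, h⟩, rfl⟩

theorem pair_ind {P : V → Prop} (h : ∀ x, (∀ y p, pair y p ∈ x → P y) → P x) (x : V) : P x := by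
  induction hx : x.rank using WellFoundedLT.induction generalizing x with
  | ind o ih => exact h x fun y p hy => ih _ (hx ▸ rank_lt_of_pair hy) y rfl

/-! renaming -/

def lft (f : ℕ → ℕ) : ℕ → ℕ
  | 0 => 0
  | n + 1 => f n + 1

def Fm.ren (g : ℕ → ℕ) : Fm → (ℕ → ℕ) → Fm
  | .mem i j, f => .mem (f i) (f j)
  | .eq i j, f => .eq (f i) (f j)
  | .inC i k, f => .inC (f i) (g k)
  | .not φ, f => .not (φ.ren g f)
  | .and φ ψ, f => .and (φ.ren g f) (ψ.ren g f)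
  | .all φ, f => .all (φ.ren g (lft f))

theorem sat_ren (D : Set V) (C : ℕ → Set V) (g : ℕ → ℕ) : ∀ (φ : Fm) (f : ℕ → ℕ) (v : ℕ → V),
    Sat D C (φ.ren g f) v ↔ Sat D (fun k => C (g k)) φ fun n => v (f n)
  | .mem _ _, _, _ => Iff.rfl
  | .eq _ _, _, _ => Iff.rfl
  | .inC _ _, _, _ => Iff.rfl
  | .not φ, f, v => not_congr (sat_ren D C g φ f v)
  | .and φ ψ, f, v => and_congr (sat_ren D C g φ f v) (sat_ren D C g ψ f v)
  | .all φ, f, v => by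
      refine forall₂_congr fun x _ => (sat_ren D C g φ (lft f) (cons x v)).trans ?_
      have : (fun n => cons x v (lft f n)) = cons x fun n => v (f n) := by
        funext n; cases n <;> rfl
      rw [this]

/-! contexts -/

structure Ctx (α : Type 1) where
  ok : α → Prop
  dom : α → Set V
  T : (α → V) → Prop
  K : (α → Set V) → Prop
  tr : ∀ a, ok a → ∀ x ∈ dom a, ∀ y ∈ x, y ∈ dom a
  pr : ∀ a, ok a → ∀ x ∈ dom a, ∀ y ∈ dom a, ({x, y} : V) ∈ dom a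
  emp : ∀ a, ok a → ∅ ∈ dom a
  T_mem : ∀ t, T t → ∀ a, ok a → t a ∈ dom a
  T_ne : ∃ t, T t
  K_ne : ∃ c, K c

variable {α β : Type 1}

def Ctx.ext (Γ : Ctx α) : Ctx (α × V) where
  ok p := Γ.ok p.1 ∧ p.2 ∈ Γ.dom p.1
  dom p := Γ.dom p.1
  T t := t = Prod.snd ∨ ∃ s, Γ.T s ∧ t = fun p => s p.1
  K c := ∃ d, Γ.K d ∧ c = fun p => d p.1
  tr p h := Γ.tr p.1 h.1
  pr p h := Γ.pr p.1 h.1
  emp p h := Γ.emp p.1 h.1
  T_mem := by
    rintro _ (rfl | ⟨s, hs, rfl⟩) p h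
    · exact h.2
    · exact Γ.T_mem s hs p.1 h.1
  T_ne := ⟨_, Or.inl rfl⟩
  K_ne := let ⟨d, hd⟩ := Γ.K_ne; ⟨_, d, hd, rfl⟩

def Ctx.extC (Γ : Ctx α) : Ctx (α × Set V) where
  ok p := Γ.ok p.1
  dom p := Γ.dom p.1
  T t := ∃ s, Γ.T s ∧ t = fun p => s p.1
  K c := c = Prod.snd ∨ ∃ d, Γ.K d ∧ c = fun p => d p.1
  tr p h := Γ.tr p.1 h
  pr p h := Γ.pr p.1 h
  emp p h := Γ.emp p.1 h
  T_mem := by
    rintro _ ⟨s, hs, rfl⟩ p h
    exact Γ.T_mem s hs p.1 h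
  T_ne := let ⟨d, hd⟩ := Γ.T_ne; ⟨_, d, hd, rfl⟩
  K_ne := ⟨_, Or.inl rfl⟩

def Def (Γ : Ctx α) (Φ : α → Prop) : Prop :=
  ∃ (φ : Fm) (e : ℕ → α → V) (c : ℕ → α → Set V), (∀ n, Γ.T (e n)) ∧ (∀ n, Γ.K (c n)) ∧
    ∀ a, Γ.ok a → (Φ a ↔ Sat (Γ.dom a) (fun n => c n a) φ fun n => e n a)

def DefF (Γ : Ctx α) (t : α → V) : Prop :=
  (∀ a, Γ.ok a → t a ∈ Γ.dom a) ∧ Def Γ.ext fun p => p.2 = t p.1

structure DefC (Γ : Ctx α) (c : α → Set V) : Prop where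
  out : Def Γ.ext fun p => p.2 ∈ c p.1

variable {Γ : Ctx α} {Φ Ψ : α → Prop}

theorem Def.congr (h : Def Γ Φ) (e : ∀ a, Γ.ok a → (Φ a ↔ Ψ a)) : Def Γ Ψ :=
  let ⟨φ, e', c, h1, h2, h3⟩ := h
  ⟨φ, e', c, h1, h2, fun a ha => (e a ha).symm.trans (h3 a ha)⟩

theorem Def.not (h : Def Γ Φ) : Def Γ fun a => ¬ Φ a :=
  let ⟨φ, e', c, h1, h2, h3⟩ := h
  ⟨.not φ, e', c, h1, h2, fun a ha => not_congr (h3 a ha)⟩

theorem Def.and (h : Def Γ Φ) (h' : Def Γ Ψ) : Def Γ fun a => Φ a ∧ Ψ a := by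
  obtain ⟨φ, e, c, h1, h2, h3⟩ := h
  obtain ⟨ψ, e', c', h1', h2', h3'⟩ := h'
  refine ⟨.and (φ.ren (fun k => 2 * k) fun k => 2 * k)
    (ψ.ren (fun k => 2 * k + 1) fun k => 2 * k + 1),
    fun n => if n % 2 = 0 then e (n / 2) else e' (n / 2),
    fun n => if n % 2 = 0 then c (n / 2) else c' (n / 2), fun n => ?_, fun n => ?_,
    fun a ha => ?_⟩
  · beta_reduce; split_ifs; exacts [h1 _, h1' _]
  · beta_reduce; split_ifs; exacts [h2 _, h2' _]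
  · have a1 : ∀ k, 2 * k % 2 = 0 := fun k => by omega
    have a2 : ∀ k, ¬ (2 * k + 1) % 2 = 0 := fun k => by omega
    have a3 : ∀ k, 2 * k / 2 = k := fun k => by omega
    have a4 : ∀ k, (2 * k + 1) / 2 = k := fun k => by omega
    simp only [Sat, sat_ren, a1, a2, a3, a4, if_true, if_false]
    exact and_congr (h3 a ha) (h3' a ha)

theorem Def.all {Φ : α → V → Prop} (h : Def Γ.ext fun p => Φ p.1 p.2) :
    Def Γ fun a => ∀ x ∈ Γ.dom a, Φ a x := by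
  classical
  obtain ⟨φ, e, c, h1, h2, h3⟩ := h
  obtain ⟨t0, ht0⟩ := Γ.T_ne
  have h4 : ∀ n, ∃ s, Γ.T s ∧ (e n ≠ Prod.snd → e n = fun p => s p.1) := fun n => by
    rcases h1 n with h | ⟨s, hs, h⟩
    · exact ⟨t0, ht0, fun h' => absurd h h'⟩
    · exact ⟨s, hs, fun _ => h⟩
  choose s hs1 hs2 using h4
  choose d hd1 hd2 using h2
  refine ⟨.all (φ.ren id fun n => if e n = Prod.snd then 0 else n + 1), s, d, hs1, hd1,
    fun a ha => forall₂_congr fun x hx => ?_⟩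
  rw [sat_ren]
  refine (h3 (a, x) ⟨ha, hx⟩).trans (Iff.of_eq ?_)
  congr 1
  · funext k; rw [hd2 k]; rfl
  · funext n
    by_cases h : e n = Prod.snd
    · rw [if_pos h, h]; rfl
    · rw [if_neg h, hs2 n h]; rfl

theorem Def.pull {Δ : Ctx β} (f : β → α) (h : Def Γ Φ) (h1 : ∀ b, Δ.ok b → Γ.ok (f b))
    (h2 : ∀ b, Δ.ok b → Γ.dom (f b) = Δ.dom b) (h3 : ∀ t, Γ.T t → Δ.T fun b => t (f b))
    (h4 : ∀ c, Γ.K c → Δ.K fun b => c (f b)) : Def Δ fun b => Φ (f b) :=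
  let ⟨φ, e, c, a1, a2, a3⟩ := h
  ⟨φ, fun n b => e n (f b), fun n b => c n (f b), fun n => h3 _ (a1 n), fun n => h4 _ (a2 n),
    fun b hb => by rw [← h2 b hb]; exact a3 _ (h1 b hb)⟩

theorem Def.wk (h : Def Γ Φ) : Def Γ.ext fun p => Φ p.1 :=
  h.pull Prod.fst (fun _ h => h.1) (fun _ _ => rfl) (fun t ht => Or.inr ⟨t, ht, rfl⟩)
    fun c hc => ⟨c, hc, rfl⟩

theorem Def.wkC (h : Def Γ Φ) : Def Γ.extC fun p => Φ p.1 :=
  h.pull Prod.fst (fun _ h => h) (fun _ _ => rfl) (fun t ht => ⟨t, ht, rfl⟩)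
    fun c hc => Or.inr ⟨c, hc, rfl⟩

theorem Def.wk1 {Φ : α × V → Prop} (h : Def Γ.ext Φ) :
    Def Γ.ext.ext fun p => Φ (p.1.1, p.2) := by
  refine h.pull (fun p : (α × V) × V => (p.1.1, p.2)) (fun _ h => ⟨h.1.1, h.2⟩) (fun _ _ => rfl)
    ?_ ?_
  · rintro _ (rfl | ⟨s, hs, rfl⟩)
    · exact Or.inl rfl
    · exact Or.inr ⟨_, Or.inr ⟨s, hs, rfl⟩, rfl⟩
  · rintro _ ⟨d, hd, rfl⟩
    exact ⟨_, ⟨d, hd, rfl⟩, rfl⟩

theorem Def.wkC1 {Φ : α × V → Prop} (h : Def Γ.ext Φ) :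
    Def Γ.extC.ext fun p => Φ (p.1.1, p.2) := by
  refine h.pull (fun p : (α × Set V) × V => (p.1.1, p.2)) (fun _ h => ⟨h.1, h.2⟩)
    (fun _ _ => rfl) ?_ ?_
  · rintro _ (rfl | ⟨s, hs, rfl⟩)
    · exact Or.inl rfl
    · exact Or.inr ⟨_, ⟨s, hs, rfl⟩, rfl⟩
  · rintro _ ⟨d, hd, rfl⟩
    exact ⟨_, Or.inr ⟨d, hd, rfl⟩, rfl⟩

theorem Def.or (h : Def Γ Φ) (h' : Def Γ Ψ) : Def Γ fun a => Φ a ∨ Ψ a :=
  (h.not.and h'.not).not.congr fun _ _ => by tauto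

theorem Def.imp (h : Def Γ Φ) (h' : Def Γ Ψ) : Def Γ fun a => Φ a → Ψ a :=
  (h.and h'.not).not.congr fun _ _ => by tauto

theorem Def.iff (h : Def Γ Φ) (h' : Def Γ Ψ) : Def Γ fun a => Φ a ↔ Ψ a :=
  ((h.imp h').and (h'.imp h)).congr fun _ _ => by tauto

theorem Def.ex {Φ : α → V → Prop} (h : Def Γ.ext fun p => Φ p.1 p.2) :
    Def Γ fun a => ∃ x ∈ Γ.dom a, Φ a x :=
  (Def.all (Φ := fun a x => ¬ Φ a x) h.not).not.congr fun _ _ => by push Not; rfl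

theorem Def.atom {s t : α → V} (hs : Γ.T s) (ht : Γ.T t) :
    (Def Γ fun a => s a ∈ t a) ∧ Def Γ fun a => s a = t a := by
  obtain ⟨c, hc⟩ := Γ.K_ne
  have h : ∀ n, Γ.T (cons s (fun _ => t) n) := fun n => by cases n <;> assumption
  exact ⟨⟨.mem 0 1, cons s fun _ => t, fun _ => c, h, fun _ => hc, fun _ _ => Iff.rfl⟩,
    ⟨.eq 0 1, cons s fun _ => t, fun _ => c, h, fun _ => hc, fun _ _ => Iff.rfl⟩⟩

theorem DefF.of_T {t : α → V} (ht : Γ.T t) : DefF Γ t :=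
  ⟨Γ.T_mem t ht, (Def.atom (Γ := Γ.ext) (Or.inl rfl) (Or.inr ⟨t, ht, rfl⟩)).2⟩

theorem DefC.of_K {c : α → Set V} (hc : Γ.K c) : DefC Γ c :=
  ⟨⟨.inC 0 0, fun _ => Prod.snd, fun _ p => c p.1, fun _ => Or.inl rfl, fun _ => ⟨c, hc, rfl⟩,
    fun _ _ => Iff.rfl⟩⟩

theorem Def.subst {Φ : α → V → Prop} {t : α → V} (h : Def Γ.ext fun p => Φ p.1 p.2)
    (ht : DefF Γ t) : Def Γ fun a => Φ a (t a) :=
  (Def.ex (Φ := fun a x => x = t a ∧ Φ a x) (ht.2.and h)).congr fun a ha =>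
    ⟨fun ⟨_, _, h1, h2⟩ => h1 ▸ h2, fun h => ⟨_, ht.1 a ha, rfl, h⟩⟩

theorem DefF.wk {t : α → V} (ht : DefF Γ t) : DefF Γ.ext fun p => t p.1 :=
  ⟨fun p hp => ht.1 p.1 hp.1, ht.2.wk1⟩
theorem DefF.wkC {t : α → V} (ht : DefF Γ t) : DefF Γ.extC fun p => t p.1 :=
  ⟨fun p hp => ht.1 p.1 hp, ht.2.wkC1⟩
theorem DefC.wk {c : α → Set V} (hc : DefC Γ c) : DefC Γ.ext fun p => c p.1 := ⟨Def.wk1 hc.out⟩
theorem DefC.wkC {c : α → Set V} (hc : DefC Γ c) : DefC Γ.extC fun p => c p.1 := ⟨Def.wkC1 hc.out⟩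

theorem DefF.wkc {t : V} (ht : DefF Γ fun _ => t) : DefF Γ.ext fun _ => t := ht.wk
theorem DefC.wkc {t : Set V} (ht : DefC Γ fun _ => t) : DefC Γ.ext fun _ => t := ht.wk
theorem DefF.v0 : DefF Γ.ext fun p => p.2 := DefF.of_T (Or.inl rfl)
theorem DefF.v1 : DefF Γ.ext.ext fun p => p.1.2 := DefF.v0.wk
theorem DefF.v2 : DefF Γ.ext.ext.ext fun p => p.1.1.2 := DefF.v1.wk
theorem DefF.v3 : DefF Γ.ext.ext.ext.ext fun p => p.1.1.1.2 := DefF.v2.wk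
theorem DefF.v4 : DefF Γ.ext.ext.ext.ext.ext fun p => p.1.1.1.1.2 := DefF.v3.wk
theorem DefF.v5 : DefF Γ.ext.ext.ext.ext.ext.ext fun p => p.1.1.1.1.1.2 := DefF.v4.wk
theorem DefF.v6 : DefF Γ.ext.ext.ext.ext.ext.ext.ext fun p => p.1.1.1.1.1.1.2 := DefF.v5.wk
theorem DefF.v7 : DefF Γ.ext.ext.ext.ext.ext.ext.ext.ext fun p => p.1.1.1.1.1.1.1.2 := DefF.v6.wk
theorem DefF.v8 : DefF Γ.ext.ext.ext.ext.ext.ext.ext.ext.ext fun p => p.1.1.1.1.1.1.1.1.2 :=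
  DefF.v7.wk
theorem DefC.c0 : DefC Γ.extC fun p => p.2 := DefC.of_K (Or.inl rfl)

theorem Def.mem {s t : α → V} (hs : DefF Γ s) (ht : DefF Γ t) : Def Γ fun a => s a ∈ t a :=
  Def.subst (Φ := fun a x => x ∈ t a) (Def.subst (Γ := Γ.ext) (Φ := fun p y => p.2 ∈ y)
    (Def.atom (Γ := Γ.ext.ext) (Or.inr ⟨_, Or.inl rfl, rfl⟩) (Or.inl rfl)).1 ht.wk) hs

theorem Def.eq {s t : α → V} (hs : DefF Γ s) (ht : DefF Γ t) : Def Γ fun a => s a = t a :=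
  Def.subst (Φ := fun a x => x = t a) ht.2 hs

theorem Def.inC {t : α → V} {c : α → Set V} (ht : DefF Γ t) (hc : DefC Γ c) :
    Def Γ fun a => t a ∈ c a :=
  Def.subst (Φ := fun a x => x ∈ c a) hc.out ht

theorem DefC.of {Φ : α → V → Prop} (h : Def Γ.ext fun p => Φ p.1 p.2) :
    DefC Γ fun a => {x | Φ a x} := ⟨h⟩

theorem Def.ball {Φ : α → V → Prop} {t : α → V} (ht : DefF Γ t)
    (h : Def Γ.ext fun p => Φ p.1 p.2) : Def Γ fun a => ∀ x ∈ t a, Φ a x :=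
  (Def.all (Φ := fun a x => x ∈ t a → Φ a x) ((Def.mem DefF.v0 ht.wk).imp h)).congr fun a ha =>
    ⟨fun h x hx => h x (Γ.tr a ha _ (ht.1 a ha) x hx) hx, fun h x _ hx => h x hx⟩

theorem Def.bex {Φ : α → V → Prop} {t : α → V} (ht : DefF Γ t)
    (h : Def Γ.ext fun p => Φ p.1 p.2) : Def Γ fun a => ∃ x ∈ t a, Φ a x :=
  (Def.ball (Φ := fun a x => ¬ Φ a x) ht h.not).not.congr fun _ _ => by push Not; rfl

theorem Def.sub {s t : α → V} (hs : DefF Γ s) (ht : DefF Γ t) : Def Γ fun a => s a ⊆ t a :=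
  Def.ball (Φ := fun a x => x ∈ t a) hs (Def.mem DefF.v0 ht.wk)

theorem DefF.ofExt {t : α → V} (h1 : ∀ a, Γ.ok a → t a ∈ Γ.dom a)
    (h2 : Def Γ.ext fun p => p.2 ∈ t p.1) : DefF Γ t := by
  refine ⟨h1, (Def.all (Γ := Γ.ext) (Φ := fun p w => w ∈ p.2 ↔ w ∈ t p.1)
    ((Def.mem DefF.v0 DefF.v1).iff h2.wk1)).congr fun p hp => ⟨fun h => ?_, fun h w _ => by rw [h]⟩⟩
  ext w
  exact ⟨fun hw => (h w (Γ.tr _ hp.1 _ hp.2 w hw)).1 hw,
    fun hw => (h w (Γ.tr _ hp.1 _ (h1 _ hp.1) w hw)).2 hw⟩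

theorem DefF.upair {s t : α → V} (hs : DefF Γ s) (ht : DefF Γ t) :
    DefF Γ fun a => ({s a, t a} : V) :=
  DefF.ofExt (fun a ha => Γ.pr a ha _ (hs.1 a ha) _ (ht.1 a ha))
    (((Def.eq DefF.v0 hs.wk).or (Def.eq DefF.v0 ht.wk)).congr fun _ _ => mem_pair.symm)

theorem DefF.congr {s t : α → V} (hs : DefF Γ s) (e : ∀ a, Γ.ok a → s a = t a) : DefF Γ t :=
  ⟨fun a ha => e a ha ▸ hs.1 a ha, hs.2.congr fun p hp => by rw [e _ hp.1]⟩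

theorem DefF.sing {s : α → V} (hs : DefF Γ s) : DefF Γ fun a => ({s a} : V) :=
  (hs.upair hs).congr fun _ _ => pair_eq_singleton _

theorem DefF.pair {s t : α → V} (hs : DefF Γ s) (ht : DefF Γ t) :
    DefF Γ fun a => pair (s a) (t a) :=
  hs.sing.upair (hs.upair ht)

theorem DefF.emp : DefF Γ fun _ => (∅ : V) :=
  DefF.ofExt Γ.emp ((Def.eq DefF.v0 DefF.v0).not.congr fun _ _ => by simp)

theorem Def.tt : Def Γ fun _ => True := (Def.eq DefF.emp DefF.emp).congr fun _ _ => by simp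

theorem Ctx.pair_mem (Γ : Ctx α) {a : α} (ha : Γ.ok a) {x y : V} :
    pair x y ∈ Γ.dom a ↔ x ∈ Γ.dom a ∧ y ∈ Γ.dom a := by
  constructor
  · intro h
    have h1 : ({x, y} : V) ∈ Γ.dom a := Γ.tr a ha _ h _ (by simp [pair])
    exact ⟨Γ.tr a ha _ h1 _ (by simp), Γ.tr a ha _ h1 _ (by simp)⟩
  · rintro ⟨hx, hy⟩
    have := Γ.pr a ha x hx x hx
    rw [pair_eq_singleton] at this
    exact Γ.pr a ha _ this _ (Γ.pr a ha x hx y hy)

theorem sat_def : ∀ (φ : Fm) {β : Type 1} {Δ : Ctx β} {e : ℕ → β → V} {c : ℕ → β → Set V},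
    (∀ n, DefF Δ (e n)) → (∀ n, DefC Δ (c n)) →
    Def Δ fun b => Sat (Δ.dom b) (fun n => c n b) φ fun n => e n b
  | .mem i j, _, _, _, _, he, _ => Def.mem (he i) (he j)
  | .eq i j, _, _, _, _, he, _ => Def.eq (he i) (he j)
  | .inC i k, _, _, _, _, he, hc => Def.inC (he i) (hc k)
  | .not φ, _, _, _, _, he, hc => (sat_def φ he hc).not
  | .and φ ψ, _, _, _, _, he, hc => (sat_def φ he hc).and (sat_def ψ he hc)
  | .all φ, β, Δ, e, c, he, hc => by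
      have h := sat_def φ (Δ := Δ.ext) (e := cons Prod.snd fun n p => e n p.1)
        (c := fun n p => c n p.1) (fun n => by
          cases n
          · exact DefF.v0
          · exact (he _).wk) fun n => (hc n).wk
      refine Def.all (Φ := fun b x => Sat (Δ.dom b) (fun n => c n b) φ (cons x fun n => e n b))
        (h.congr fun p _ => Iff.of_eq ?_)
      congr 1
      funext n
      cases n <;> rfl

theorem Def.pull' {Δ : Ctx β} (f : β → α) (h : Def Γ Φ) (h1 : ∀ b, Δ.ok b → Γ.ok (f b))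
    (h2 : ∀ b, Δ.ok b → Γ.dom (f b) = Δ.dom b) (h3 : ∀ t, Γ.T t → DefF Δ fun b => t (f b))
    (h4 : ∀ c, Γ.K c → DefC Δ fun b => c (f b)) : Def Δ fun b => Φ (f b) := by
  obtain ⟨φ, e, c, a1, a2, a3⟩ := h
  refine (sat_def φ (e := fun n b => e n (f b)) (c := fun n b => c n (f b))
    (fun n => h3 _ (a1 n)) fun n => h4 _ (a2 n)).congr fun b hb => ?_
  rw [← h2 b hb]
  exact (a3 _ (h1 b hb)).symm

/-! projections -/

open Classical in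
noncomputable def fst (z : V) : V := if h : ∃ s : V × V, z = pair s.1 s.2 then h.choose.1 else ∅
open Classical in
noncomputable def snd (z : V) : V := if h : ∃ s : V × V, z = pair s.1 s.2 then h.choose.2 else ∅

@[simp] theorem fst_pair (x y : V) : fst (pair x y) = x := by
  have h : ∃ s : V × V, pair x y = pair s.1 s.2 := ⟨(x, y), rfl⟩
  rw [fst, dif_pos h]
  exact (pair_inj.1 h.choose_spec).1.symm

@[simp] theorem snd_pair (x y : V) : snd (pair x y) = y := by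
  have h : ∃ s : V × V, pair x y = pair s.1 s.2 := ⟨(x, y), rfl⟩
  rw [snd, dif_pos h]
  exact (pair_inj.1 h.choose_spec).2.symm

theorem proj_cases (z : V) : (∃ x y, z = pair x y) ∨
    ((¬ ∃ x y, z = pair x y) ∧ fst z = ∅ ∧ snd z = ∅) := by
  by_cases h : ∃ x y, z = pair x y
  · exact Or.inl h
  · have h' : ¬ ∃ s : V × V, z = pair s.1 s.2 := fun ⟨s, hs⟩ => h ⟨_, _, hs⟩
    exact Or.inr ⟨h, dif_neg h', dif_neg h'⟩

theorem DefF.proj {t : α → V} (ht : DefF Γ t) :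
    (DefF Γ fun a => fst (t a)) ∧ DefF Γ fun a => snd (t a) := by
  have hn : Def Γ.ext fun p => (¬ ∃ x ∈ Γ.dom p.1, ∃ y ∈ Γ.dom p.1, t p.1 = ZFSet.pair x y) ∧
      p.2 = ∅ :=
    (Def.ex (Γ := Γ.ext) (Def.ex (Γ := Γ.ext.ext)
      (Def.eq ht.wk.wk.wk (DefF.pair DefF.v1 DefF.v0)))).not.and (Def.eq DefF.v0 DefF.emp)
  refine ⟨⟨fun a ha => ?_, ?_⟩, ⟨fun a ha => ?_, ?_⟩⟩ <;> beta_reduce
  · rcases proj_cases (t a) with ⟨x, y, h⟩ | ⟨-, h, -⟩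
    · rw [h, fst_pair]; exact ((Γ.pair_mem ha).1 (h ▸ ht.1 a ha)).1
    · rw [h]; exact Γ.emp a ha
  · refine ((Def.ex (Γ := Γ.ext) (Φ := fun p y => t p.1 = ZFSet.pair p.2 y)
      (Def.eq ht.wk.wk (DefF.pair DefF.v1 DefF.v0))).or hn).congr fun p hp => ?_
    beta_reduce
    rcases proj_cases (t p.1) with ⟨x, y, h⟩ | ⟨h0, h, -⟩
    · have := (Γ.pair_mem hp.1).1 (h ▸ ht.1 _ hp.1)
      rw [h, fst_pair]
      constructor
      · rintro (⟨y', -, h'⟩ | ⟨h', -⟩)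
        · exact (pair_inj.1 h').1.symm
        · exact absurd ⟨x, this.1, y, this.2, rfl⟩ h'
      · rintro h'
        exact Or.inl ⟨y, this.2, by rw [h']⟩
    · rw [h]
      constructor
      · rintro (⟨y', -, h'⟩ | ⟨-, h'⟩)
        · exact absurd ⟨_, _, h'⟩ h0
        · exact h'
      · exact fun h' => Or.inr ⟨fun ⟨x, _, y, _, h⟩ => h0 ⟨x, y, h⟩, h'⟩
  · rcases proj_cases (t a) with ⟨x, y, h⟩ | ⟨-, -, h⟩
    · rw [h, snd_pair]; exact ((Γ.pair_mem ha).1 (h ▸ ht.1 a ha)).2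
    · rw [h]; exact Γ.emp a ha
  · refine ((Def.ex (Γ := Γ.ext) (Φ := fun p y => t p.1 = ZFSet.pair y p.2)
      (Def.eq ht.wk.wk (DefF.pair DefF.v0 DefF.v1))).or hn).congr fun p hp => ?_
    beta_reduce
    rcases proj_cases (t p.1) with ⟨x, y, h⟩ | ⟨h0, -, h⟩
    · have := (Γ.pair_mem hp.1).1 (h ▸ ht.1 _ hp.1)
      rw [h, snd_pair]
      constructor
      · rintro (⟨y', -, h'⟩ | ⟨h', -⟩)
        · exact (pair_inj.1 h').2.symm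
        · exact absurd ⟨x, this.1, y, this.2, rfl⟩ h'
      · rintro h'
        exact Or.inl ⟨x, this.1, by rw [h']⟩
    · rw [h]
      constructor
      · rintro (⟨y', -, h'⟩ | ⟨-, h'⟩)
        · exact absurd ⟨_, _, h'⟩ h0
        · exact h'
      · exact fun h' => Or.inr ⟨fun ⟨x, _, y, _, h⟩ => h0 ⟨x, y, h⟩, h'⟩

theorem DefF.fst {t : α → V} (ht : DefF Γ t) : DefF Γ fun a => fst (t a) := ht.proj.1
theorem DefF.snd {t : α → V} (ht : DefF Γ t) : DefF Γ fun a => snd (t a) := ht.proj.2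

/-! a fixed model -/

structure Good (N : Mdl) : Prop where
  trans : ∀ x ∈ N.sets, ∀ y ∈ x, y ∈ N.sets
  pairing : ∀ x ∈ N.sets, ∀ y ∈ N.sets, ({x, y} : V) ∈ N.sets
  emp : ∅ ∈ N.sets
  univ : N.sets ∈ N.cls
  comp : ∀ (φ : Fm) (v : ℕ → V) (C : ℕ → Set V), (∀ n, v n ∈ N.sets) →
    (∀ k, C k ∈ N.cls) → {x | x ∈ N.sets ∧ Sat N.sets C φ (cons x v)} ∈ N.cls

theorem IsGB.good {N : Mdl} (h : IsGB N) : Good N :=
  ⟨h.trans, h.pairing, let ⟨w, h1, h2, _⟩ := h.infinity; h.trans w h1 _ h2, h.univ,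
    h.comprehension⟩

def Good.fix {N : Mdl} (h : Good N) : Ctx PUnit.{2} where
  ok _ := True
  dom _ := N.sets
  T t := t ⟨⟩ ∈ N.sets
  K c := c ⟨⟩ ∈ N.cls
  tr _ _ := h.trans
  pr _ _ := h.pairing
  emp _ _ := h.emp
  T_mem _ ht _ _ := ht
  T_ne := ⟨fun _ => ∅, h.emp⟩
  K_ne := ⟨fun _ => N.sets, h.univ⟩

theorem Def.unext {Φ : α → V → Prop} (h : Def Γ.ext fun p => Φ p.1 p.2) :
    ∃ (φ : Fm) (e : ℕ → α → V) (c : ℕ → α → Set V), (∀ n, Γ.T (e n)) ∧ (∀ n, Γ.K (c n)) ∧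
      ∀ a, Γ.ok a → ∀ x ∈ Γ.dom a,
        (Φ a x ↔ Sat (Γ.dom a) (fun n => c n a) φ (cons x fun n => e n a)) := by
  classical
  obtain ⟨φ, e, c, h1, h2, h3⟩ := h
  obtain ⟨t0, ht0⟩ := Γ.T_ne
  have h4 : ∀ n, ∃ s, Γ.T s ∧ (e n ≠ Prod.snd → e n = fun p => s p.1) := fun n => by
    rcases h1 n with h | ⟨s, hs, h⟩
    · exact ⟨t0, ht0, fun h' => absurd h h'⟩
    · exact ⟨s, hs, fun _ => h⟩
  choose s hs1 hs2 using h4
  choose d hd1 hd2 using h2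
  refine ⟨φ.ren id fun n => if e n = Prod.snd then 0 else n + 1, s, d, hs1, hd1,
    fun a ha x hx => ?_⟩
  rw [sat_ren]
  refine (h3 (a, x) ⟨ha, hx⟩).trans (Iff.of_eq ?_)
  congr 1
  · funext k; rw [hd2 k]; rfl
  · funext n
    by_cases h : e n = Prod.snd
    · rw [if_pos h, h]; rfl
    · rw [if_neg h, hs2 n h]; rfl

theorem Good.cls {N : Mdl} (h : Good N) {Φ : V → Prop} (H : Def h.fix.ext fun p => Φ p.2) :
    {x | x ∈ N.sets ∧ Φ x} ∈ N.cls := by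
  obtain ⟨φ, e, c, h1, h2, h3⟩ := Def.unext (Φ := fun _ x => Φ x) H
  have := h.comp φ (fun n => e n ⟨⟩) (fun n => c n ⟨⟩) h1 h2
  refine (Set.ext fun x => and_congr_right fun hx => ?_ : _ = _) ▸ this
  exact (h3 ⟨⟩ trivial x hx).symm

theorem Good.cF {N : Mdl} (h : Good N) {a : V} (ha : a ∈ N.sets) : DefF h.fix fun _ => a :=
  DefF.of_T ha
theorem Good.cC {N : Mdl} (h : Good N) {a : Set V} (ha : a ∈ N.cls) : DefC h.fix fun _ => a :=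
  DefC.of_K ha
theorem Good.pair_mem {N : Mdl} (h : Good N) {x y : V} :
    pair x y ∈ N.sets ↔ x ∈ N.sets ∧ y ∈ N.sets := h.fix.pair_mem (a := ⟨⟩) trivial

end Pool.Agent.Lib.MP_76c2e0_lc
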