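import Pool.Agent.Lib.MP_76c2e0_lc.Calc

namespace Pool.Agent.Lib.MP_76c2e0_lc

open ZFSet

structure IsP (p : V) : Prop where
  eq : p = pair (fst p) (snd p)
  sub : snd p ⊆ fst p

structure Le (q p : V) : Prop where
  out : ∀ c ∈ fst p, c ∈ fst q ∧ (c ∈ snd q ↔ c ∈ snd p)

theorem IsP.mk' {d w : V} (h : w ⊆ d) : IsP (pair d w) := ⟨by simp, by simpa using h⟩

theorem Le.refl (p : V) : Le p p := ⟨fun _ h => ⟨h, Iff.rfl⟩⟩
theorem Le.trans {p q r : V} (h : Le p q) (h' : Le q r) : Le p r :=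
  ⟨fun c hc => ⟨(h.out c (h'.out c hc).1).1, (h.out c (h'.out c hc).1).2.trans (h'.out c hc).2⟩⟩

section
variable {α : Type 1} {Γ : Ctx α}

theorem Def.isP {t : α → V} (ht : DefF Γ t) : Def Γ fun a => IsP (t a) :=
  ((Def.eq ht (ht.fst.pair ht.snd)).and (Def.sub ht.snd ht.fst)).congr fun _ _ =>
    ⟨fun h => ⟨h.1, h.2⟩, fun h => ⟨h.1, h.2⟩⟩

theorem Def.le {s t : α → V} (hs : DefF Γ s) (ht : DefF Γ t) : Def Γ fun a => Le (s a) (t a) :=
  (Def.ball (Φ := fun a c => c ∈ fst (s a) ∧ (c ∈ snd (s a) ↔ c ∈ snd (t a))) ht.fst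
    ((Def.mem DefF.v0 hs.fst.wk).and ((Def.mem DefF.v0 hs.snd.wk).iff
      (Def.mem DefF.v0 ht.snd.wk)))).congr fun _ _ => ⟨fun h => ⟨h⟩, fun h => h.out⟩
end

noncomputable def un {ι : Type 1} [Small.{0} ι] (f : ι → V) : V :=
  pair (iUnion fun i => fst (f i)) (iUnion fun i => snd (f i))

theorem un_isP {ι : Type 1} [Small.{0} ι] {f : ι → V} (h : ∀ i, IsP (f i)) : IsP (un f) :=
  IsP.mk' fun _ hc => let ⟨i, hi⟩ := mem_iUnion.1 hc; mem_iUnion.2 ⟨i, (h i).sub hi⟩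

theorem un_le {ι : Type 1} [Small.{0} ι] {f : ι → V} (h : ∀ i, IsP (f i))
    (h' : ∀ i j, Le (f i) (f j) ∨ Le (f j) (f i)) (i : ι) : Le (un f) (f i) := by
  refine ⟨fun c hc => ?_⟩
  simp only [un, fst_pair, snd_pair, mem_iUnion]
  refine ⟨⟨i, hc⟩, ⟨fun ⟨j, hj⟩ => ?_, fun h => ⟨i, h⟩⟩⟩
  rcases h' i j with h1 | h1
  · exact (h1.out c ((h j).sub hj)).2.2 hj
  · exact (h1.out c hc).2.1 hj

instance {ι : Type 1} [Small.{0} ι] : Small.{0} (Option ι) :=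
  small_map (Equiv.optionCongr (equivShrink.{0} ι))

theorem distrib (a : V) (D : Set V)
    (h1 : ∀ x ∈ a, ∀ p, IsP p → ∃ q, IsP q ∧ Le q p ∧ pair x q ∈ D)
    (h2 : ∀ x ∈ a, ∀ q, IsP q → ∀ r, IsP r → Le r q → pair x q ∈ D → pair x r ∈ D)
    (p : V) (hp : IsP p) : ∃ q, IsP q ∧ Le q p ∧ ∀ x ∈ a, pair x q ∈ D := by
  classical
  choose! nx hn1 hn2 hn3 using h1
  let r : a → a → Prop := WellOrderingRel
  have wf : WellFounded r := (WellOrderingRel.isWellOrder (α := a)).wf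
  let F : ∀ x : a, (∀ y, r y x → V) → V := fun x IH =>
    nx x.1 (un fun o : Option {y // r y x} => o.elim p fun y => IH y.1 y.2)
  let f : a → V := wf.fix F
  have hf : ∀ x, f x = nx x.1 (un fun o : Option {y // r y x} => o.elim p fun y => f y.1) :=
    fun x => wf.fix_eq F x
  have chain : ∀ (S : a → Prop), (∀ x, S x → IsP (f x) ∧ Le (f x) p ∧ ∀ y, r y x → Le (f x) (f y)) →
      IsP (un fun o : Option {y // S y} => o.elim p fun y => f y.1) ∧
      ∀ o : Option {y // S y},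
        Le (un fun o : Option {y // S y} => o.elim p fun y => f y.1) (o.elim p fun y => f y.1) := by
    intro S hS
    have hP : ∀ o : Option {y // S y}, IsP (o.elim p fun y => f y.1) := by
      rintro (_ | y)
      · exact hp
      · exact (hS _ y.2).1
    refine ⟨un_isP hP, un_le hP ?_⟩
    rintro (_ | x) (_ | y)
    · exact Or.inl (Le.refl _)
    · exact Or.inr (hS _ y.2).2.1
    · exact Or.inl (hS _ x.2).2.1
    · rcases trichotomous_of r x.1 y.1 with h | h | h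
      · exact Or.inr ((hS _ y.2).2.2 _ h)
      · left
        change Le (f x.1) (f y.1)
        rw [h]
        exact Le.refl _
      · exact Or.inl ((hS _ x.2).2.2 _ h)
  have key : ∀ x, (IsP (f x) ∧ Le (f x) p ∧ ∀ y, r y x → Le (f x) (f y)) ∧ pair x.1 (f x) ∈ D := by
    intro x
    induction x using wf.induction with
    | h x ih =>
      obtain ⟨c1, c2⟩ := chain (fun y => r y x) fun y hy => (ih y hy).1
      have e := hn2 x.1 x.2 _ c1
      have e1 := hn1 x.1 x.2 _ c1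
      have e3 := hn3 x.1 x.2 _ c1
      rw [← hf] at e e1 e3
      exact ⟨⟨e1, e.trans (c2 none), fun y hy => e.trans (c2 (some ⟨y, hy⟩))⟩, e3⟩
  obtain ⟨c1, c2⟩ := chain (fun _ => True) fun y _ => (key y).1
  exact ⟨_, c1, c2 none, fun x hx =>
    h2 x hx _ (key ⟨x, hx⟩).1.1 _ c1 (c2 (some ⟨⟨x, hx⟩, trivial⟩)) (key ⟨x, hx⟩).2⟩

/-! the forcing relation with ground model parameters -/

def Frc (D : Set V) (R : ℕ → Set V) : Fm → (ℕ → V) → V → Prop
  | .mem i j, v, _ => v i ∈ v j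
  | .eq i j, v, _ => v i = v j
  | .inC i k, v, p => ∀ q ∈ D, IsP q → Le q p → ∃ r ∈ D, IsP r ∧ Le r q ∧
      ∃ s ∈ D, IsP s ∧ Le r s ∧ pair s (v i) ∈ R k
  | .not φ, v, p => ∀ q ∈ D, IsP q → Le q p → ¬ Frc D R φ v q
  | .and φ ψ, v, p => Frc D R φ v p ∧ Frc D R ψ v p
  | .all φ, v, p => ∀ x ∈ D, Frc D R φ (cons x v) p

theorem frc_def : ∀ (φ : Fm) {β : Type 1} {Δ : Ctx β} {e : ℕ → β → V} {c : ℕ → β → Set V}
    {t : β → V}, (∀ n, DefF Δ (e n)) → (∀ n, DefC Δ (c n)) → DefF Δ t →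
    Def Δ fun b => Frc (Δ.dom b) (fun n => c n b) φ (fun n => e n b) (t b)
  | .mem i j, _, _, _, _, _, he, _, _ => Def.mem (he i) (he j)
  | .eq i j, _, _, _, _, _, he, _, _ => Def.eq (he i) (he j)
  | .inC i k, _, Δ, _, _, _, he, hc, ht =>
      Def.all ((Def.isP DefF.v0).imp ((Def.le DefF.v0 ht.wk).imp (Def.ex (Γ := Δ.ext)
        ((Def.isP DefF.v0).and ((Def.le DefF.v0 DefF.v1).and (Def.ex (Γ := Δ.ext.ext)
          ((Def.isP DefF.v0).and ((Def.le DefF.v1 DefF.v0).and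
            (Def.inC (DefF.v0.pair (he i).wk.wk.wk) (hc k).wk.wk.wk)))))))))
  | .not φ, _, Δ, e, c, _, he, hc, ht =>
      Def.all ((Def.isP DefF.v0).imp ((Def.le DefF.v0 ht.wk).imp
        (frc_def φ (Δ := Δ.ext) (e := fun n p => e n p.1) (c := fun n p => c n p.1)
          (fun n => (he n).wk) (fun n => (hc n).wk) DefF.v0).not))
  | .and φ ψ, _, _, _, _, _, he, hc, ht => (frc_def φ he hc ht).and (frc_def ψ he hc ht)
  | .all φ, β, Δ, e, c, t, he, hc, ht => by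
      have h := frc_def φ (Δ := Δ.ext) (e := cons Prod.snd fun n p => e n p.1)
        (c := fun n p => c n p.1) (fun n => by
          cases n
          · exact DefF.v0
          · exact (he _).wk) (fun n => (hc n).wk) ht.wk
      refine Def.all (Φ := fun b x => Frc (Δ.dom b) (fun n => c n b) φ (cons x fun n => e n b)
        (t b)) (h.congr fun p _ => Iff.of_eq ?_)
      congr 1
      funext n
      cases n <;> rfl

theorem Frc.mono {D : Set V} {R : ℕ → Set V} : ∀ (φ : Fm) {v : ℕ → V} {p q : V},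
    Frc D R φ v p → Le q p → Frc D R φ v q
  | .mem _ _, _, _, _, h, _ => h
  | .eq _ _, _, _, _, h, _ => h
  | .inC _ _, _, _, _, h, hq => fun r h1 h2 h3 => h r h1 h2 (h3.trans hq)
  | .not _, _, _, _, h, hq => fun r h1 h2 h3 => h r h1 h2 (h3.trans hq)
  | .and φ ψ, _, _, _, h, hq => ⟨Frc.mono φ h.1 hq, Frc.mono ψ h.2 hq⟩
  | .all φ, _, _, _, h, hq => fun x hx => Frc.mono φ (h x hx) hq

theorem Frc.reg {D : Set V} {R : ℕ → Set V} : ∀ (φ : Fm) {v : ℕ → V} {p : V}, p ∈ D → IsP p →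
    (∀ q ∈ D, IsP q → Le q p → ∃ r ∈ D, IsP r ∧ Le r q ∧ Frc D R φ v r) → Frc D R φ v p
  | .mem _ _, _, p, h1, h2, h => let ⟨_, _, _, _, h⟩ := h p h1 h2 (Le.refl p); h
  | .eq _ _, _, p, h1, h2, h => let ⟨_, _, _, _, h⟩ := h p h1 h2 (Le.refl p); h
  | .inC _ _, _, _, _, _, h => fun q a1 a2 a3 =>
      let ⟨r, b1, b2, b3, b4⟩ := h q a1 a2 a3
      let ⟨s, c1, c2, c3, c4⟩ := b4 r b1 b2 (Le.refl r)
      ⟨s, c1, c2, c3.trans b3, c4⟩
  | .not φ, _, _, _, _, h => fun q a1 a2 a3 a4 =>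
      let ⟨r, b1, b2, b3, b4⟩ := h q a1 a2 a3
      b4 r b1 b2 (Le.refl r) (Frc.mono φ a4 b3)
  | .and φ ψ, _, _, h1, h2, h =>
      ⟨Frc.reg φ h1 h2 fun q a1 a2 a3 =>
        let ⟨r, b1, b2, b3, b4⟩ := h q a1 a2 a3; ⟨r, b1, b2, b3, b4.1⟩,
      Frc.reg ψ h1 h2 fun q a1 a2 a3 =>
        let ⟨r, b1, b2, b3, b4⟩ := h q a1 a2 a3; ⟨r, b1, b2, b3, b4.2⟩⟩
  | .all φ, _, _, h1, h2, h => fun x hx => Frc.reg φ h1 h2 fun q a1 a2 a3 =>
        let ⟨r, b1, b2, b3, b4⟩ := h q a1 a2 a3; ⟨r, b1, b2, b3, b4 x hx⟩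

/-! recursion -/

structure Low (z' z : V) : Prop where
  out : ∃ u ∈ fst z, u = pair (fst z') (snd u)

theorem low_wf : WellFounded Low :=
  Subrelation.wf (r := InvImage (· < ·) fun z : V => (fst z).rank)
    (fun ⟨_, h1, h2⟩ => rank_lt_of_pair (h2 ▸ h1)) (InvImage.wf _ wellFounded_lt)

theorem Def.low {α : Type 1} {Γ : Ctx α} {s t : α → V} (hs : DefF Γ s) (ht : DefF Γ t) :
    Def Γ fun a => Low (s a) (t a) :=
  (Def.bex (Φ := fun a u => u = pair (fst (s a)) (snd u)) ht.fst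
    (Def.eq DefF.v0 (hs.fst.wk.pair DefF.v0.snd))).congr fun _ _ => ⟨fun h => ⟨h⟩, fun h => h.out⟩

theorem exists_etr (Θ : Set V → V → V → Prop) :
    ∃ R : Set V, ∀ z p, pair p z ∈ R ↔ Θ {w | w ∈ R ∧ Low (snd w) z} z p := by
  let F : ∀ z : V, (∀ y, Low y z → Set V) → Set V := fun z IH =>
    {p | Θ {w | ∃ p' z', w = pair p' z' ∧ ∃ h : Low z' z, p' ∈ IH z' h} z p}
  let W : V → Set V := low_wf.fix F
  have hW : ∀ z, W z = {p | Θ {w | ∃ p' z', w = pair p' z' ∧ ∃ _ : Low z' z, p' ∈ W z'} z p} :=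
    fun z => low_wf.fix_eq F z
  refine ⟨{w | ∃ p z, w = pair p z ∧ p ∈ W z}, fun z p => ?_⟩
  have : {w | w ∈ {w | ∃ p z, w = pair p z ∧ p ∈ W z} ∧ Low (snd w) z} =
      {w | ∃ p' z', w = pair p' z' ∧ ∃ _ : Low z' z, p' ∈ W z'} := by
    ext w
    constructor
    · rintro ⟨⟨p', z', rfl, h⟩, h'⟩
      exact ⟨p', z', rfl, by simpa using h', h⟩
    · rintro ⟨p', z', rfl, h, h'⟩
      exact ⟨⟨p', z', rfl, h'⟩, by simpa using h⟩
  rw [this]
  constructor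
  · rintro ⟨p', z', h, h'⟩
    obtain ⟨rfl, rfl⟩ := pair_inj.1 h
    rwa [hW] at h'
  · intro h
    exact ⟨p, z, rfl, by rwa [hW]⟩

theorem etr_unique {D F F' : Set V} (Ψ : Set V → V → Prop) (h1 : F ⊆ D) (h2 : F' ⊆ D)
    (h : ∀ z ∈ D, (z ∈ F ↔ Ψ {w | w ∈ F ∧ Low w z} z))
    (h' : ∀ z ∈ D, (z ∈ F' ↔ Ψ {w | w ∈ F' ∧ Low w z} z)) : F = F' := by
  ext z
  induction z using low_wf.induction with
  | h z ih =>
    by_cases hz : z ∈ D
    · rw [h z hz, h' z hz]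
      have : {w | w ∈ F ∧ Low w z} = {w | w ∈ F' ∧ Low w z} :=
        Set.ext fun w => and_congr_left fun hw => ih w hw
      rw [this]
    · exact iff_of_false (fun a => hz (h1 a)) fun a => hz (h2 a)

/-! check names -/

noncomputable def top : V := pair ∅ ∅

theorem isP_top : IsP top := IsP.mk' fun _ h => h
theorem le_top' (p : V) : Le p top := ⟨fun c hc => by simp [top] at hc⟩

noncomputable def chk (x : V) : V := range fun y : x => pair (chk y.1) top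
termination_by x.rank
decreasing_by exact rank_lt_of_mem y.2

theorem mem_chk {x z : V} : z ∈ chk x ↔ ∃ y ∈ x, z = pair (chk y) top := by
  rw [chk, mem_range]
  exact ⟨fun ⟨y, h⟩ => ⟨y.1, y.2, h.symm⟩, fun ⟨y, h1, h2⟩ => ⟨⟨y, h1⟩, h2.symm⟩⟩

theorem val_chk {G : Set V} (hG : top ∈ G) (x : V) : val G (chk x) = x := by
  induction x using ZFSet.inductionOn with
  | h x ih =>
    ext z
    rw [mem_val]
    constructor
    · rintro ⟨y, p, -, h, rfl⟩
      obtain ⟨u, hu, h⟩ := mem_chk.1 h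
      rw [(pair_inj.1 h).1, ih u hu]
      exact hu
    · intro hz
      exact ⟨chk z, top, hG, mem_chk.2 ⟨z, hz, rfl⟩, (ih z hz).symm⟩

theorem act_chk {π : Equiv.Perm V} (h : π top = top) (x : V) : act π (chk x) = chk x := by
  induction x using ZFSet.inductionOn with
  | h x ih =>
    ext z
    rw [mem_act, mem_chk]
    constructor
    · rintro ⟨y, p, h1, rfl⟩
      obtain ⟨u, hu, h1⟩ := mem_chk.1 h1
      obtain ⟨rfl, rfl⟩ := pair_inj.1 h1
      exact ⟨u, hu, by rw [ih u hu, h]⟩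
    · rintro ⟨u, hu, rfl⟩
      exact ⟨chk u, top, mem_chk.2 ⟨u, hu, rfl⟩, by rw [ih u hu, h]⟩

theorem val_act (π : Equiv.Perm V) (G : Set V) (x : V) : val (π '' G) (act π x) = val G x := by
  induction x using pair_ind with
  | h x ih =>
    ext z
    simp only [mem_val, mem_act]
    constructor
    · rintro ⟨_, _, ⟨p, hp, rfl⟩, ⟨y, q, h1, h2⟩, rfl⟩
      obtain ⟨rfl, h3⟩ := pair_inj.1 h2
      obtain rfl := π.injective h3
      exact ⟨y, p, hp, h1, ih y p h1⟩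
    · rintro ⟨y, p, hp, h1, rfl⟩
      exact ⟨_, _, ⟨p, hp, rfl⟩, ⟨y, p, h1, rfl⟩, (ih y p h1).symm⟩

def up (s : V) : Set V := {r | IsP r ∧ Le s r}

end Pool.Agent.Lib.MP_76c2e0_lc
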