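import Mathlib

namespace Pool.Agent.Lib.MP_76c2e0_lc

open ZFSet

/-- The ambient universe of sets. -/
abbrev V : Type 1 := ZFSet.{0}

/-- First order formulas with set variables (de Bruijn) and class parameters. -/
inductive Fm : Type
  | mem : ℕ → ℕ → Fm
  | eq : ℕ → ℕ → Fm
  | inC : ℕ → ℕ → Fm
  | not : Fm → Fm
  | and : Fm → Fm → Fm
  | all : Fm → Fm

/-- Put a new value in front of an assignment. -/
def cons {α : Type 1} (a : α) (v : ℕ → α) : ℕ → α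
  | 0 => a
  | n + 1 => v n

/-- Truth of a formula; quantifiers range over `D`. -/
def Sat (D : Set V) (C : ℕ → Set V) : Fm → (ℕ → V) → Prop
  | .mem i j, v => v i ∈ v j
  | .eq i j, v => v i = v j
  | .inC i k, v => v i ∈ C k
  | .not φ, v => ¬ Sat D C φ v
  | .and φ ψ, v => Sat D C φ v ∧ Sat D C ψ v
  | .all φ, v => ∀ x ∈ D, Sat D C φ (cons x v)

/-- A two sorted structure: its sets and its classes. -/
structure Mdl where
  sets : Set V
  cls : Set (Set V)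

/-- Transitive models of Goedel-Bernays class theory. -/
structure IsGB (M : Mdl) : Prop where
  trans : ∀ x ∈ M.sets, ∀ y ∈ x, y ∈ M.sets
  sub : ∀ C ∈ M.cls, C ⊆ M.sets
  univ : M.sets ∈ M.cls
  pairing : ∀ x ∈ M.sets, ∀ y ∈ M.sets, ({x, y} : V) ∈ M.sets
  union : ∀ x ∈ M.sets, sUnion x ∈ M.sets
  power : ∀ x ∈ M.sets, ∃ y ∈ M.sets, ∀ z ∈ M.sets, (z ∈ y ↔ z ⊆ x)
  infinity : ∃ w ∈ M.sets, ∅ ∈ w ∧ ∀ x ∈ w, insert x x ∈ w
  separation : ∀ C ∈ M.cls, ∀ a ∈ M.sets, ∃ b ∈ M.sets, ∀ y, y ∈ b ↔ y ∈ a ∧ y ∈ C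
  replacement : ∀ F ∈ M.cls, (∀ x y y', pair x y ∈ F → pair x y' ∈ F → y = y') →
    ∀ a ∈ M.sets, ∃ b ∈ M.sets, ∀ y, y ∈ b ↔ ∃ x ∈ a, pair x y ∈ F
  comprehension : ∀ (φ : Fm) (v : ℕ → V) (C : ℕ → Set V), (∀ n, v n ∈ M.sets) →
    (∀ k, C k ∈ M.cls) → {x | x ∈ M.sets ∧ Sat M.sets C φ (cons x v)} ∈ M.cls

/-- A class forcing notion of `M`: a preorder whose field and order are classes. -/
def IsPre (M : Mdl) (P le : Set V) : Prop :=
  P ∈ M.cls ∧ le ∈ M.cls ∧ (∀ p ∈ P, pair p p ∈ le) ∧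
    ∀ p ∈ P, ∀ q ∈ P, ∀ r ∈ P, pair p q ∈ le → pair q r ∈ le → pair p r ∈ le

/-- A filter meeting every dense class of `M`. -/
def Generic (M : Mdl) (P le G : Set V) : Prop :=
  G ⊆ P ∧ (∀ p ∈ G, ∀ q ∈ P, pair p q ∈ le → q ∈ G) ∧
    (∀ p ∈ G, ∀ q ∈ G, ∃ r ∈ G, pair r p ∈ le ∧ pair r q ∈ le) ∧
    ∀ D ∈ M.cls, D ⊆ P → (∀ p ∈ P, ∃ q ∈ D, pair q p ∈ le) → ∃ p ∈ G, p ∈ D

/-- The ordered pairs that are elements of `x`. -/
abbrev Pairs (x : V) : Type 1 := {s : V × V // pair s.1 s.2 ∈ x}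

instance (x : V) : Small.{0} (Pairs x) :=
  small_of_injective (β := x) (f := fun s => ⟨pair s.1.1 s.1.2, s.2⟩) fun _ _ h =>
    Subtype.ext (Prod.ext (pair_inj.1 (congrArg Subtype.val h)).1
      (pair_inj.1 (congrArg Subtype.val h)).2)

theorem rank_lt_of_pair {x y p : V} (h : pair y p ∈ x) : y.rank < x.rank :=
  (rank_lt_of_mem (show y ∈ ({y} : V) by simp)).trans
    ((rank_lt_of_mem (show ({y} : V) ∈ pair y p by simp [pair])).trans (rank_lt_of_mem h))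

/-- Evaluation of a name by a filter. -/
noncomputable def val (G : Set V) (x : V) : V :=
  range fun s : {s : Pairs x // s.1.2 ∈ G} => val G s.1.1.1
termination_by x.rank
decreasing_by exact rank_lt_of_pair s.1.2

/-- The action of an automorphism on names. -/
noncomputable def act (π : Equiv.Perm V) (x : V) : V :=
  range fun s : Pairs x => pair (act π s.1.1) (π s.1.2)
termination_by x.rank
decreasing_by exact rank_lt_of_pair s.2

/-- Evaluation of a class name. -/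
def valC (G Γ : Set V) : Set V := {z | ∃ y, ∃ p ∈ G, pair y p ∈ Γ ∧ z = val G y}

/-- Names for the forcing notion with field `P`. -/
inductive IsName (P : Set V) : V → Prop
  | mk (x : V) : (∀ z ∈ x, ∃ y, ∃ p ∈ P, z = pair y p) →
      (∀ y p, pair y p ∈ x → IsName P y) → IsName P x

/-- The generic extension `N[H]`. -/
def gext (N : Mdl) (Q H : Set V) : Mdl where
  sets := val H '' {x | x ∈ N.sets ∧ IsName Q x}
  cls := valC H '' {Γ | Γ ∈ N.cls ∧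
    ∀ z ∈ Γ, ∃ y ∈ N.sets, ∃ q ∈ Q, IsName Q y ∧ z = pair y q}

/-- Class symmetric systems. Automorphisms of `P` are extended by the identity outside `P`. -/
structure SymSys (M : Mdl) where
  P : Set V
  le : Set V
  aut : V → Equiv.Perm V
  G : Subgroup (Equiv.Perm V)
  H : V → Subgroup (Equiv.Perm V)
  pre : IsPre M P le
  G_eq : ∀ π, π ∈ G ↔ ∃ a ∈ M.sets, π = aut a
  aut_off : ∀ π ∈ G, ∀ x, x ∉ P → π x = x
  aut_mem : ∀ π ∈ G, ∀ p ∈ P, π p ∈ P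
  aut_le : ∀ π ∈ G, ∀ p ∈ P, ∀ q ∈ P, (pair (π p) (π q) ∈ le ↔ pair p q ∈ le)
  aut_cls : {z | ∃ a ∈ M.sets, ∃ p ∈ P, z = pair a (pair p (aut a p))} ∈ M.cls
  H_le : ∀ a ∈ M.sets, H a ≤ G
  H_cls : {z | ∃ a ∈ M.sets, ∃ b ∈ M.sets, aut b ∈ H a ∧ z = pair a b} ∈ M.cls
  H_top : ∃ b ∈ M.sets, H b = G
  H_inf : ∀ a ∈ M.sets, ∀ b ∈ M.sets, ∃ c ∈ M.sets, H c ≤ H a ⊓ H b
  H_conj : ∀ π ∈ G, ∀ a ∈ M.sets, ∃ c ∈ M.sets, ∀ σ ∈ H c, π⁻¹ * σ * π ∈ H a

namespace SymSys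
variable {M : Mdl} (S : SymSys M)

/-- Hereditarily symmetric names. -/
inductive HS : V → Prop
  | mk (x : V) : x ∈ M.sets → (∀ z ∈ x, ∃ y, ∃ p ∈ S.P, z = pair y p) →
      (∃ a ∈ M.sets, ∀ π ∈ S.H a, act π x = x) → (∀ y p, pair y p ∈ x → HS y) → HS x

/-- Class names of the system. -/
def ClassName (Γ : Set V) : Prop :=
  Γ ∈ M.cls ∧ (∀ z ∈ Γ, ∃ y, ∃ p ∈ S.P, S.HS y ∧ z = pair y p) ∧
    ∃ a ∈ M.sets, ∀ π ∈ S.H a, {z | ∃ y p, pair y p ∈ Γ ∧ z = pair (act π y) (π p)} = Γ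

/-- The symmetric extension. -/
def ext (G : Set V) : Mdl where
  sets := val G '' {x | S.HS x}
  cls := valC G '' {Γ | S.ClassName Γ}

/-- The symmetric forcing relation. -/
def Forces (p : V) (φ : Fm) (σ : ℕ → V) (Γ : ℕ → Set V) : Prop :=
  ∀ G, Generic M S.P S.le G → p ∈ G →
    Sat (S.ext G).sets (fun k => valC G (Γ k)) φ fun i => val G (σ i)

/-- For each formula and class name parameters the forcing relation is a class. -/
def Admits : Prop :=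
  ∀ (φ : Fm) (n : ℕ) (Γ : ℕ → Set V), (∀ k, S.ClassName (Γ k)) →
    {z | ∃ p ∈ S.P, ∃ l : List V, l.length = n ∧ (∀ x ∈ l, S.HS x) ∧
      z = pair p (l.foldr pair ∅) ∧ S.Forces p φ (fun i => l.getD i ∅) Γ} ∈ M.cls

/-- Whatever is true in a symmetric extension is forced by a condition in the filter. -/
def Truth : Prop :=
  ∀ (φ : Fm) (σ : ℕ → V) (Γ : ℕ → Set V), (∀ i, S.HS (σ i)) → (∀ k, S.ClassName (Γ k)) →
    ∀ G, Generic M S.P S.le G →
      Sat (S.ext G).sets (fun k => valC G (Γ k)) φ (fun i => val G (σ i)) →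
        ∃ p ∈ G, S.Forces p φ σ Γ

end SymSys

end Pool.Agent.Lib.MP_76c2e0_lc
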