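import Pool.Agent.Lib.MP_76c2e0_lc.Sys

namespace Pool.Agent.Lib.MP_76c2e0_lc

open ZFSet

theorem DefF.pull' {α β : Type 1} {Γ : Ctx α} {Δ : Ctx β} {t : α → V} (f : β → α) (h : DefF Γ t)
    (h1 : ∀ b, Δ.ok b → Γ.ok (f b)) (h2 : ∀ b, Δ.ok b → Γ.dom (f b) = Δ.dom b)
    (h3 : ∀ t, Γ.T t → DefF Δ fun b => t (f b)) (h4 : ∀ c, Γ.K c → DefC Δ fun b => c (f b)) :
    DefF Δ fun b => t (f b) := by
  refine ⟨fun b hb => h2 b hb ▸ h.1 _ (h1 b hb), Def.pull' (Δ := Δ.ext) (fun p => (f p.1, p.2)) h.2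
    (fun p hp => ⟨h1 _ hp.1, (h2 _ hp.1).symm ▸ hp.2⟩) (fun p hp => h2 _ hp.1) ?_ ?_⟩
  · rintro _ (rfl | ⟨s, hs, rfl⟩)
    · exact DefF.v0
    · exact (h3 s hs).wk
  · rintro _ ⟨s, hs, rfl⟩
    exact (h4 s hs).wk

theorem Good.cls2 {N : Mdl} (h : Good N) {Φ : PUnit.{2} × V → Prop} (H : Def h.fix.ext Φ) :
    {x | x ∈ N.sets ∧ Φ (⟨⟩, x)} ∈ N.cls := h.cls (Φ := fun x => Φ (⟨⟩, x)) H

namespace Hull
variable {h : Hull} {G : Set V}

variable (h) in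
structure RL {β : Type 1} (Δ : Ctx β) (f : β → Set V) : Prop where
  ok : ∀ b, Δ.ok b → h.Gen (f b)
  dom : ∀ b, Δ.ok b → h.M0 = Δ.dom b
  cst : ∀ a ∈ h.M0, DefF Δ fun _ => a
  cls : ∀ U, h.Rep U → DefC Δ fun b => U (f b)

theorem RL.base : h.RL h.rep fun G => G := ⟨fun _ H => H, fun _ _ => rfl, fun _ => rF, fun _ => Rep.defC⟩

theorem RL.ext {β : Type 1} {Δ : Ctx β} {f : β → Set V} (H : h.RL Δ f) :
    h.RL Δ.ext fun p => f p.1 :=
  ⟨fun _ hp => H.ok _ hp.1, fun _ hp => H.dom _ hp.1, fun a ha => (H.cst a ha).wk,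
    fun U hU => (H.cls U hU).wk⟩

theorem RL.val {β : Type 1} {Δ : Ctx β} {f : β → Set V} (H : h.RL Δ f) {t : β → V}
    (ht : DefF Δ t) : DefF Δ fun b => val (f b) (t b) := by
  refine DefF.pull' (fun b => (f b, t b)) val_def
    (fun b hb => ⟨H.ok b hb, show t b ∈ h.M0 from (H.dom b hb).symm ▸ ht.1 b hb⟩) H.dom ?_ ?_
  · rintro _ (rfl | ⟨s, ⟨a, ha, rfl⟩, rfl⟩)
    · exact ht
    · exact H.cst a ha
  · rintro _ ⟨s, hs, rfl⟩
    exact H.cls s hs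

theorem Rep.congr {U U' : Set V → Set V} (hU : h.Rep U) (e : ∀ G, h.Gen G → U G = U' G) :
    h.Rep U' :=
  let ⟨R, hR, H⟩ := hU; ⟨R, hR, fun G hG => (e G hG).symm.trans (H G hG)⟩

theorem rep_valC {Γ : Set V} (hΓ : Γ ∈ h.M.cls) : h.Rep fun G => valC G Γ := by
  refine (Rep.of_def (Φ := fun G z => ∃ y ∈ h.M0, ∃ p ∈ h.M0, p ∈ G ∧ pair y p ∈ Γ ∧ z = val G y)
    (Def.ex (Def.ex ((Def.inC DefF.v0 rG.wk.wk.wk).and ((Def.inC (DefF.v1.pair DefF.v0)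
      (rC hΓ).wkc.wkc.wkc).and (Def.eq DefF.v2 (RL.base.ext.ext.ext.val DefF.v1))))))).congr
    fun G hG => Set.ext fun z => ⟨fun ⟨_, y, _, p, _, a⟩ => ⟨y, p, a⟩, ?_⟩
  rintro ⟨y, p, a1, a2, rfl⟩
  have := h.pair_mem.1 (h.cls_sub hΓ a2)
  exact ⟨hG.val_mem this.1, y, this.1, p, this.2, a1, a2, rfl⟩

variable (h) in
def Inv (E : V) {γ : Type 1} (U : Set V → γ) : Prop :=
  ∀ a ∈ h.M0, (∀ c ∈ a, ¬ Prot E c) → ∀ G, h.Gen G → U (h.aut a '' G) = U G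

theorem Inv.mono {γ : Type 1} {E E' : V} {U : Set V → γ} (H : h.Inv E U) (hE : E ⊆ E') :
    h.Inv E' U := fun a ha H' => H a ha fun c hc a => H' c hc (a.mono hE)

variable (h) in
def Sym (U : Set V → Set V) : Prop := h.Rep U ∧ ∃ E ∈ h.M0, h.Inv E U

theorem cls_iff (hG : h.Gen G) {A : Set V} : A ∈ (h.S.ext G).cls ↔ ∃ U, h.Sym U ∧ U G = A := by
  constructor
  · rintro ⟨Γ, ⟨a1, -, E, a2, a3⟩, rfl⟩
    refine ⟨_, ⟨rep_valC a1, E, a2, fun a ha H G _ => ?_⟩, rfl⟩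
    have := a3 _ ⟨a, ha, H, rfl⟩
    ext z
    constructor
    · rintro ⟨y, p, b1, b2, rfl⟩
      rw [← this] at b2
      obtain ⟨y', p', b2, e⟩ := b2
      obtain ⟨rfl, rfl⟩ := pair_inj.1 e
      exact ⟨y', p', by rwa [mem_aut_image, aut_aut] at b1, b2, val_act _ _ _⟩
    · rintro ⟨y, p, b1, b2, rfl⟩
      exact ⟨_, _, ⟨p, b1, rfl⟩, this ▸ ⟨y, p, b2, rfl⟩, (val_act _ _ _).symm⟩
  · rintro ⟨U, ⟨hU, E, hE, hI⟩, rfl⟩
    obtain ⟨W, hW, H⟩ := hU.forces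
    obtain ⟨F, hF, HF⟩ := h.chk_graph
    have hc := h.good.cls (Φ := fun z => ∃ x ∈ h.M0, z = pair (fst z) (snd z) ∧
      pair (pair x x) (fst z) ∈ F ∧ pair (snd z) x ∈ W)
      (Def.ex ((Def.eq DefF.v1 (DefF.v1.fst.pair DefF.v1.snd)).and
        ((Def.inC ((DefF.v0.pair DefF.v0).pair DefF.v1.fst) (h.good.cC hF).wkc.wkc).and
          (Def.inC (DefF.v1.snd.pair DefF.v0) (h.good.cC hW).wkc.wkc))))
    have e : {z | z ∈ h.M.sets ∧ ∃ x ∈ h.M0, z = pair (fst z) (snd z) ∧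
        pair (pair x x) (fst z) ∈ F ∧ pair (snd z) x ∈ W} =
        {z | ∃ x ∈ h.M0, ∃ p, z = pair (chk x) p ∧ pair p x ∈ W} := by
      ext z
      constructor
      · rintro ⟨-, x, a1, a2, a3, a4⟩
        exact ⟨x, a1, _, ((HF x a1 x a1).2 _).1 a3 ▸ a2, a4⟩
      · rintro ⟨x, a1, p, rfl, a2⟩
        exact ⟨h.pair_mem.2 ⟨chk_mem a1, ((H p x).1 a2).1.1⟩, x, a1, by simp,
          ((HF x a1 x a1).2 _).2 (by simp), by simpa using a2⟩
    rw [e] at hc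
    refine ⟨_, ⟨hc, ?_, E, hE, ?_⟩, ?_⟩
    · rintro _ ⟨x, a1, p, rfl, a2⟩
      exact ⟨_, p, ((H p x).1 a2).1, chk_hs a1, rfl⟩
    · rintro _ ⟨a, ha, Ha, rfl⟩
      have ht : h.aut a top = top := by
        rw [aut_P ha h.top_mem, flip_fix isP_top (by simp [top])]
      have key : ∀ p x, pair p x ∈ W → pair (h.aut a p) x ∈ W := by
        intro p x hp
        obtain ⟨b1, b2⟩ := (H p x).1 hp
        refine (H _ x).2 ⟨aut_mem ha b1, fun G hG hp => ?_⟩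
        rw [← hI a ha Ha G hG]
        exact b2 _ (hG.image ha) (mem_aut_image.2 hp)
      ext z
      constructor
      · rintro ⟨y, p, ⟨x, a1, p', e, a2⟩, rfl⟩
        obtain ⟨rfl, rfl⟩ := pair_inj.1 e
        exact ⟨x, a1, _, by rw [act_chk ht], key _ _ a2⟩
      · rintro ⟨x, a1, p, rfl, a2⟩
        exact ⟨_, _, ⟨x, a1, _, rfl, key _ _ a2⟩, by rw [act_chk ht, aut_aut]⟩
    · ext z
      constructor
      · rintro ⟨y, p, b1, ⟨x, a1, p', e, a2⟩, rfl⟩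
        obtain ⟨rfl, rfl⟩ := pair_inj.1 e
        rw [val_chk hG.top]
        exact ((H p x).1 a2).2 G hG b1
      · intro hz
        have hz' := hU.sub hG hz
        obtain ⟨p, a1, a2⟩ := sem_truth (Φ := fun G => z ∈ U G) (Def.inC (rF hz') hU.defC) hG hz
        exact ⟨_, p, a1, ⟨z, hz', p, rfl, (H p z).2 ⟨hG.sub a1, a2⟩⟩, (val_chk hG.top z).symm⟩

theorem inv_sat {c : ℕ → Set V → Set V} (hc : ∀ n, h.Sym (c n)) : ∀ φ : Fm, ∃ E ∈ h.M0,
    h.Inv E fun G => {v : ℕ → V | Sat h.M0 (fun n => c n G) φ v}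
  | .mem _ _ => ⟨_, h.M0_emp, fun _ _ _ _ _ => rfl⟩
  | .eq _ _ => ⟨_, h.M0_emp, fun _ _ _ _ _ => rfl⟩
  | .inC i k => let ⟨E, hE, H⟩ := (hc k).2
      ⟨E, hE, fun a ha Ha G hG => by simp only [Sat, H a ha Ha G hG]⟩
  | .not φ => let ⟨E, hE, H⟩ := inv_sat hc φ
      ⟨E, hE, fun a ha Ha G hG => Set.ext fun v => not_congr (Set.ext_iff.1 (H a ha Ha G hG) v)⟩
  | .and φ ψ =>
      let ⟨E, hE, H⟩ := inv_sat hc φ
      let ⟨E', hE', H'⟩ := inv_sat hc ψ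
      ⟨E ∪ E', h.union_mem hE hE', fun a ha Ha G hG => Set.ext fun v => and_congr
        (Set.ext_iff.1 (H.mono (fun _ hx => mem_union.2 (Or.inl hx)) a ha Ha G hG) v)
        (Set.ext_iff.1 (H'.mono (fun _ hx => mem_union.2 (Or.inr hx)) a ha Ha G hG) v)⟩
  | .all φ => let ⟨E, hE, H⟩ := inv_sat hc φ
      ⟨E, hE, fun a ha Ha G hG => Set.ext fun v => forall₂_congr fun x _ =>
        Set.ext_iff.1 (H a ha Ha G hG) (cons x v)⟩

theorem Sym.const {A : Set V} (hA : A ∈ h.M.cls) : h.Sym fun _ => A :=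
  ⟨Rep.const hA, _, h.M0_emp, fun _ _ _ _ _ => rfl⟩

theorem Gen.cls_M (hG : h.Gen G) {A : Set V} (hA : A ∈ h.M.cls) : A ∈ (h.S.ext G).cls :=
  (cls_iff hG).2 ⟨_, Sym.const hA, rfl⟩

theorem Gen.good (hG : h.Gen G) : Good (h.S.ext G) := by
  refine ⟨hG.sets ▸ h.M0_trans, hG.sets ▸ h.M0_pair, hG.sets ▸ h.M0_emp,
    hG.sets ▸ hG.cls_M h.M0_cls, fun φ v C hv hC => ?_⟩
  rw [hG.sets] at hv ⊢
  choose c hc1 hc2 using fun n => (cls_iff hG).1 (hC n)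
  obtain ⟨E, hE, H⟩ := inv_sat hc1 φ
  refine (cls_iff hG).2 ⟨fun G => {x | x ∈ h.M0 ∧ Sat h.M0 (fun n => c n G) φ (cons x v)},
    ⟨Rep.of_def ((sat_def φ (Δ := h.rep.ext) (e := cons Prod.snd fun n _ => v n)
      (c := fun n p => c n p.1) (fun n => by
        cases n
        · exact DefF.v0
        · exact (rF (hv _)).wkc) fun n => (hc1 n).1.defC.wk).congr fun p _ => Iff.of_eq (by
          congr 1
          funext n
          cases n <;> rfl)), E, hE, fun a ha Ha G hG => Set.ext fun x => and_congr_right fun _ =>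
        Set.ext_iff.1 (H a ha Ha G hG) (cons x v)⟩, by simp only [hc2]⟩

theorem Gen.repl (hG : h.Gen G) : ∀ F ∈ (h.S.ext G).cls,
    (∀ x y y', pair x y ∈ F → pair x y' ∈ F → y = y') →
    ∀ a ∈ h.M0, ∃ b ∈ h.M0, ∀ y, y ∈ b ↔ ∃ x ∈ a, pair x y ∈ F := by
  intro F hF hf a ha
  obtain ⟨U, ⟨⟨R, hR, HR⟩, -⟩, rfl⟩ := (cls_iff hG).1 hF
  rw [HR G hG] at hf ⊢
  have c1 := (h.good.cC hR).wkc
  have hD := h.good.cls (Φ := fun z =>
    (∃ y ∈ h.M0, ∃ s ∈ h.M0, IsP s ∧ Le (snd z) s ∧ pair s (pair (fst z) y) ∈ R) ∨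
    ∀ q ∈ h.M0, IsP q → Le q (snd z) → ∀ y ∈ h.M0, ∀ s ∈ h.M0, IsP s → Le q s →
      ¬ pair s (pair (fst z) y) ∈ R)
    ((Def.ex (Def.ex ((Def.isP DefF.v0).and ((Def.le DefF.v2.snd DefF.v0).and
      (Def.inC (DefF.v0.pair (DefF.v2.fst.pair DefF.v1)) c1.wkc.wkc))))).or
      (Def.all ((Def.isP DefF.v0).imp ((Def.le DefF.v0 DefF.v1.snd).imp (Def.all (Def.all
        ((Def.isP DefF.v0).imp ((Def.le DefF.v2 DefF.v0).imp
          (Def.inC (DefF.v0.pair (DefF.v3.fst.pair DefF.v1)) c1.wkc.wkc.wkc).not))))))))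
  have hdef : ∀ D ∈ h.M.cls, Def h.good.fix.ext fun p => ∀ x ∈ a, pair x p.2 ∈ D := fun D hD =>
    Def.ball (h.good.cF ha).wkc (Def.inC (DefF.v0.pair DefF.v1) (h.good.cC hD).wkc.wkc)
  obtain ⟨p, hp, H⟩ := hG.dense (Φ := fun p => ∀ x ∈ a, pair x p ∈ _) (hdef _ hD)
    (h.distribM hD a ha (fun x hx p b1 b2 => by
      have hx' := h.M0_trans _ ha _ hx
      by_cases H : ∃ q ∈ h.M0, IsP q ∧ Le q p ∧ ∃ y ∈ h.M0, ∃ s ∈ h.M0, IsP s ∧ Le q s ∧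
          pair s (pair x y) ∈ R
      · obtain ⟨q, d1, d2, d3, d4⟩ := H
        exact ⟨q, d1, d2, d3, h.pair_mem.2 ⟨hx', d1⟩, Or.inl (by simpa using d4)⟩
      · refine ⟨p, b1, b2, Le.refl p, h.pair_mem.2 ⟨hx', b1⟩, Or.inr ?_⟩
        simp only [fst_pair, snd_pair]
        exact fun q d1 d2 d3 y d4 s d5 d6 d7 d8 => H ⟨q, d1, d2, d3, y, d4, s, d5, d6, d7, d8⟩)
      fun x hx q b1 b2 r b3 b4 b5 b6 => by
      refine ⟨h.pair_mem.2 ⟨h.M0_trans _ ha _ hx, b3⟩, ?_⟩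
      have := b6.2
      simp only [fst_pair, snd_pair] at this ⊢
      exact this.imp (fun ⟨y, d1, s, d2, d3, d4, d5⟩ => ⟨y, d1, s, d2, d3, b5.trans d4, d5⟩)
        fun H q' d1 d2 d3 => H q' d1 d2 (d3.trans b5))
  have hFp := h.good.cls (Φ := fun z => ∃ s ∈ h.M0, IsP s ∧ Le p s ∧ pair s z ∈ R)
    (Def.ex ((Def.isP DefF.v0).and ((Def.le (h.good.cF (hG.sub hp).1).wkc.wkc DefF.v0).and
      (Def.inC (DefF.v0.pair DefF.v1) c1.wkc))))
  have sub : ∀ z, (∃ s ∈ h.M0, IsP s ∧ Le p s ∧ pair s z ∈ R) → z ∈ app R G :=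
    fun z ⟨s, d1, d2, d3, d4⟩ => ⟨s, hG.up hp ⟨d1, d2⟩ d3, d4⟩
  obtain ⟨b, hb, Hb⟩ := h.repl _ hFp (fun x y y' d1 d2 => hf x y y' (sub _ d1.2) (sub _ d2.2)) a ha
  refine ⟨b, hb, fun y => (Hb y).trans (exists_congr fun x => and_congr_right fun hx =>
    ⟨fun d => sub _ d.2, fun d => ?_⟩)⟩
  obtain ⟨s, d1, d2⟩ := d
  have d3 := (h.pair_mem.1 (h.cls_sub hR d2)).2
  have := (H x hx).2
  simp only [fst_pair, snd_pair] at this
  rcases this with ⟨y', e1, e2⟩ | e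
  · obtain rfl := hf x y y' ⟨s, d1, d2⟩ (sub _ e2)
    exact ⟨d3, e2⟩
  · obtain ⟨q, f1, f2, f3⟩ := hG.dir hp d1
    exact absurd d2 (e q (hG.sub f1).1 (hG.sub f1).2 f2 y (h.pair_mem.1 d3).2 s (hG.sub d1).1
      (hG.sub d1).2 f3)

theorem Gen.isGB (hG : h.Gen G) : IsGB (h.S.ext G) where
  trans := hG.good.trans
  sub C hC := by
    obtain ⟨U, hU, rfl⟩ := (cls_iff hG).1 hC
    exact hG.sets ▸ hU.1.sub hG
  univ := hG.good.univ
  pairing := hG.good.pairing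
  union := hG.sets ▸ h.isGB.union
  power := hG.sets ▸ h.isGB.power
  infinity := hG.sets ▸ h.isGB.infinity
  separation := hG.good.sep_of_repl (hG.sets ▸ hG.repl)
  replacement := hG.sets ▸ hG.repl
  comprehension := hG.good.comp

/-! forcing relations -/

noncomputable def cmp (i : ℕ) (s : V) : V := fst (snd^[i] s)

theorem proj_empty : fst ∅ = ∅ ∧ snd ∅ = ∅ := by
  rcases proj_cases ∅ with ⟨x, y, e⟩ | H
  · have : ({x} : V) ∈ pair x y := by simp [pair]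
    rw [← e] at this
    simp at this
  · exact H.2

theorem cmp_foldr : ∀ (i : ℕ) (l : List V), cmp i (l.foldr pair ∅) = l.getD i ∅
  | 0, [] => proj_empty.1
  | 0, _ :: _ => by simp [cmp]
  | i + 1, [] => by
      have := cmp_foldr i []
      simpa [cmp, Function.iterate_succ_apply, proj_empty.2] using this
  | i + 1, a :: l => by
      have := cmp_foldr i l
      simpa [cmp, Function.iterate_succ_apply] using this

theorem cmp_def {α : Type 1} {Γ : Ctx α} : ∀ (i : ℕ) {t : α → V}, DefF Γ t →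
    DefF Γ fun a => cmp i (t a)
  | 0, _, ht => ht.fst
  | i + 1, _, ht => cmp_def i ht.snd

theorem tup_cls : ∀ n : ℕ, {s | ∃ l : List V, l.length = n ∧ (∀ x ∈ l, h.S.HS x) ∧
    s = l.foldr pair ∅} ∈ h.M.cls
  | 0 => by
      refine Set.mem_of_eq_of_mem (Set.ext fun z => ?_)
        (h.good.cls (Φ := fun z => z = ∅) (Def.eq DefF.v0 DefF.emp))
      constructor
      · rintro ⟨l, h1, -, rfl⟩
        rw [List.length_eq_zero_iff.1 h1]
        exact ⟨h.M0_emp, rfl⟩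
      · rintro ⟨-, rfl⟩
        exact ⟨[], rfl, by simp, rfl⟩
  | n + 1 => by
      have ih := tup_cls n
      refine Set.mem_of_eq_of_mem (Set.ext fun z => ?_)
        (h.good.cls2 ((Def.eq DefF.v0 (DefF.v0.fst.pair DefF.v0.snd)).and
          ((Def.inC DefF.v0.fst (h.good.cC h.name_cls).wkc).and
            (Def.inC DefF.v0.snd (h.good.cC ih).wkc))))
      constructor
      · rintro ⟨_ | ⟨a, l⟩, h1, h2, rfl⟩
        · simp at h1
        · have a1 := hs_iff.1 (h2 a List.mem_cons_self)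
          have a2 : l.foldr pair ∅ ∈ {s | ∃ l : List V, l.length = n ∧ (∀ x ∈ l, h.S.HS x) ∧
              s = l.foldr pair ∅} :=
            ⟨l, by simpa using h1, fun x hx => h2 x (List.mem_cons_of_mem _ hx), rfl⟩
          exact ⟨h.pair_mem.2 ⟨a1.1, h.cls_sub ih a2⟩, by simp, by simpa using a1,
            by simpa using a2⟩
      · rintro ⟨-, a1, a2, l, b1, b2, b3⟩
        refine ⟨fst z :: l, by simp [b1], fun x hx => ?_, by rw [List.foldr_cons, ← b3, ← a1]⟩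
        rcases List.mem_cons.1 hx with rfl | hx
        · exact hs_iff.2 a2
        · exact b2 x hx

theorem admits : h.S.Admits := by
  intro φ n Γ hΓ
  obtain ⟨W, hW, H⟩ := (Rep.of_def (h := h) (Φ := fun G s => Sat h.M0 (fun k => valC G (Γ k)) φ
    fun i => val G (cmp i s)) (sat_def φ (Δ := h.rep.ext) (e := fun i p => val p.1 (cmp i p.2))
      (c := fun k p => valC p.1 (Γ k)) (fun i => RL.base.ext.val (cmp_def i DefF.v0))
      fun k => (rep_valC (hΓ k).1).defC.wk)).forces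
  have ht := tup_cls (h := h) n
  refine Set.mem_of_eq_of_mem (Set.ext fun z => ?_)
    (h.good.cls2 ((Def.eq DefF.v0 (DefF.v0.fst.pair DefF.v0.snd)).and
      ((Def.inC DefF.v0 (h.good.cC hW).wkc).and (Def.inC DefF.v0.snd (h.good.cC ht).wkc))))
  constructor
  · rintro ⟨p, hp, l, a1, a2, rfl, a3⟩
    have b1 := h.cls_sub ht ⟨l, a1, a2, rfl⟩
    refine ⟨h.pair_mem.2 ⟨hp.1, b1⟩, by simp, (H _ _).2 ⟨hp, fun G hG hp => ⟨b1, ?_⟩⟩,
      l, a1, a2, by simp⟩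
    simp only [cmp_foldr]
    exact hG.sets ▸ a3 G hG hp
  · rintro ⟨-, a1, a2, l, b1, b2, b3⟩
    rw [a1, b3, H] at a2
    refine ⟨fst z, a2.1, l, b1, b2, by rw [← b3, ← a1], fun G hG hp => ?_⟩
    have := (a2.2 G hG hp).2
    simp only [cmp_foldr] at this
    exact (Gen.sets hG).symm ▸ this

theorem truth : h.S.Truth := by
  intro φ σ Γ hσ hΓ G hG H
  obtain ⟨p, a1, a2⟩ := sem_truth (h := h)
    (Φ := fun G => Sat h.M0 (fun k => valC G (Γ k)) φ fun i => val G (σ i))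
    (sat_def φ (Δ := h.rep) (e := fun i G => val G (σ i)) (c := fun k G => valC G (Γ k))
      (fun i => RL.base.val (rF (hs_iff.1 (hσ i)).1)) fun k => (rep_valC (hΓ k).1).defC) hG
    (Gen.sets hG ▸ H)
  exact ⟨p, a1, fun G' hG' hp => (Gen.sets hG').symm ▸ a2 G' hG' hp⟩

/-! no class of the symmetric extension has all rows as sections -/

noncomputable def c1 (β ξ : V) : V := pair {pair β ξ} {pair β ξ}

theorem c1_def {α : Type 1} {Γ : Ctx α} {s t : α → V} (hs : DefF Γ s) (ht : DefF Γ t) :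
    DefF Γ fun a => c1 (s a) (t a) := (hs.pair ht).sing.pair (hs.pair ht).sing

theorem c1_mem {β ξ : V} (hβ : β ∈ h.M0) (hξ : ξ ∈ h.M0) : c1 β ξ ∈ h.P :=
  ⟨(c1_def (h.good.cF hβ) (h.good.cF hξ)).1 ⟨⟩ trivial, IsP.mk' fun _ H => H⟩

theorem Gen.row (hG : h.Gen G) {β : V} (hβ : β ∈ h.M0) :
    {ξ | ξ ∈ h.M0 ∧ c1 β ξ ∈ G} ∈ (h.S.ext G).cls := by
  refine (cls_iff hG).2 ⟨fun G => {ξ | ξ ∈ h.M0 ∧ c1 β ξ ∈ G},
    ⟨Rep.of_def (Def.inC (c1_def (rF hβ).wkc DefF.v0) rG.wk), {β}, h.sing_mem hβ,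
      fun a ha Ha G _ => Set.ext fun ξ => and_congr_right fun hξ => ?_⟩, rfl⟩
  rw [mem_aut_image, aut_P ha (c1_mem hβ hξ), flip_fix (c1_mem hβ hξ).2]
  intro c hc H
  simp only [c1, fst_pair, mem_singleton] at H
  subst H
  exact Ha _ hc ⟨Or.inr ⟨by simp, by simp⟩⟩

theorem Gen.no_row (hG : h.Gen G) {A : Set V} (hA : A ∈ (h.S.ext G).cls) : ∃ β ∈ h.M0,
    ∀ q ∈ h.M0, ¬ ∀ ξ ∈ h.M0, (pair q (c1 β ξ) ∈ A ↔ c1 β ξ ∈ G) := by
  obtain ⟨U, ⟨hU, E, hE, hI⟩, rfl⟩ := (cls_iff hG).1 hA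
  refine ⟨E, hE, fun q hq H => ?_⟩
  obtain ⟨p, a1, a2⟩ := sem_truth (h := h)
    (Φ := fun G => ∀ ξ ∈ h.M0, (pair q (c1 E ξ) ∈ U G ↔ c1 E ξ ∈ G))
    (Def.all ((Def.inC ((rF hq).wkc.pair (c1_def (rF hE).wkc DefF.v0)) hU.defC.wk).iff
      (Def.inC (c1_def (rF hE).wkc DefF.v0) rG.wk))) hG H
  have hu := h.union_mem (h.fst_mem (hG.sub a1).1) hE
  obtain ⟨u, e, hu⟩ : ∃ u : V, (∀ c, c ∈ u ↔ c ∈ fst p ∨ c ∈ E) ∧ u ∈ h.M0 :=
    ⟨_, fun _ => mem_union, hu⟩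
  have hx : pair E u ∉ u := fun H => lt_irrefl _
    ((rank_lt_of_mem (show u ∈ ({E, u} : V) by simp)).trans
      ((rank_lt_of_mem (show ({E, u} : V) ∈ pair E u by simp [pair])).trans (rank_lt_of_mem H)))
  have hxM : pair E u ∈ h.M0 := h.pair_mem.2 ⟨hE, hu⟩
  have ha := h.sing_mem hxM
  have hav : ∀ c ∈ ({pair E u} : V), ¬ Prot E c := by
    intro c hc H
    obtain rfl := mem_singleton.1 hc
    rcases H.out with H | H
    · exact hx ((e _).2 (Or.inr H))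
    · exact mem_irrefl E (by simpa using H.2)
  have hp : h.aut {pair E u} p = p := by
    rw [aut_P ha (hG.sub a1), flip_fix (hG.sub a1).2]
    intro c hc H
    obtain rfl := mem_singleton.1 hc
    exact hx ((e _).2 (Or.inl H))
  have b1 := a2 _ (hG.image ha) ⟨p, a1, hp⟩ u hu
  rw [hI _ ha hav G hG, H u hu, mem_aut_image, aut_P ha (c1_mem hE hu)] at b1
  have b2 : ¬ (c1 E u ∈ G ∧ flip {pair E u} (c1 E u) ∈ G) := by
    rintro ⟨d1, d2⟩
    obtain ⟨r, -, d3, d4⟩ := hG.dir d1 d2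
    have d5 := (d3.out (pair E u) (by simp [c1])).2
    have d6 := (d4.out (pair E u) (by simp [c1])).2
    simp [c1, mem_snd_flip] at d5 d6
    exact d6 d5
  obtain ⟨r, d1, d2⟩ := hG.big ha
  have d3 : pair E u ∈ fst r := d2 (mem_singleton.2 rfl)
  by_cases d4 : pair E u ∈ snd r
  · have : c1 E u ∈ G := hG.up d1 (c1_mem hE hu) ⟨fun c hc => by
      simp only [c1, fst_pair, snd_pair, mem_singleton] at hc ⊢
      subst hc
      simp [d3, d4]⟩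
    exact b2 ⟨this, b1.1 this⟩
  · have : flip {pair E u} (c1 E u) ∈ G := hG.up d1 (h.flip_mem ha (c1_mem hE hu).1)
      ⟨fun c hc => by
        simp only [c1, fst_flip, mem_snd_flip, fst_pair, snd_pair, mem_singleton] at hc ⊢
        subst hc
        simp [d3, d4]⟩
    exact b2 ⟨b1.2 this, this⟩

end Hull

end Pool.Agent.Lib.MP_76c2e0_lc
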