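import Pool.Agent.Lib.MP_76c2e0_lc.Hull
import Pool.Agent.Lib.MP_76c2e0_lc.Cond

namespace Pool.Agent.Lib.MP_76c2e0_lc

open ZFSet

namespace Hull
variable (h : Hull)

theorem cls_sub {A : Set V} (hA : A ∈ h.M.cls) : A ⊆ h.M0 := by
  obtain ⟨Y, -, rfl⟩ := hA
  rintro _ ⟨x, hx, rfl⟩
  exact ⟨x, hx.2, rfl⟩

theorem M0_cls : h.M0 ∈ h.M.cls := by
  obtain ⟨F, hF, H⟩ := h.sk2 (Φ := fun b F => ∀ x ∈ h.dm b, x ∈ F)
    (Def.all (Def.inC DefF.v0 DefC.c0.wk)) ⟨Set.univ, fun _ _ => trivial⟩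
  exact (Set.Subset.antisymm (h.cls_sub hF) H) ▸ hF

theorem good : Good h.M := by
  refine ⟨h.M0_trans, h.M0_pair, h.M0_emp, h.M0_cls, fun φ v C hv hC => ?_⟩
  choose e he1 he2 using fun n => h.exT (hv n)
  choose c hc1 hc2 hc3 using fun n => h.exK (hC n)
  have h1 := sat_def φ (Δ := h.tr.extC.ext) (e := cons Prod.snd fun n p => e n p.1.1)
    (c := fun n p => c n p.1.1) (fun n => by
      cases n
      · exact DefF.v0
      · exact (he1 _).wkC.wk) fun n => (hc1 n).wkC.wk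
  have h2 : ∀ (b : Side) (F : Set V) (x : V),
      (fun n => cons Prod.snd (fun n (p : (Side × Set V) × V) => e n p.1.1) n ((b, F), x)) =
        cons x fun n => e n b := fun b F x => funext fun n => by cases n <;> rfl
  obtain ⟨F, hF, H⟩ := h.sk2 (Φ := fun b F => ∀ x ∈ h.dm b,
      (x ∈ F ↔ Sat (h.dm b) (fun n => c n b) φ (cons x fun n => e n b)))
    (Def.all ((Def.inC DefF.v0 DefC.c0.wk).iff (h1.congr fun p _ => by
      rw [← h2 p.1.1 p.1.2 p.2]; rfl)))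
    ⟨{x | Sat Set.univ (fun n => c n .up) φ (cons x fun n => e n .up)}, fun _ _ => Iff.rfl⟩
  simp only [he2, hc3] at H
  refine Set.mem_of_eq_of_mem (Eq.symm (Set.ext fun x => ?_)) hF
  exact ⟨fun hx => ⟨h.cls_sub hF hx, (H x (h.cls_sub hF hx)).1 hx⟩, fun hx => (H x hx.1).2 hx.2⟩

theorem pair_mem {x y : V} : pair x y ∈ h.M0 ↔ x ∈ h.M0 ∧ y ∈ h.M0 := h.good.pair_mem

theorem fst_mem {x : V} (hx : x ∈ h.M0) : fst x ∈ h.M0 := (h.good.cF hx).fst.1 ⟨⟩ trivial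
theorem snd_mem {x : V} (hx : x ∈ h.M0) : snd x ∈ h.M0 := (h.good.cF hx).snd.1 ⟨⟩ trivial
theorem sing_mem {x : V} (hx : x ∈ h.M0) : ({x} : V) ∈ h.M0 := (h.good.cF hx).sing.1 ⟨⟩ trivial

theorem sUnion_mem : ∀ x ∈ h.M0, sUnion x ∈ h.M0 := by
  have H : Def h.tr fun b => ∀ x ∈ h.dm b, ∃ y ∈ h.dm b, ∀ z ∈ h.dm b,
      (z ∈ y ↔ ∃ u ∈ x, z ∈ u) := by
    apply_rules (maxDepth := 200) [Def.all, Def.ex, Def.bex, Def.iff, Def.mem, DefF.v0, DefF.v1,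
      DefF.v2]
  intro x hx
  obtain ⟨y, hy, H⟩ := (h.elem H).1 (fun x _ => ⟨sUnion x, trivial, fun z _ => mem_sUnion⟩) x hx
  refine Set.mem_of_eq_of_mem (Eq.symm (ZFSet.ext fun z => ?_)) hy
  rw [mem_sUnion]
  exact ⟨fun hz => (H z (h.M0_trans _ hy _ hz)).1 hz, fun ⟨u, h1, h2⟩ =>
    (H z (h.M0_trans _ (h.M0_trans _ hx _ h1) _ h2)).2 ⟨u, h1, h2⟩⟩

theorem union_mem {x y : V} (hx : x ∈ h.M0) (hy : y ∈ h.M0) : x ∪ y ∈ h.M0 :=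
  h.sUnion_mem _ (h.M0_pair x hx y hy)

theorem repl : ∀ F ∈ h.M.cls, (∀ x y y', pair x y ∈ F → pair x y' ∈ F → y = y') →
    ∀ a ∈ h.M0, ∃ b ∈ h.M0, ∀ y, y ∈ b ↔ ∃ x ∈ a, pair x y ∈ F := by
  intro F hF hf a ha
  obtain ⟨c, hc, -, rfl⟩ := h.exK hF
  have H : Def h.tr fun b => (∀ x ∈ h.dm b, ∀ y ∈ h.dm b, ∀ y' ∈ h.dm b,
      pair x y ∈ c b → pair x y' ∈ c b → y = y') →
      ∀ a ∈ h.dm b, ∃ u ∈ h.dm b, ∀ y ∈ h.dm b, y ∈ u ↔ ∃ x ∈ a, pair x y ∈ c b := by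
    have h3 := hc.wk.wk.wk
    have h4 := h3.wk
    apply_rules (maxDepth := 200) [Def.imp, Def.all, Def.ex, Def.bex, Def.iff, Def.mem, Def.eq,
      Def.inC, DefF.pair, DefF.v0, DefF.v1, DefF.v2]
  obtain ⟨b, hb, H⟩ := (h.elem H).1 (fun hf a _ => by
    refine ⟨range fun x : {x : a // ∃ y, pair x.1 y ∈ c .up} => x.2.choose, trivial,
      fun y _ => ?_⟩
    rw [mem_range]
    constructor
    · rintro ⟨x, rfl⟩
      exact ⟨x.1.1, x.1.2, x.2.choose_spec⟩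
    · rintro ⟨x, h1, h2⟩
      exact ⟨⟨⟨x, h1⟩, y, h2⟩, hf x trivial _ trivial _ trivial
        (Exists.choose_spec (⟨y, h2⟩ : ∃ y, pair x y ∈ c .up)) h2⟩)
    (fun x _ y _ y' _ => hf x y y') a ha
  exact ⟨b, hb, fun y => ⟨fun hy => (H y (h.M0_trans _ hb _ hy)).1 hy, fun ⟨x, h1, h2⟩ =>
    (H y (h.pair_mem.1 (h.cls_sub hF h2)).2).2 ⟨x, h1, h2⟩⟩⟩

end Hull

theorem Good.sep_of_repl {N : Mdl} (h : Good N)
    (repl : ∀ F ∈ N.cls, (∀ x y y', pair x y ∈ F → pair x y' ∈ F → y = y') →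
      ∀ a ∈ N.sets, ∃ b ∈ N.sets, ∀ y, y ∈ b ↔ ∃ x ∈ a, pair x y ∈ F) :
    ∀ C ∈ N.cls, ∀ a ∈ N.sets, ∃ b ∈ N.sets, ∀ y, y ∈ b ↔ y ∈ a ∧ y ∈ C := by
  intro C hC a ha
  have hF := h.cls (Φ := fun z => fst z ∈ C ∧ snd z = fst z)
    ((Def.inC DefF.v0.fst (h.cC hC).wkc).and (Def.eq DefF.v0.snd DefF.v0.fst))
  obtain ⟨b, hb, H⟩ := repl _ hF (fun x y y' h1 h2 => by
    have a1 := h1.2.2
    have a2 := h2.2.2
    simp only [fst_pair, snd_pair] at a1 a2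
    rw [a1, a2]) a ha
  refine ⟨b, hb, fun y => (H y).trans ⟨?_, fun hy => ⟨y, hy.1, ?_, by simpa using hy.2, by simp⟩⟩⟩
  · rintro ⟨x, h1, -, h2, h3⟩
    simp only [fst_pair, snd_pair] at h2 h3
    subst h3
    exact ⟨h1, h2⟩
  · exact h.pair_mem.2 ⟨h.trans _ ha _ hy.1, h.trans _ ha _ hy.1⟩

namespace Hull
variable (h : Hull)

theorem isGB : IsGB h.M where
  trans := h.M0_trans
  sub _ := h.cls_sub
  univ := h.M0_cls
  pairing := h.M0_pair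
  union := h.sUnion_mem
  power := by
    have H : Def h.tr fun b => ∀ x ∈ h.dm b, ∃ y ∈ h.dm b, ∀ z ∈ h.dm b, (z ∈ y ↔ z ⊆ x) := by
      apply_rules (maxDepth := 200) [Def.all, Def.ex, Def.iff, Def.mem, Def.sub, DefF.v0, DefF.v1,
        DefF.v2]
    exact (h.elem H).1 fun x _ => ⟨powerset x, trivial, fun z _ => mem_powerset⟩
  infinity := by
    have H : Def h.tr fun b => ∃ w ∈ h.dm b, ∅ ∈ w ∧ ∀ x ∈ w, ∃ y ∈ w, ∀ z ∈ h.dm b,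
        (z ∈ y ↔ z = x ∨ z ∈ x) := by
      apply_rules (maxDepth := 200) [Def.all, Def.ex, Def.ball, Def.bex, Def.and, Def.or, Def.iff,
        Def.mem, Def.eq, DefF.v0, DefF.v1, DefF.v2, DefF.emp]
    obtain ⟨w, hw, h1, h2⟩ := (h.elem H).1 ⟨omega, trivial, omega_zero, fun x hx =>
      ⟨_, omega_succ hx, fun z _ => mem_insert_iff⟩⟩
    refine ⟨w, hw, h1, fun x hx => ?_⟩
    obtain ⟨y, hy, H⟩ := h2 x hx
    have hx' := h.M0_trans _ hw _ hx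
    refine Set.mem_of_eq_of_mem (Eq.symm (ZFSet.ext fun z => ?_)) hy
    rw [mem_insert_iff]
    exact ⟨fun hz => (H z (h.M0_trans _ (h.M0_trans _ hw _ hy) _ hz)).1 hz, fun hz =>
      (H z (hz.elim (fun e => e ▸ hx') (h.M0_trans _ hx' _))).2 hz⟩
  separation := h.good.sep_of_repl h.repl
  replacement := h.repl
  comprehension := h.good.comp

theorem sep_mem {Φ : V → Prop} (H : Def h.good.fix.ext fun p => Φ p.2) {a : V} (ha : a ∈ h.M0) :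
    a.sep Φ ∈ h.M0 := by
  obtain ⟨b, hb, H⟩ := h.isGB.separation _ (h.good.cls H) a ha
  refine Set.mem_of_eq_of_mem (Eq.symm (ZFSet.ext fun z => ?_)) hb
  rw [H, mem_sep]
  exact and_congr_right fun hz => ⟨fun a => a.2, fun a => ⟨h.M0_trans _ ha _ hz, a⟩⟩

theorem trcl : ∀ x ∈ h.M0, ∃ t ∈ h.M0, x ∈ t ∧ ∀ y ∈ t, ∀ z ∈ y, z ∈ t := by
  have H : Def h.tr fun b => ∀ x ∈ h.dm b, ∃ t ∈ h.dm b, x ∈ t ∧ ∀ y ∈ t, ∀ z ∈ y, z ∈ t := by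
    apply_rules (maxDepth := 200) [Def.all, Def.ex, Def.ball, Def.and, Def.mem, DefF.v0, DefF.v1,
      DefF.v2]
  exact (h.elem H).1 fun x _ => ⟨_, trivial, mem_vonNeumann_succ x,
    fun y hy z hz => isTransitive_vonNeumann _ y hy hz⟩

theorem distribM {D : Set V} (hD : D ∈ h.M.cls) : ∀ a ∈ h.M0,
    (∀ x ∈ a, ∀ p ∈ h.M0, IsP p → ∃ q ∈ h.M0, IsP q ∧ Le q p ∧ pair x q ∈ D) →
    (∀ x ∈ a, ∀ q ∈ h.M0, IsP q → ∀ r ∈ h.M0, IsP r → Le r q → pair x q ∈ D → pair x r ∈ D) →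
    ∀ p ∈ h.M0, IsP p → ∃ q ∈ h.M0, IsP q ∧ Le q p ∧ ∀ x ∈ a, pair x q ∈ D := by
  obtain ⟨c, hc, -, rfl⟩ := h.exK hD
  have H : Def h.tr fun b => ∀ a ∈ h.dm b,
      (∀ x ∈ a, ∀ p ∈ h.dm b, IsP p → ∃ q ∈ h.dm b, IsP q ∧ Le q p ∧ pair x q ∈ c b) →
      (∀ x ∈ a, ∀ q ∈ h.dm b, IsP q → ∀ r ∈ h.dm b, IsP r → Le r q → pair x q ∈ c b →
        pair x r ∈ c b) →
      ∀ p ∈ h.dm b, IsP p → ∃ q ∈ h.dm b, IsP q ∧ Le q p ∧ ∀ x ∈ a, pair x q ∈ c b := by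
    have h4 := hc.wk.wk.wk.wk
    apply_rules (maxDepth := 400) [Def.imp, Def.all, Def.ex, Def.ball, Def.and, Def.isP, Def.le,
      Def.inC, DefF.pair, DefF.v0, DefF.v1, DefF.v2, DefF.v3]
  refine (h.elem H).1 fun a _ h1 h2 p _ hp => ?_
  obtain ⟨q, hq⟩ := distrib a (c .up)
    (fun x hx p hp => let ⟨q, _, h⟩ := h1 x hx p trivial hp; ⟨q, h⟩)
    (fun x hx q hq r hr => h2 x hx q trivial hq r trivial hr) p hp
  exact ⟨q, trivial, hq⟩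

theorem graph_rec (f : V → V → V) (A : V → V → V → Prop) (g : V → V)
    (hf : ∀ s x w, w ∈ f s x ↔ ∃ y, A s x y ∧ w = g (f s y))
    (h1 : ∀ s x y, A s x y → y.rank < x.rank) (h2 : ∀ s, ∀ x ∈ h.M0, ∀ y, A s x y → y ∈ h.M0)
    (h3 : ∀ {α : Type 1} {Γ : Ctx α} {s x y : α → V}, DefF Γ s → DefF Γ x → DefF Γ y →
      Def Γ fun a => A (s a) (x a) (y a))
    (h4 : ∀ {α : Type 1} {Γ : Ctx α} {s : α → V}, DefF Γ s → DefF Γ fun a => g (s a)) :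
    ∃ F ∈ h.M.cls, ∀ s ∈ h.M0, ∀ x ∈ h.M0, f s x ∈ h.M0 ∧
      ∀ z, pair (pair s x) z ∈ F ↔ z = f s x := by
  have hc := DefC.c0 (Γ := h.tr)
  have H : Def h.tr.extC fun p => ∀ s ∈ h.dm p.1, ∀ x ∈ h.dm p.1,
      (∃ z ∈ h.dm p.1, pair (pair s x) z ∈ p.2) ∧ ∀ z ∈ h.dm p.1, pair (pair s x) z ∈ p.2 →
        ∀ w ∈ h.dm p.1, (w ∈ z ↔ ∃ y ∈ h.dm p.1, A s x y ∧ ∃ u ∈ h.dm p.1,
          pair (pair s y) u ∈ p.2 ∧ w = g u) := by
    have a3 := hc.wk.wk.wk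
    have a6 := a3.wk.wk.wk
    refine Def.all (Def.all (Def.and (Def.ex (Def.inC ((DefF.v2.pair DefF.v1).pair DefF.v0) a3))
      (Def.all (Def.imp (Def.inC ((DefF.v2.pair DefF.v1).pair DefF.v0) a3) (Def.all
        (Def.iff (Def.mem DefF.v0 DefF.v1) (Def.ex (Def.and (h3 DefF.v4 DefF.v3 DefF.v0)
          (Def.ex (Def.and (Def.inC ((DefF.v5.pair DefF.v1).pair DefF.v0) a6)
            (Def.eq DefF.v2 (h4 DefF.v0))))))))))))
  obtain ⟨F, hF, H⟩ := h.sk2 (Φ := fun b F => ∀ s ∈ h.dm b, ∀ x ∈ h.dm b,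
      (∃ z ∈ h.dm b, pair (pair s x) z ∈ F) ∧ ∀ z ∈ h.dm b, pair (pair s x) z ∈ F →
        ∀ w ∈ h.dm b, (w ∈ z ↔ ∃ y ∈ h.dm b, A s x y ∧ ∃ u ∈ h.dm b,
          pair (pair s y) u ∈ F ∧ w = g u)) H
    ⟨{t | snd t = f (fst (fst t)) (snd (fst t))}, fun s _ x _ => by
      refine ⟨⟨f s x, trivial, by simp⟩, fun z _ hz w _ => ?_⟩
      simp only [Set.mem_ofPred_eq, fst_pair, snd_pair] at hz ⊢
      rw [hz, hf]
      exact ⟨fun ⟨y, a1, a2⟩ => ⟨y, trivial, a1, _, trivial, rfl, a2⟩,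
        fun ⟨y, _, a1, u, _, a2, a3⟩ => ⟨y, a1, a2 ▸ a3⟩⟩⟩
  refine ⟨F, hF, fun s hs x => ?_⟩
  induction hx : x.rank using WellFoundedLT.induction generalizing x with
  | ind o ih =>
    intro hxM
    have key : ∀ z, pair (pair s x) z ∈ F → z = f s x := by
      intro z hz
      have hz' := (h.pair_mem.1 (h.cls_sub hF hz)).2
      ext w
      rw [hf]
      constructor
      · intro hw
        obtain ⟨y, a1, a2, u, a3, a4, a5⟩ := ((H s hs x hxM).2 z hz' hz w (h.M0_trans _ hz' _ hw)).1 hw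
        exact ⟨y, a2, ((ih _ (hx ▸ h1 s x y a2) y rfl a1).2 u).1 a4 ▸ a5⟩
      · rintro ⟨y, a2, rfl⟩
        have a1 := h2 s x hxM y a2
        have := ih _ (hx ▸ h1 s x y a2) y rfl a1
        exact ((H s hs x hxM).2 z hz' hz _ ((h4 (h.good.cF this.1)).1 ⟨⟩ trivial)).2
          ⟨y, a1, a2, _, this.1, (this.2 _).2 rfl, rfl⟩
    obtain ⟨z, a1, a2⟩ := (H s hs x hxM).1
    obtain rfl := key z a2
    exact ⟨a1, fun z => ⟨key z, fun e => e ▸ a2⟩⟩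

theorem chk_graph : ∃ F ∈ h.M.cls, ∀ s ∈ h.M0, ∀ x ∈ h.M0, chk x ∈ h.M0 ∧
    ∀ z, pair (pair s x) z ∈ F ↔ z = chk x :=
  h.graph_rec (fun _ x => chk x) (fun _ x y => y ∈ x) (fun u => pair u top)
    (fun _ _ _ => mem_chk) (fun _ _ _ => rank_lt_of_mem) (fun _ => h.M0_trans)
    (fun _ hx hy => Def.mem hy hx) fun hs => hs.pair (DefF.emp.pair DefF.emp)

theorem val_graph : ∃ F ∈ h.M.cls, ∀ s ∈ h.M0, ∀ x ∈ h.M0, val (up s) x ∈ h.M0 ∧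
    ∀ z, pair (pair s x) z ∈ F ↔ z = val (up s) x := by
  refine h.graph_rec (fun s x => val (up s) x)
    (fun s x y => ∃ u ∈ x, u = pair y (snd u) ∧ IsP (snd u) ∧ Le s (snd u)) (fun u => u)
    (fun s x w => ?_) (fun _ _ _ ⟨u, a1, a2, _⟩ => rank_lt_of_pair (a2 ▸ a1))
    (fun _ x hx y ⟨u, a1, a2, _⟩ => (h.pair_mem.1 (a2 ▸ h.M0_trans _ hx _ a1)).1)
    (fun hs hx hy => Def.bex hx ((Def.eq DefF.v0 (hy.wk.pair DefF.v0.snd)).and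
      ((Def.isP DefF.v0.snd).and (Def.le hs.wk DefF.v0.snd)))) fun hs => hs
  rw [mem_val]
  constructor
  · rintro ⟨y, p, a1, a2, a3⟩
    exact ⟨y, ⟨_, a2, by simp, by simpa using a1.1, by simpa using a1.2⟩, a3⟩
  · rintro ⟨y, ⟨u, a1, a2, a3⟩, a4⟩
    exact ⟨y, snd u, a3, a2 ▸ a1, a4⟩

def P : Set V := {p | p ∈ h.M0 ∧ IsP p}

theorem name_cls : {x | x ∈ h.M0 ∧ IsName h.P x} ∈ h.M.cls := by
  have hc := DefC.c0 (Γ := h.tr)
  obtain ⟨F, hF, H⟩ := h.sk2 (Φ := fun b F => ∀ x ∈ h.dm b,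
      (x ∈ F ↔ ∀ z ∈ x, z = pair (fst z) (snd z) ∧ IsP (snd z) ∧ fst z ∈ F))
    (Def.all ((Def.inC DefF.v0 hc.wk).iff (Def.ball DefF.v0
      ((Def.eq DefF.v0 (DefF.v0.fst.pair DefF.v0.snd)).and ((Def.isP DefF.v0.snd).and
        (Def.inC DefF.v0.fst hc.wk.wk))))))
    ⟨{x | IsName {p | IsP p} x}, fun x _ => by
      constructor
      · rintro ⟨_, a1, a2⟩ z hz
        obtain ⟨y, p, a3, rfl⟩ := a1 z hz
        exact ⟨by simp, by simpa using a3, by simpa using a2 y p hz⟩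
      · intro H
        exact ⟨x, fun z hz => ⟨_, _, (H z hz).2.1, (H z hz).1⟩,
          fun y p hy => by simpa using (H _ hy).2.2⟩⟩
  refine Set.mem_of_eq_of_mem (Eq.symm (Set.ext fun x => ?_)) hF
  induction x using pair_ind with
  | h x ih =>
    constructor
    · intro hx
      have hx' := h.cls_sub hF hx
      have := (H x hx').1 hx
      exact ⟨hx', x, fun z hz => ⟨_, _, ⟨h.snd_mem (h.M0_trans _ hx' _ hz), (this z hz).2.1⟩,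
        (this z hz).1⟩, fun y p hy => ((ih y p hy).1 (by simpa using (this _ hy).2.2)).2⟩
    · rintro ⟨hx, _, a1, a2⟩
      refine (H x hx).2 fun z hz => ?_
      obtain ⟨y, p, a3, rfl⟩ := a1 z hz
      refine ⟨by simp, by simpa using a3.2, ?_⟩
      rw [fst_pair]
      exact (ih y p hz).2 ⟨(h.pair_mem.1 (h.M0_trans _ hx _ hz)).1, a2 y p hz⟩

theorem etr_frc (φ : Fm) (v : ℕ → V) (R : ℕ → Set V) (hv : ∀ n, v n ∈ h.M0)
    (hR : ∀ n, R n ∈ h.M.cls) : ∃ W ∈ h.M.cls, ∀ z ∈ h.M0, ∀ p ∈ h.M0, (pair p z ∈ W ↔ IsP p ∧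
      Frc h.M0 (cons {w | w ∈ W ∧ Low (snd w) z} R) φ (cons z v) p) := by
  choose e he1 he2 using fun n => h.exT (hv n)
  choose c hc1 hc2 hc3 using fun n => h.exK (hR n)
  have h1 := frc_def φ (Δ := h.tr.extC.ext.ext) (e := cons (fun p => p.1.2) fun n p => e n p.1.1.1)
    (c := cons (fun p => {w | w ∈ p.1.1.2 ∧ Low (snd w) p.1.2}) fun n p => c n p.1.1.1) (fun n => by
      cases n
      · exact DefF.v1
      · exact (he1 _).wkC.wk.wk) (fun n => by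
      cases n
      · exact DefC.of ((Def.inC DefF.v0 DefC.c0.wk.wk.wk).and (Def.low DefF.v0.snd DefF.v2))
      · exact (hc1 _).wkC.wk.wk) DefF.v0
  obtain ⟨W, hW, H⟩ := h.sk2 (Φ := fun b W => ∀ z ∈ h.dm b, ∀ p ∈ h.dm b, (pair p z ∈ W ↔ IsP p ∧
      Frc (h.dm b) (cons {w | w ∈ W ∧ Low (snd w) z} fun n => c n b) φ (cons z fun n => e n b) p))
    (Def.all (Def.all ((Def.inC (DefF.v0.pair DefF.v1) DefC.c0.wk.wk).iff
      ((Def.isP DefF.v0).and (h1.congr fun p _ => Iff.of_eq (by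
        congr 1
        · funext n; cases n <;> rfl
        · funext n; cases n <;> rfl))))))
    (let ⟨W, hW⟩ := exists_etr fun F z p => IsP p ∧
      Frc Set.univ (cons F fun n => c n .up) φ (cons z fun n => e n .up) p
    ⟨W, fun z _ p _ => hW z p⟩)
  simp only [he2, hc3] at H
  exact ⟨W, hW, H⟩

end Hull

end Pool.Agent.Lib.MP_76c2e0_lc
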