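import Pool.Agent.Lib.MP_76c2e0_lc.Calc

namespace Pool.Agent.Lib.MP_76c2e0_lc

open ZFSet

def Fm.bd : Fm → ℕ
  | .mem i j => i + j + 1
  | .eq i j => i + j + 1
  | .inC i k => i + k + 1
  | .not φ => φ.bd
  | .and φ ψ => φ.bd + ψ.bd
  | .all φ => φ.bd

theorem sat_congr (D : Set V) {C C' : ℕ → Set V} : ∀ (φ : Fm) {v v' : ℕ → V},
    (∀ n < φ.bd, v n = v' n) → (∀ n < φ.bd, C n = C' n) → (Sat D C φ v ↔ Sat D C' φ v')
  | .mem i j, v, v', h, _ => by
      simp only [Sat, Fm.bd] at h ⊢; rw [h i (by omega), h j (by omega)]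
  | .eq i j, v, v', h, _ => by
      simp only [Sat, Fm.bd] at h ⊢; rw [h i (by omega), h j (by omega)]
  | .inC i k, v, v', h, h' => by
      simp only [Sat, Fm.bd] at h h' ⊢; rw [h i (by omega), h' k (by omega)]
  | .not φ, _, _, h, h' => not_congr (sat_congr D φ h h')
  | .and φ ψ, _, _, h, h' =>
      and_congr (sat_congr D φ (fun n hn => h n (by simp only [Fm.bd]; omega))
        fun n hn => h' n (by simp only [Fm.bd]; omega))
        (sat_congr D ψ (fun n hn => h n (by simp only [Fm.bd]; omega))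
        fun n hn => h' n (by simp only [Fm.bd]; omega))
  | .all φ, v, v', h, h' => forall₂_congr fun x _ => sat_congr D φ (fun n hn => by
      cases n with
      | zero => rfl
      | succ n => exact h n (by simp only [Fm.bd]; omega)) h'

def Fm.code : Fm → ℕ
  | .mem i j => Nat.pair 0 (Nat.pair i j)
  | .eq i j => Nat.pair 1 (Nat.pair i j)
  | .inC i j => Nat.pair 2 (Nat.pair i j)
  | .not φ => Nat.pair 3 φ.code
  | .and φ ψ => Nat.pair 4 (Nat.pair φ.code ψ.code)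
  | .all φ => Nat.pair 5 φ.code

theorem Fm.code_inj : ∀ φ ψ : Fm, φ.code = ψ.code → φ = ψ := by
  intro φ
  induction φ with
  | mem i j => intro ψ h; cases ψ <;> simp_all [Fm.code, Nat.pair_eq_pair]
  | eq i j => intro ψ h; cases ψ <;> simp_all [Fm.code, Nat.pair_eq_pair]
  | inC i j => intro ψ h; cases ψ <;> simp_all [Fm.code, Nat.pair_eq_pair]
  | not φ ih =>
    intro ψ h
    cases ψ <;> simp [Fm.code, Nat.pair_eq_pair] at h
    rw [ih _ h]
  | and φ φ' ih ih' =>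
    intro ψ h
    cases ψ <;> simp [Fm.code, Nat.pair_eq_pair] at h
    rw [ih _ h.1, ih' _ h.2]
  | all φ ih =>
    intro ψ h
    cases ψ <;> simp [Fm.code, Nat.pair_eq_pair] at h
    rw [ih _ h]

instance : Countable Fm := ⟨⟨Fm.code, fun φ ψ h => Fm.code_inj φ ψ h⟩⟩

theorem exists_closed {W : Type 1} {ι : Type} [Countable ι] (f : ι → List W → W) :
    ∃ S : Set W, S.Countable ∧ ∀ i l, (∀ x ∈ l, x ∈ S) → f i l ∈ S := by
  obtain ⟨st, h0, hs⟩ : ∃ st : ℕ → Set W, st 0 = ∅ ∧ ∀ n : ℕ, st (n + 1) = st n ∪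
      Set.range fun p : ι × List ↥(st n) => f p.1 (List.map (Subtype.val : st n → W) p.2) :=
    ⟨fun n => Nat.rec (motive := fun _ => Set W) ∅ (fun _ (A : Set W) => A ∪
      Set.range fun p : ι × List ↥A => f p.1 (List.map (Subtype.val : A → W) p.2)) n,
      rfl, fun _ => rfl⟩
  have hc : ∀ n, (st n).Countable := by
    intro n
    induction n with
    | zero => rw [h0]; exact Set.countable_empty
    | succ n ih =>
      rw [hs]
      have : Countable ↥(st n) := ih.to_subtype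
      have : Countable (List ↥(st n)) := inferInstance
      exact ih.union (Set.countable_range _)
  have hm : Monotone st := monotone_nat_of_le_succ fun n => by
    rw [hs]; exact Set.subset_union_left
  refine ⟨⋃ n, st n, Set.countable_iUnion hc, fun i l hl => ?_⟩
  have : ∃ n, ∀ x ∈ l, x ∈ st n := by
    induction l with
    | nil => exact ⟨0, by simp⟩
    | cons a l ih =>
      obtain ⟨n, hn⟩ := ih fun x hx => hl x (List.mem_cons_of_mem _ hx)
      obtain ⟨m, hm'⟩ := Set.mem_iUnion.1 (hl a List.mem_cons_self)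
      refine ⟨max n m, fun x hx => ?_⟩
      rcases List.mem_cons.1 hx with rfl | hx
      · exact hm (le_max_right _ _) hm'
      · exact hm (le_max_left _ _) (hn x hx)
  obtain ⟨n, hn⟩ := this
  refine Set.mem_iUnion.2 ⟨n + 1, ?_⟩
  rw [hs]
  refine Or.inr ⟨(i, l.attach.map fun x => ⟨x.1, hn x.1 x.2⟩), ?_⟩
  simp [List.map_map, Function.comp_def]

structure Hull where
  X : Set V
  Y : Set (Set V)
  cX : X.Countable
  cY : Y.Countable
  neX : X.Nonempty
  neY : Y.Nonempty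
  tv : ∀ (φ : Fm) (v : ℕ → V) (C : ℕ → Set V), (∀ n, v n ∈ X) → (∀ n, C n ∈ Y) →
    (∃ x, Sat Set.univ C φ (cons x v)) → ∃ x ∈ X, Sat Set.univ C φ (cons x v)
  sk : ∀ (φ : Fm) (v : ℕ → V) (C : ℕ → Set V), (∀ n, v n ∈ X) → (∀ n, C n ∈ Y) →
    (∃ F, Sat Set.univ (cons F C) φ v) → ∃ F ∈ Y, Sat Set.univ (cons F C) φ v

theorem exists_hull : Nonempty Hull := by
  classical
  let d : V × Set V := (∅, ∅)
  let ev : List (V × Set V) → ℕ → V := fun l n => (l.getD (2 * n) d).1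
  let ec : List (V × Set V) → ℕ → Set V := fun l n => (l.getD (2 * n + 1) d).2
  let f : Fm → List (V × Set V) → V × Set V := fun φ l =>
    (Classical.epsilon fun x => Sat Set.univ (ec l) φ (cons x (ev l)),
      Classical.epsilon fun F => Sat Set.univ (cons F (ec l)) φ (ev l))
  obtain ⟨S, hS, hf⟩ := exists_closed f
  have key : ∀ (N : ℕ) (v : ℕ → V) (C : ℕ → Set V), (∀ n, v n ∈ Prod.fst '' S) →
      (∀ n, C n ∈ Prod.snd '' S) → ∃ l, (∀ x ∈ l, x ∈ S) ∧ (∀ n < N, v n = ev l n) ∧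
        ∀ n < N, C n = ec l n := by
    intro N v C hv hC
    choose a ha1 ha2 using hv
    choose b hb1 hb2 using hC
    refine ⟨(List.range (2 * N)).map fun n => if n % 2 = 0 then a (n / 2) else b (n / 2),
      ?_, fun n hn => ?_, fun n hn => ?_⟩
    · intro x hx
      obtain ⟨n, -, rfl⟩ := List.mem_map.1 hx
      split_ifs
      exacts [ha1 _, hb1 _]
    · have : 2 * n < 2 * N := by omega
      simp [ev, List.getD_eq_getElem?_getD, this, ha2]
    · have : 2 * n + 1 < 2 * N := by omega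
      have h2 : (2 * n + 1) / 2 = n := by omega
      simp [ec, List.getD_eq_getElem?_getD, this, hb2, h2]
  have h0 := hf (.eq 0 0) [] (by simp)
  refine ⟨⟨Prod.fst '' S, Prod.snd '' S, hS.image _, hS.image _, ⟨_, _, h0, rfl⟩, ⟨_, _, h0, rfl⟩,
    fun φ v C hv hC h => ?_, fun φ v C hv hC h => ?_⟩⟩
  · obtain ⟨l, hl, h1, h2⟩ := key φ.bd v C hv hC
    have e : ∀ x, Sat Set.univ C φ (cons x v) ↔ Sat Set.univ (ec l) φ (cons x (ev l)) := fun x =>
      sat_congr _ φ (fun n hn => by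
        cases n with
        | zero => rfl
        | succ n => exact h1 n (by omega)) h2
    simp only [e] at h ⊢
    exact ⟨_, ⟨_, hf φ l hl, rfl⟩, Classical.epsilon_spec h⟩
  · obtain ⟨l, hl, h1, h2⟩ := key φ.bd v C hv hC
    have e : ∀ F, Sat Set.univ (cons F C) φ v ↔ Sat Set.univ (cons F (ec l)) φ (ev l) := fun x =>
      sat_congr _ φ h1 (fun n hn => by
        cases n with
        | zero => rfl
        | succ n => exact h2 n (by omega))
    simp only [e] at h ⊢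
    exact ⟨_, ⟨_, hf φ l hl, rfl⟩, Classical.epsilon_spec h⟩

namespace Hull
variable (h : Hull)

noncomputable def col (x : V) : V := range fun y : {y : x // y.1 ∈ h.X} => col y.1.1
termination_by x.rank
decreasing_by exact rank_lt_of_mem y.1.2

theorem mem_col {x z : V} : z ∈ h.col x ↔ ∃ y ∈ x, y ∈ h.X ∧ h.col y = z := by
  rw [col, mem_range]
  exact ⟨fun ⟨⟨⟨y, h1⟩, h2⟩, h3⟩ => ⟨y, h1, h2, h3⟩, fun ⟨y, h1, h2, h3⟩ => ⟨⟨⟨y, h1⟩, h2⟩, h3⟩⟩

theorem tv0 (φ : Fm) {a b : V} (ha : a ∈ h.X) (hb : b ∈ h.X)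
    (H : ∃ x, ∀ C, Sat Set.univ C φ (cons x (cons a fun _ => b))) :
    ∃ x ∈ h.X, ∃ C, Sat Set.univ C φ (cons x (cons a fun _ => b)) := by
  obtain ⟨c, hc⟩ := h.neY
  obtain ⟨x, hx⟩ := H
  obtain ⟨x, h1, h2⟩ := h.tv φ (cons a fun _ => b) (fun _ => c) (fun n => by cases n <;> assumption)
    (fun _ => hc) ⟨x, hx _⟩
  exact ⟨x, h1, _, h2⟩

theorem ext_X {a b : V} (ha : a ∈ h.X) (hb : b ∈ h.X) (H : ∀ z ∈ h.X, z ∈ a → z ∈ b) : a ⊆ b := by
  intro z hz
  by_contra hn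
  obtain ⟨x, h1, C, h2⟩ := h.tv0 (.and (.mem 0 1) (.not (.mem 0 2))) ha hb ⟨z, fun _ => ⟨hz, hn⟩⟩
  exact h2.2 (H x h1 h2.1)

theorem col_inj : ∀ a, a ∈ h.X → ∀ b ∈ h.X, h.col a = h.col b → a = b := by
  intro a
  induction a using ZFSet.inductionOn with
  | h a ih =>
    intro ha b hb e
    refine subset_antisymm (h.ext_X ha hb fun z hz hza => ?_) (h.ext_X hb ha fun z hz hzb => ?_)
    · obtain ⟨y, h1, h2, h3⟩ := h.mem_col.1 (e ▸ h.mem_col.2 ⟨z, hza, hz, rfl⟩)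
      rw [ih z hza hz y h2 h3.symm]
      exact h1
    · obtain ⟨y, h1, h2, h3⟩ := h.mem_col.1 (e.symm ▸ h.mem_col.2 ⟨z, hzb, hz, rfl⟩)
      rw [← ih y h1 h2 z hz h3]
      exact h1

theorem col_mem {a b : V} (ha : a ∈ h.X) : h.col a ∈ h.col b ↔ a ∈ b :=
  ⟨fun H => let ⟨y, h1, h2, h3⟩ := h.mem_col.1 H; h.col_inj y h2 a ha h3 ▸ h1,
    fun H => h.mem_col.2 ⟨a, H, ha, rfl⟩⟩

def M0 : Set V := h.col '' h.X
def bar (Y : Set V) : Set V := h.col '' (Y ∩ h.X)

theorem col_bar {a : V} (ha : a ∈ h.X) {Y : Set V} : h.col a ∈ h.bar Y ↔ a ∈ Y :=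
  ⟨fun ⟨y, h1, h3⟩ => h.col_inj y h1.2 a ha h3 ▸ h1.1, fun H => ⟨a, ⟨H, ha⟩, rfl⟩⟩

theorem elem0 {C : ℕ → Set V} (hC : ∀ n, C n ∈ h.Y) : ∀ (φ : Fm) {v : ℕ → V}, (∀ n, v n ∈ h.X) →
    (Sat Set.univ C φ v ↔ Sat h.M0 (fun n => h.bar (C n)) φ fun n => h.col (v n))
  | .mem i _, _, hv => (h.col_mem (hv i)).symm
  | .eq i j, _, hv => ⟨fun e => congrArg h.col e, h.col_inj _ (hv i) _ (hv j)⟩
  | .inC i _, _, hv => (h.col_bar (hv i)).symm
  | .not φ, _, hv => not_congr (elem0 hC φ hv)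
  | .and φ ψ, _, hv => and_congr (elem0 hC φ hv) (elem0 hC ψ hv)
  | .all φ, v, hv => by
      have e : ∀ x ∈ h.X, (Sat Set.univ C φ (cons x v) ↔
          Sat h.M0 (fun n => h.bar (C n)) φ (cons (h.col x) fun n => h.col (v n))) := by
        intro x hx
        refine (elem0 hC φ (v := cons x v) fun n => by
          cases n
          · exact hx
          · exact hv _).trans (Iff.of_eq ?_)
        congr 1
        funext n
        cases n <;> rfl
      constructor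
      · rintro H _ ⟨x, hx, rfl⟩
        exact (e x hx).1 (H x trivial)
      · intro H x _
        by_contra hn
        obtain ⟨x, hx, h2⟩ := h.tv (.not φ) v C hv hC ⟨x, hn⟩
        exact h2 ((e x hx).2 (H _ ⟨x, hx, rfl⟩))

theorem M0_trans : ∀ x ∈ h.M0, ∀ y ∈ x, y ∈ h.M0 := by
  rintro _ ⟨x, -, rfl⟩ y hy
  obtain ⟨z, -, h2, h3⟩ := h.mem_col.1 hy
  exact ⟨z, h2, h3⟩

theorem M0_pair : ∀ x ∈ h.M0, ∀ y ∈ h.M0, ({x, y} : V) ∈ h.M0 := by
  rintro _ ⟨x, hx, rfl⟩ _ ⟨y, hy, rfl⟩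
  obtain ⟨z, h1, C, h2⟩ := h.tv0 (.and (.and (.mem 1 0) (.mem 2 0))
    (.all (.not (.and (.mem 0 1) (.and (.not (.eq 0 2)) (.not (.eq 0 3))))))) hx hy
    ⟨{x, y}, fun _ => by simp [Sat, cons]⟩
  simp only [Sat, cons] at h2
  refine ⟨z, h1, ?_⟩
  ext w
  rw [h.mem_col, mem_pair]
  constructor
  · rintro ⟨u, hu, -, rfl⟩
    have := h2.2 u trivial
    by_cases e : u = x
    · exact Or.inl (by rw [e])
    · exact Or.inr (by rw [show u = y by tauto])
  · rintro (rfl | rfl)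
    · exact ⟨x, h2.1.1, hx, rfl⟩
    · exact ⟨y, h2.1.2, hy, rfl⟩

theorem M0_emp : ∅ ∈ h.M0 := by
  obtain ⟨a, ha⟩ := h.neX
  obtain ⟨z, h1, C, h2⟩ := h.tv0 (.all (.not (.mem 0 1))) ha ha ⟨∅, fun _ => by simp [Sat, cons]⟩
  simp only [Sat, cons] at h2
  refine ⟨z, h1, (eq_empty _).2 fun w hw => ?_⟩
  obtain ⟨u, hu, -, -⟩ := h.mem_col.1 hw
  exact h2 u trivial hu

def M : Mdl := ⟨h.M0, h.bar '' h.Y⟩

end Hull

inductive Side : Type 1
  | up
  | dn

namespace Hull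
variable (h : Hull)

def dm : Side → Set V
  | .up => Set.univ
  | .dn => h.M0

def tr : Ctx Side where
  ok _ := True
  dom := h.dm
  T e := e .up ∈ h.X ∧ e .dn = h.col (e .up)
  K c := c .up ∈ h.Y ∧ c .dn = h.bar (c .up)
  tr a _ := by
    cases a
    · exact fun _ _ _ _ => trivial
    · exact h.M0_trans
  pr a _ := by
    cases a
    · exact fun _ _ _ _ => trivial
    · exact h.M0_pair
  emp a _ := by
    cases a
    · trivial
    · exact h.M0_emp
  T_mem t ht a _ := by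
    cases a
    · trivial
    · exact ⟨_, ht.1, ht.2.symm⟩
  T_ne := let ⟨a, ha⟩ := h.neX; ⟨fun s => Side.rec a (h.col a) s, ha, rfl⟩
  K_ne := let ⟨a, ha⟩ := h.neY; ⟨fun s => Side.rec a (h.bar a) s, ha, rfl⟩

theorem elem {Φ : Side → Prop} (H : Def h.tr Φ) : Φ .up ↔ Φ .dn := by
  obtain ⟨φ, e, c, h1, h2, h3⟩ := H
  rw [h3 .up trivial, h3 .dn trivial]
  refine (h.elem0 (fun n => (h2 n).1) φ fun n => (h1 n).1).trans (Iff.of_eq ?_)
  congr 1
  · funext n; exact (h2 n).2.symm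
  · funext n; exact (h1 n).2.symm

theorem exK {A : Set V} (hA : A ∈ h.M.cls) : ∃ c, DefC h.tr c ∧ h.tr.K c ∧ c .dn = A := by
  obtain ⟨Y, hY, rfl⟩ := hA
  have : h.tr.K fun s => Side.rec Y (h.bar Y) s := ⟨hY, rfl⟩
  exact ⟨_, DefC.of_K this, this, rfl⟩

theorem exT {a : V} (ha : a ∈ h.M0) : ∃ t, DefF h.tr t ∧ t .dn = a := by
  obtain ⟨x, hx, rfl⟩ := ha
  have : h.tr.T fun s => Side.rec x (h.col x) s := ⟨hx, rfl⟩
  exact ⟨_, DefF.of_T this, rfl⟩

theorem sk2 {Φ : Side → Set V → Prop} (H : Def h.tr.extC fun p => Φ p.1 p.2)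
    (hF : ∃ F, Φ .up F) : ∃ F ∈ h.M.cls, Φ .dn F := by
  classical
  obtain ⟨φ, e, c, h1, h2, h3⟩ := H
  obtain ⟨c0, hc0⟩ := h.tr.K_ne
  have h4 : ∀ n, ∃ d, h.tr.K d ∧ (c n ≠ Prod.snd → c n = fun p => d p.1) := fun n => by
    rcases h2 n with h | ⟨s, hs, h⟩
    · exact ⟨c0, hc0, fun h' => absurd h h'⟩
    · exact ⟨s, hs, fun _ => h⟩
  choose d hd1 hd2 using h4
  choose s hs1 hs2 using h1
  have key : ∀ b F, Φ b F ↔ Sat (h.dm b) (cons F fun n => d n b)
      (φ.ren (fun n => if c n = Prod.snd then 0 else n + 1) id) fun n => s n b := by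
    intro b F
    rw [sat_ren]
    refine (h3 (b, F) trivial).trans (Iff.of_eq ?_)
    congr 1
    · funext n
      by_cases h : c n = Prod.snd
      · rw [if_pos h, h]; rfl
      · rw [if_neg h, hd2 n h]; rfl
    · funext k; rw [hs2 k]; rfl
  simp only [key] at hF ⊢
  obtain ⟨F, hF1, hF2⟩ := h.sk _ _ _ (fun n => (hs1 n).1) (fun n => (hd1 n).1) hF
  refine ⟨h.bar F, ⟨F, hF1, rfl⟩, ?_⟩
  have := (h.elem0 (C := cons F fun n => d n .up) (fun n => by
    cases n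
    · exact hF1
    · exact (hd1 _).1) _ fun n => (hs1 n).1).1 hF2
  refine Iff.mp (Iff.of_eq ?_) this
  congr 1
  · funext n
    cases n
    · rfl
    · exact (hd1 _).2.symm
  · funext n; exact (hs1 n).2.symm

end Hull

end Pool.Agent.Lib.MP_76c2e0_lc
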