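import Pool.Agent.Lib.MP_76c2e0_lc.Ext

namespace Pool.Agent.Lib.MP_76c2e0_lc

open ZFSet

def Kst (D Q L F : Set V) (σ q x : V) : Prop :=
  q ∈ Q ∧
  (∀ ρ ∈ D, ∀ r ∈ D, pair ρ r ∈ σ → r ∈ Q → ∀ s ∈ D, s ∈ Q → pair s q ∈ L → pair s r ∈ L →
    ∃ t ∈ D, t ∈ Q ∧ pair t s ∈ L ∧ ∃ y ∈ x, pair ρ (pair t y) ∈ F) ∧
  ∀ y ∈ x, ∀ s ∈ D, s ∈ Q → pair s q ∈ L → ∃ t ∈ D, t ∈ Q ∧ pair t s ∈ L ∧
    ∃ ρ ∈ D, ∃ r ∈ D, pair ρ r ∈ σ ∧ r ∈ Q ∧ pair t r ∈ L ∧ pair ρ (pair t y) ∈ F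

theorem Def.kst {α : Type 1} {Γ : Ctx α} {Q L F : α → Set V} {σ q x : α → V} (hQ : DefC Γ Q)
    (hL : DefC Γ L) (hF : DefC Γ F) (hσ : DefF Γ σ) (hq : DefF Γ q) (hx : DefF Γ x) :
    Def Γ fun a => Kst (Γ.dom a) (Q a) (L a) (F a) (σ a) (q a) (x a) := by
  unfold Kst
  exact ((Def.inC hq hQ).and (Def.and
    (Def.all (Def.all (Γ := Γ.ext) ((Def.mem (DefF.v1.pair DefF.v0) hσ.wk.wk).imp
      ((Def.inC DefF.v0 hQ.wk.wk).imp (Def.all (Γ := Γ.ext.ext) ((Def.inC DefF.v0 hQ.wk.wk.wk).imp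
        ((Def.inC (DefF.v0.pair hq.wk.wk.wk) hL.wk.wk.wk).imp
          ((Def.inC (DefF.v0.pair DefF.v1) hL.wk.wk.wk).imp (Def.ex (Γ := Γ.ext.ext.ext)
            ((Def.inC DefF.v0 hQ.wk.wk.wk.wk).and
              ((Def.inC (DefF.v0.pair DefF.v1) hL.wk.wk.wk.wk).and (Def.bex hx.wk.wk.wk.wk
                (Def.inC (DefF.v4.pair (DefF.v1.pair DefF.v0)) hF.wk.wk.wk.wk.wk)))))))))))))
    (Def.ball hx (Def.all (Γ := Γ.ext) ((Def.inC DefF.v0 hQ.wk.wk).imp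
      ((Def.inC (DefF.v0.pair hq.wk.wk) hL.wk.wk).imp (Def.ex (Γ := Γ.ext.ext)
        ((Def.inC DefF.v0 hQ.wk.wk.wk).and ((Def.inC (DefF.v0.pair DefF.v1) hL.wk.wk.wk).and
          (Def.ex (Γ := Γ.ext.ext.ext) (Def.ex (Γ := Γ.ext.ext.ext.ext)
            ((Def.mem (DefF.v1.pair DefF.v0) hσ.wk.wk.wk.wk.wk).and
              ((Def.inC DefF.v0 hQ.wk.wk.wk.wk.wk).and
                ((Def.inC (DefF.v2.pair DefF.v0) hL.wk.wk.wk.wk.wk).and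
                  (Def.inC (DefF.v1.pair (DefF.v2.pair DefF.v4))
                    hF.wk.wk.wk.wk.wk)))))))))))))))

theorem kst_low {D Q L F : Set V} {σ q x u : V} :
    Kst D Q L {w | w ∈ F ∧ Low w (pair σ u)} σ q x ↔ Kst D Q L F σ q x := by
  have key : ∀ ρ r v, pair ρ r ∈ σ → Low (pair ρ v) (pair σ u) := fun ρ r v H =>
    ⟨⟨_, by simpa using H, by simp⟩⟩
  constructor
  · rintro ⟨a1, a2, a3⟩
    exact ⟨a1, fun ρ b1 r b2 b3 b4 s b5 b6 b7 b8 =>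
      let ⟨t, c1, c2, c3, y, c4, c5⟩ := a2 ρ b1 r b2 b3 b4 s b5 b6 b7 b8
      ⟨t, c1, c2, c3, y, c4, c5.1⟩, fun y b1 s b2 b3 b4 =>
      let ⟨t, c1, c2, c3, ρ, c4, r, c5, c6, c7, c8, c9⟩ := a3 y b1 s b2 b3 b4
      ⟨t, c1, c2, c3, ρ, c4, r, c5, c6, c7, c8, c9.1⟩⟩
  · rintro ⟨a1, a2, a3⟩
    exact ⟨a1, fun ρ b1 r b2 b3 b4 s b5 b6 b7 b8 =>
      let ⟨t, c1, c2, c3, y, c4, c5⟩ := a2 ρ b1 r b2 b3 b4 s b5 b6 b7 b8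
      ⟨t, c1, c2, c3, y, c4, c5, key _ _ _ b3⟩, fun y b1 s b2 b3 b4 =>
      let ⟨t, c1, c2, c3, ρ, c4, r, c5, c6, c7, c8, c9⟩ := a3 y b1 s b2 b3 b4
      ⟨t, c1, c2, c3, ρ, c4, r, c5, c6, c7, c8, c9, key _ _ _ c6⟩⟩

theorem Hull.Gen.etr {h : Hull} {G : Set V} (hG : h.Gen G) {Q L : Set V}
    (hQ : Q ∈ (h.S.ext G).cls) (hL : L ∈ (h.S.ext G).cls) : ∃ K ∈ (h.S.ext G).cls,
      ∀ σ ∈ h.M0, ∀ q ∈ h.M0, ∀ x ∈ h.M0, (pair σ (pair q x) ∈ K ↔ Kst h.M0 Q L K σ q x) := by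
  obtain ⟨UQ, ⟨q1, E, q2, q3⟩, rfl⟩ := (Hull.cls_iff hG).1 hQ
  obtain ⟨UL, ⟨l1, E', l2, l3⟩, rfl⟩ := (Hull.cls_iff hG).1 hL
  obtain ⟨U, u1, u2⟩ := Hull.Rep.etr (h := h)
    (Ψ := fun G F z => Kst h.M0 (UQ G) (UL G) F (fst z) (fst (snd z)) (snd (snd z)))
    (Def.kst q1.defC.wkC.wk l1.defC.wkC.wk DefC.c0.wk DefF.v0.fst DefF.v0.snd.fst DefF.v0.snd.snd)
  refine ⟨U G, (Hull.cls_iff hG).2 ⟨U, ⟨u1, E ∪ E', h.union_mem q2 l2, fun a ha Ha G hG => ?_⟩,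
    rfl⟩, fun σ a1 q a2 x a3 => ?_⟩
  · have e1 := q3.mono (fun _ hx => mem_union.2 (Or.inl hx)) a ha Ha G hG
    have e2 := l3.mono (fun _ hx => mem_union.2 (Or.inr hx)) a ha Ha G hG
    have e3 := u2 _ (hG.image ha)
    rw [e1, e2] at e3
    exact etr_unique (fun F z => Kst h.M0 (UQ G) (UL G) F (fst z) (fst (snd z)) (snd (snd z)))
      (u1.sub (hG.image ha)) (u1.sub hG) e3 (u2 G hG)
  · rw [u2 G hG _ (h.pair_mem.2 ⟨a1, h.pair_mem.2 ⟨a2, a3⟩⟩)]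
    simp only [fst_pair, snd_pair]
    exact kst_low

section
variable {N : Mdl} (hN : IsGB N) {Q L H : Set V} (hQ : IsPre N Q L) (hH : Generic N Q L H)
include hN hQ hH

theorem gen_dense {Φ : V → Prop} (hΦ : Def hN.good.fix.ext fun p => Φ p.2)
    (hd : ∀ p ∈ Q, ∃ q ∈ Q, pair q p ∈ L ∧ Φ q) : ∃ p ∈ H, Φ p := by
  obtain ⟨p, h1, h2⟩ := hH.2.2.2 _ (hN.good.cls (Φ := fun q => q ∈ Q ∧ Φ q)
    ((Def.inC DefF.v0 (hN.good.cC hQ.1).wkc).and hΦ)) (fun q hq => hq.2.1) fun p hp =>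
      let ⟨q, a1, a2, a3⟩ := hd p hp
      ⟨q, ⟨hN.sub _ hQ.1 a1, a1, a3⟩, a2⟩
  exact ⟨p, h1, h2.2.2⟩

theorem gen_below {Φ : V → Prop} (hΦ : Def hN.good.fix.ext fun p => Φ p.2) {p : V} (hp : p ∈ H)
    (hd : ∀ q ∈ Q, pair q p ∈ L → ∃ r ∈ Q, pair r q ∈ L ∧ Φ r) : ∃ r ∈ H, Φ r := by
  have hs := hN.sub _ hQ.1
  obtain ⟨r, h1, h2⟩ := gen_dense hN hQ hH
    (Φ := fun r => Φ r ∨ ∀ s ∈ N.sets, s ∈ Q → pair s r ∈ L → ¬ pair s p ∈ L)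
    (hΦ.or (Def.all ((Def.inC DefF.v0 (hN.good.cC hQ.1).wkc.wkc).imp
      ((Def.inC (DefF.v0.pair DefF.v1) (hN.good.cC hQ.2.1).wkc.wkc).imp
      (Def.inC (DefF.v0.pair (hN.good.cF (hs (hH.1 hp))).wkc.wkc)
        (hN.good.cC hQ.2.1).wkc.wkc).not)))) fun q a1 => by
      by_cases hq : ∃ s ∈ Q, pair s q ∈ L ∧ pair s p ∈ L
      · obtain ⟨s, b1, b3, b4⟩ := hq
        obtain ⟨r, c1, c3, c4⟩ := hd s b1 b4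
        exact ⟨r, c1, hQ.2.2.2 _ c1 _ b1 _ a1 c3 b3, Or.inl c4⟩
      · exact ⟨q, a1, hQ.2.2.1 q a1, Or.inr fun s _ b2 b3 b4 => hq ⟨s, b2, b3, b4⟩⟩
  rcases h2 with h2 | h2
  · exact ⟨r, h1, h2⟩
  · obtain ⟨s, a1, a2, a3⟩ := hH.2.2.1 _ h1 _ hp
    exact absurd a3 (h2 s (hs (hH.1 a1)) (hH.1 a1) a2)

variable {K : Set V} (hK : K ∈ N.cls) (hK' : ∀ σ ∈ N.sets, ∀ q ∈ N.sets, ∀ x ∈ N.sets,
  (pair σ (pair q x) ∈ K ↔ Kst N.sets Q L K σ q x))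
include hK hK'

omit hH in
theorem K_mono {σ q x s : V} (h : pair σ (pair q x) ∈ K) (hs : s ∈ Q) (hl : pair s q ∈ L) :
    pair σ (pair s x) ∈ K := by
  have a := hN.good.pair_mem.1 (hN.sub _ hK h)
  have b := hN.good.pair_mem.1 a.2
  obtain ⟨a1, a2, a3⟩ := (hK' _ a.1 _ b.1 _ b.2).1 h
  exact (hK' _ a.1 _ (hN.sub _ hQ.1 hs) _ b.2).2 ⟨hs,
    fun ρ b1 r b2 b3 b4 t b5 b6 b7 => a2 ρ b1 r b2 b3 b4 t b5 b6 (hQ.2.2.2 _ b6 _ hs _ a1 b7 hl),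
    fun y b1 t b2 b3 b4 => a3 y b1 t b2 b3 (hQ.2.2.2 _ b3 _ hs _ a1 b4 hl)⟩

theorem K_truth : ∀ σ, σ ∈ N.sets → ∀ x ∈ N.sets,
    (val H σ = x ↔ ∃ q ∈ H, pair σ (pair q x) ∈ K) := by
  have hs := hN.sub _ hQ.1
  have g := hN.good
  have cQ := (g.cC hQ.1).wkc
  have cL := (g.cC hQ.2.1).wkc
  have cK := (g.cC hK).wkc
  intro σ
  induction σ using pair_ind with
  | h σ ih =>
    intro hσ x hx
    have hp : ∀ ρ r, pair ρ r ∈ σ → ρ ∈ N.sets ∧ r ∈ N.sets := fun ρ r H =>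
      g.pair_mem.1 (hN.trans _ hσ _ H)
    have cσ := (g.cF hσ).wkc
    have cx := (g.cF hx).wkc
    constructor
    · intro e
      obtain ⟨q, a1, a2⟩ := gen_dense hN hQ hH (Φ := fun q => pair σ (pair q x) ∈ K ∨
        (∃ ρ ∈ N.sets, ∃ r ∈ N.sets, pair ρ r ∈ σ ∧ r ∈ Q ∧ pair q r ∈ L ∧
          ∀ t ∈ N.sets, t ∈ Q → pair t q ∈ L → ∀ y ∈ x, ¬ pair ρ (pair t y) ∈ K) ∨
        ∃ y ∈ x, ∀ t ∈ N.sets, t ∈ Q → pair t q ∈ L → ∀ ρ ∈ N.sets, ∀ r ∈ N.sets, pair ρ r ∈ σ →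
          r ∈ Q → pair t r ∈ L → ¬ pair ρ (pair t y) ∈ K)
        ((Def.inC (cσ.pair (DefF.v0.pair cx)) cK).or (Def.or
          (Def.ex (Def.ex ((Def.mem (DefF.v1.pair DefF.v0) cσ.wkc.wkc).and
            ((Def.inC DefF.v0 cQ.wkc.wkc).and ((Def.inC (DefF.v2.pair DefF.v0) cL.wkc.wkc).and
              (Def.all ((Def.inC DefF.v0 cQ.wkc.wkc.wkc).imp
                ((Def.inC (DefF.v0.pair DefF.v3) cL.wkc.wkc.wkc).imp (Def.ball cx.wkc.wkc.wkc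
                  (Def.inC (DefF.v3.pair (DefF.v1.pair DefF.v0)) cK.wkc.wkc.wkc.wkc).not)))))))))
          (Def.bex cx (Def.all ((Def.inC DefF.v0 cQ.wkc.wkc).imp
            ((Def.inC (DefF.v0.pair DefF.v2) cL.wkc.wkc).imp (Def.all (Def.all
              ((Def.mem (DefF.v1.pair DefF.v0) cσ.wkc.wkc.wkc.wkc).imp
                ((Def.inC DefF.v0 cQ.wkc.wkc.wkc.wkc).imp
                  ((Def.inC (DefF.v2.pair DefF.v0) cL.wkc.wkc.wkc.wkc).imp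
                    (Def.inC (DefF.v1.pair (DefF.v2.pair DefF.v3))
                      cK.wkc.wkc.wkc.wkc).not))))))))))) fun p hp' => by
          by_cases H : pair σ (pair p x) ∈ K
          · exact ⟨p, hp', hQ.2.2.1 p hp', Or.inl H⟩
          · rw [hK' _ hσ _ (hs hp') _ hx] at H
            by_contra H'
            push Not at H'
            refine H ⟨hp', fun ρ b1 r b2 b3 b4 s _ b6 b7 b8 => ?_, fun y b1 s _ b3 b4 => ?_⟩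
            · exact (H' s b6 b7).2.1 ρ b1 r b2 b3 b4 b8
            · exact (H' s b3 b4).2.2 y b1
      rcases a2 with a2 | ⟨ρ, b1, r, b2, b3, b4, b5, b6⟩ | ⟨y, b1, b2⟩
      · exact ⟨q, a1, a2⟩
      · exfalso
        have c1 : val H ρ ∈ x := e ▸ mem_val.2 ⟨ρ, r, hH.2.1 q a1 r b4 b5, b3, rfl⟩
        obtain ⟨s, c2, c3⟩ := (ih ρ r b3 b1 _ (hN.trans _ hx _ c1)).1 rfl
        obtain ⟨t, d1, d2, d3⟩ := hH.2.2.1 _ a1 _ c2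
        exact b6 t (hs (hH.1 d1)) (hH.1 d1) d2 _ c1 (K_mono hN hQ hK hK' c3 (hH.1 d1) d3)
      · exfalso
        obtain ⟨ρ, r, c1, c2, c3⟩ := mem_val.1 (e ▸ b1 : y ∈ val H σ)
        obtain ⟨s, c4, c5⟩ := (ih ρ r c2 (hp _ _ c2).1 _ (hN.trans _ hx _ b1)).1 c3.symm
        obtain ⟨t, d1, d2, d3⟩ := hH.2.2.1 _ a1 _ c4
        obtain ⟨u, e1, e2, e3⟩ := hH.2.2.1 _ d1 _ c1
        exact b2 u (hs (hH.1 e1)) (hH.1 e1)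
          (hQ.2.2.2 _ (hH.1 e1) _ (hH.1 d1) _ (hH.1 a1) e2 d2) ρ (hp _ _ c2).1 r (hp _ _ c2).2 c2
          (hH.1 c1) e3 (K_mono hN hQ hK hK' (K_mono hN hQ hK hK' c5 (hH.1 d1) d3) (hH.1 e1) e2)
    · rintro ⟨q, a1, a2⟩
      obtain ⟨-, a3, a4⟩ := (hK' _ hσ _ (hs (hH.1 a1)) _ hx).1 a2
      ext z
      rw [mem_val]
      constructor
      · rintro ⟨ρ, r, b1, b2, rfl⟩
        obtain ⟨u, c1, c2, c3⟩ := hH.2.2.1 _ a1 _ b1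
        obtain ⟨t, d1, y, d2, d3⟩ := gen_below hN hQ hH
          (Φ := fun t => ∃ y ∈ x, pair ρ (pair t y) ∈ K)
          (Def.bex cx (Def.inC ((g.cF (hp _ _ b2).1).wkc.wkc.pair (DefF.v1.pair DefF.v0)) cK.wkc))
          c1 fun s e1 e2 =>
            let ⟨t, _, f⟩ := a3 ρ (hp _ _ b2).1 r (hp _ _ b2).2 b2 (hH.1 b1) s (hs e1) e1
              (hQ.2.2.2 _ e1 _ (hH.1 c1) _ (hH.1 a1) e2 c2)
              (hQ.2.2.2 _ e1 _ (hH.1 c1) _ (hH.1 b1) e2 c3)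
            ⟨t, f⟩
        rw [(ih ρ r b2 (hp _ _ b2).1 y (hN.trans _ hx _ d2)).2 ⟨t, d1, d3⟩]
        exact d2
      · intro hz
        obtain ⟨t, d1, ρ, d2, r, d3, d4, d5, d6, d7⟩ := gen_below hN hQ hH
          (Φ := fun t => ∃ ρ ∈ N.sets, ∃ r ∈ N.sets, pair ρ r ∈ σ ∧ r ∈ Q ∧ pair t r ∈ L ∧
            pair ρ (pair t z) ∈ K)
          (Def.ex (Def.ex ((Def.mem (DefF.v1.pair DefF.v0) cσ.wkc.wkc).and
            ((Def.inC DefF.v0 cQ.wkc.wkc).and ((Def.inC (DefF.v2.pair DefF.v0) cL.wkc.wkc).and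
              (Def.inC (DefF.v1.pair (DefF.v2.pair (g.cF (hN.trans _ hx _ hz)).wkc.wkc.wkc))
                cK.wkc.wkc))))))
          a1 fun s e1 e2 => let ⟨t, _, f⟩ := a4 z hz s (hs e1) e1 e2; ⟨t, f⟩
        exact ⟨ρ, r, hH.2.1 t d1 r d5 d6, d4,
          ((ih ρ r d4 d2 z (hN.trans _ hx _ hz)).2 ⟨t, d1, d7⟩).symm⟩

end

theorem Hull.Gen.not_added {h : Hull} {G : Set V} (hG : h.Gen G) {Q L H Γ : Set V}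
    (hQ : IsPre (h.S.ext G) Q L) (hH : Generic (h.S.ext G) Q L H) (hΓ : Γ ∈ (h.S.ext G).cls) :
    valC H Γ ≠ G := by
  intro e
  have hN := hG.isGB
  have g := hN.good
  have hM := hG.sets
  have hs := hN.sub _ hQ.1
  obtain ⟨K, hK, hK'⟩ := hG.etr hQ.1 hQ.2.1
  rw [← hM] at hK'
  have cQ := (g.cC hQ.1).wkc
  have cL := (g.cC hQ.2.1).wkc
  have cK := (g.cC hK).wkc
  have cΓ := (g.cC hΓ).wkc
  obtain ⟨U, hU, HU⟩ : ∃ U ∈ (h.S.ext G).cls, ∀ q c, pair q c ∈ U ↔ q ∈ Q ∧ ∃ σ r, r ∈ Q ∧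
      pair σ r ∈ Γ ∧ pair q r ∈ L ∧ pair σ (pair q c) ∈ K := by
    refine ⟨_, g.cls (Φ := fun z => fst z ∈ Q ∧ ∃ σ ∈ (h.S.ext G).sets, ∃ r ∈ (h.S.ext G).sets,
      r ∈ Q ∧ pair σ r ∈ Γ ∧ pair (fst z) r ∈ L ∧ pair σ z ∈ K)
      ((Def.inC DefF.v0.fst cQ).and (Def.ex (Def.ex ((Def.inC DefF.v0 cQ.wkc.wkc).and
        ((Def.inC (DefF.v1.pair DefF.v0) cΓ.wkc.wkc).and
          ((Def.inC (DefF.v2.fst.pair DefF.v0) cL.wkc.wkc).and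
            (Def.inC (DefF.v1.pair DefF.v2) cK.wkc.wkc))))))), fun q c => ?_⟩
    simp only [Set.mem_ofPred_eq, fst_pair]
    exact ⟨fun ⟨_, a1, σ, _, r, _, a2⟩ => ⟨a1, σ, r, a2⟩, fun ⟨a1, σ, r, a2, a3, a4, a5⟩ =>
      ⟨(g.pair_mem.1 (hN.sub _ hK a5)).2, a1, σ, (g.pair_mem.1 (hN.sub _ hΓ a3)).1, r, hs a2,
        a2, a3, a4, a5⟩⟩
  have cU := (g.cC hU).wkc
  have key : ∀ c ∈ h.M0, (c ∈ G ↔ ∃ q ∈ H, pair q c ∈ U) := by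
    intro c hc
    rw [← hM] at hc
    rw [← e]
    constructor
    · rintro ⟨σ, r, a1, a2, a3⟩
      obtain ⟨q, b1, b2⟩ := (K_truth hN hQ hH hK hK' σ (g.pair_mem.1 (hN.sub _ hΓ a2)).1 c hc).1
        a3.symm
      obtain ⟨t, d1, d2, d3⟩ := hH.2.2.1 _ b1 _ a1
      exact ⟨t, d1, (HU _ _).2 ⟨hH.1 d1, σ, r, hH.1 a1, a2, d3,
        K_mono hN hQ hK hK' b2 (hH.1 d1) d2⟩⟩
    · rintro ⟨q, a1, a2⟩
      obtain ⟨-, σ, r, b1, b2, b3, b4⟩ := (HU _ _).1 a2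
      exact ⟨σ, r, hH.2.1 q a1 r b1 b3, b2, ((K_truth hN hQ hH hK hK' σ
        (g.pair_mem.1 (hN.sub _ hΓ b2)).1 c hc).2 ⟨q, a1, b4⟩).symm⟩
  obtain ⟨β, hβ, Hβ⟩ := hG.no_row (g.cls (Φ := fun z => ∃ q ∈ (h.S.ext G).sets, q ∈ Q ∧
      pair q (fst z) ∈ L ∧ pair q (snd z) ∈ U)
    (Def.ex ((Def.inC DefF.v0 cQ.wkc).and ((Def.inC (DefF.v0.pair DefF.v1.fst) cL.wkc).and
      (Def.inC (DefF.v0.pair DefF.v1.snd) cU.wkc)))))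
  have cA := (g.cC (hG.row hβ)).wkc
  have cβ := (g.cF (hM ▸ hβ : β ∈ (h.S.ext G).sets)).wkc
  obtain ⟨q, a1, a2⟩ := gen_dense hN hQ hH (Φ := fun q =>
      (∃ ξ ∈ (h.S.ext G).sets, pair q (Hull.c1 β ξ) ∈ U ∧
        ¬ ξ ∈ {ξ | ξ ∈ h.M0 ∧ Hull.c1 β ξ ∈ G}) ∨
      ∃ ξ ∈ (h.S.ext G).sets, ξ ∈ {ξ | ξ ∈ h.M0 ∧ Hull.c1 β ξ ∈ G} ∧
        ∀ s ∈ (h.S.ext G).sets, s ∈ Q → pair s q ∈ L → ¬ pair s (Hull.c1 β ξ) ∈ U)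
    ((Def.ex ((Def.inC (DefF.v1.pair (Hull.c1_def cβ.wkc DefF.v0)) cU.wkc).and
      (Def.inC DefF.v0 cA.wkc).not)).or (Def.ex ((Def.inC DefF.v0 cA.wkc).and (Def.all
        ((Def.inC DefF.v0 cQ.wkc.wkc).imp ((Def.inC (DefF.v0.pair DefF.v2) cL.wkc.wkc).imp
          (Def.inC (DefF.v0.pair (Hull.c1_def cβ.wkc.wkc DefF.v1)) cU.wkc.wkc).not))))))
    fun p hp => by
      by_contra H'
      push Not at H'
      refine Hβ p (hM ▸ hs hp) fun ξ hξ => ?_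
      have hξ' : ξ ∈ (h.S.ext G).sets := hM ▸ hξ
      simp only [Set.mem_ofPred_eq, fst_pair, snd_pair]
      constructor
      · rintro ⟨-, s, -, b1, b2, b3⟩
        exact ((H' s b1 b2).1 ξ hξ' b3).2
      · intro b
        exact ⟨g.pair_mem.2 ⟨hs hp, hM ▸ (Hull.c1_mem hβ hξ).1⟩,
          (H' p hp (hQ.2.2.1 p hp)).2 ξ hξ' ⟨hξ, b⟩⟩
  rcases a2 with ⟨ξ, b1, b2, b3⟩ | ⟨ξ, b1, b2, b3⟩
  · rw [hM] at b1
    exact b3 ⟨b1, (key _ (Hull.c1_mem hβ b1).1).2 ⟨q, a1, b2⟩⟩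
  · obtain ⟨s, c1, c2⟩ := (key _ (Hull.c1_mem hβ b2.1).1).1 b2.2
    obtain ⟨t, d1, d2, d3⟩ := hH.2.2.1 _ a1 _ c1
    obtain ⟨e1, σ, r, e2, e3, e4, e5⟩ := (HU _ _).1 c2
    exact b3 t (hs (hH.1 d1)) (hH.1 d1) d2 ((HU _ _).2 ⟨hH.1 d1, σ, r, e2, e3,
      hQ.2.2.2 _ (hH.1 d1) _ e1 _ e2 d3 e4, K_mono hN hQ hK hK' e5 (hH.1 d1) d3⟩)

theorem main : ∃ M : Mdl, IsGB M ∧ M.sets.Countable ∧ M.cls.Countable ∧
    ∃ S : SymSys M, S.Admits ∧ S.Truth ∧ (∀ p ∈ S.P, ∃ G, Generic M S.P S.le G ∧ p ∈ G) ∧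
      S.P.Nonempty ∧ ∀ G, Generic M S.P S.le G → IsGB (S.ext G) ∧
        ∀ Q le, IsPre (S.ext G) Q le → ∀ H, Generic (S.ext G) Q le H →
          G ∉ (gext (S.ext G) Q H).cls := by
  obtain ⟨h⟩ := exists_hull
  refine ⟨h.M, h.isGB, h.cX.image _, h.cY.image _, h.S, Hull.admits, Hull.truth,
    fun p hp => h.exists_gen hp, ⟨_, h.top_mem⟩, fun G hG => ⟨Hull.Gen.isGB hG, ?_⟩⟩
  rintro Q le hQ H hH ⟨Γ, hΓ, e⟩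
  exact Hull.Gen.not_added hG hQ hH hΓ.1 e

end Pool.Agent.Lib.MP_76c2e0_lc
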