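import Pool.Agent.Lib.MP_76c2e0_lc.Ground

namespace Pool.Agent.Lib.MP_76c2e0_lc

open ZFSet

theorem Def.unextCE {α : Type 1} {Γ : Ctx α} {Φ : α → Set V → V → Prop}
    (h : Def Γ.extC.ext fun p => Φ p.1.1 p.1.2 p.2) :
    ∃ (φ : Fm) (e : ℕ → α → V) (c : ℕ → α → Set V), (∀ n, Γ.T (e n)) ∧ (∀ n, Γ.K (c n)) ∧
      ∀ a, Γ.ok a → ∀ F, ∀ x ∈ Γ.dom a,
        (Φ a F x ↔ Sat (Γ.dom a) (cons F fun n => c n a) φ (cons x fun n => e n a)) := by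
  classical
  obtain ⟨φ, e, c, h1, h2, h3⟩ := Def.unext (Γ := Γ.extC) (Φ := fun p x => Φ p.1 p.2 x) h
  obtain ⟨c0, hc0⟩ := Γ.K_ne
  have h4 : ∀ n, ∃ d, Γ.K d ∧ (c n ≠ Prod.snd → c n = fun p => d p.1) := fun n => by
    rcases h2 n with h | ⟨s, hs, h⟩
    · exact ⟨c0, hc0, fun h' => absurd h h'⟩
    · exact ⟨s, hs, fun _ => h⟩
  choose d hd1 hd2 using h4
  choose s hs1 hs2 using h1
  refine ⟨φ.ren (fun n => if c n = Prod.snd then 0 else n + 1) id, s, d, hs1, hd1,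
    fun a ha F x hx => ?_⟩
  rw [sat_ren]
  refine (h3 (a, F) ha x hx).trans (Iff.of_eq ?_)
  congr 1
  · funext n
    by_cases h : c n = Prod.snd
    · rw [if_pos h, h]; rfl
    · rw [if_neg h, hd2 n h]; rfl
  · funext k
    cases k with
    | zero => rfl
    | succ k => simp only [id, cons_succ]; rw [hs2 k]

namespace Hull
variable (h : Hull)

def le : Set V := {z | z ∈ h.M0 ∧ IsP (fst z) ∧ IsP (snd z) ∧ Le (fst z) (snd z)}

theorem mem_le {p q : V} : pair p q ∈ h.le ↔ p ∈ h.P ∧ q ∈ h.P ∧ Le p q := by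
  simp only [le, P, Set.mem_ofPred_eq, fst_pair, snd_pair, h.pair_mem]
  tauto

theorem P_cls : h.P ∈ h.M.cls := h.good.cls (Def.isP DefF.v0)
theorem le_cls : h.le ∈ h.M.cls :=
  h.good.cls ((Def.isP DefF.v0.fst).and ((Def.isP DefF.v0.snd).and (Def.le DefF.v0.fst DefF.v0.snd)))

theorem top_mem : top ∈ h.P := ⟨h.pair_mem.2 ⟨h.M0_emp, h.M0_emp⟩, isP_top⟩

def Gen (G : Set V) : Prop := Generic h.M h.P h.le G

variable {h} {G : Set V}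

theorem Gen.sub (hG : h.Gen G) {p : V} (hp : p ∈ G) : p ∈ h.P := hG.1 hp
theorem Gen.up (hG : h.Gen G) {p q : V} (hp : p ∈ G) (hq : q ∈ h.P) (H : Le p q) : q ∈ G :=
  hG.2.1 p hp q hq (h.mem_le.2 ⟨hG.sub hp, hq, H⟩)
theorem Gen.dir (hG : h.Gen G) {p q : V} (hp : p ∈ G) (hq : q ∈ G) :
    ∃ r ∈ G, Le r p ∧ Le r q :=
  let ⟨r, h1, h2, h3⟩ := hG.2.2.1 p hp q hq
  ⟨r, h1, (h.mem_le.1 h2).2.2, (h.mem_le.1 h3).2.2⟩
theorem Gen.dense (hG : h.Gen G) {Φ : V → Prop} (H : Def h.good.fix.ext fun p => Φ p.2)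
    (hd : ∀ p ∈ h.M0, IsP p → ∃ q ∈ h.M0, IsP q ∧ Le q p ∧ Φ q) : ∃ p ∈ G, Φ p := by
  obtain ⟨p, h1, h2⟩ := hG.2.2.2 _ (h.good.cls (Φ := fun q => IsP q ∧ Φ q)
    ((Def.isP DefF.v0).and H)) (fun q hq => ⟨hq.1, hq.2.1⟩) fun p hp =>
      let ⟨q, a1, a2, a3, a4⟩ := hd p hp.1 hp.2
      ⟨q, ⟨a1, a2, a4⟩, h.mem_le.2 ⟨⟨a1, a2⟩, hp, a3⟩⟩
  exact ⟨p, h1, h2.2.2⟩

theorem Gen.ne (hG : h.Gen G) : ∃ p, p ∈ G :=
  let ⟨p, hp, _⟩ := hG.dense (Φ := fun _ => True) Def.tt fun p h1 h2 => ⟨p, h1, h2, Le.refl p, trivial⟩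
  ⟨p, hp⟩

theorem Gen.top (hG : h.Gen G) : top ∈ G :=
  let ⟨p, hp⟩ := hG.ne; hG.up hp h.top_mem (le_top' p)

theorem Gen.below (hG : h.Gen G) {Φ : V → Prop} (H : Def h.good.fix.ext fun p => Φ p.2) {p : V}
    (hp : p ∈ G) (hd : ∀ q ∈ h.M0, IsP q → Le q p → ∃ r ∈ h.M0, IsP r ∧ Le r q ∧ Φ r) :
    ∃ r ∈ G, Φ r := by
  obtain ⟨r, h1, h2⟩ := hG.dense (Φ := fun r => Φ r ∨ ∀ s ∈ h.M0, IsP s → Le s r → ¬ Le s p)
    (H.or (Def.all ((Def.isP DefF.v0).imp ((Def.le DefF.v0 DefF.v1).imp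
      (Def.le DefF.v0 (h.good.cF (hG.sub hp).1).wkc.wkc).not)))) fun q a1 a2 => by
      by_cases hq : ∃ s ∈ h.M0, IsP s ∧ Le s q ∧ Le s p
      · obtain ⟨s, b1, b2, b3, b4⟩ := hq
        obtain ⟨r, c1, c2, c3, c4⟩ := hd s b1 b2 b4
        exact ⟨r, c1, c2, c3.trans b3, Or.inl c4⟩
      · exact ⟨q, a1, a2, Le.refl q, Or.inr fun s b1 b2 b3 b4 => hq ⟨s, b1, b2, b3, b4⟩⟩
  rcases h2 with h2 | h2
  · exact ⟨r, h1, h2⟩
  · obtain ⟨s, a1, a2, a3⟩ := hG.dir h1 hp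
    exact absurd a3 (h2 s (hG.sub a1).1 (hG.sub a1).2 a2)

variable (h) in
theorem exists_gen {p : V} (hp : p ∈ h.P) : ∃ G, h.Gen G ∧ p ∈ G := by
  classical
  obtain ⟨D, hD⟩ := (h.cY.image h.bar).exists_eq_range ⟨_, h.M0_cls⟩
  have h1 : ∀ n, ∀ q : h.P, ∃ r : h.P, Le r q ∧
      (D n ⊆ h.P → (∀ p ∈ h.P, ∃ q ∈ D n, pair q p ∈ h.le) → r.1 ∈ D n) := by
    intro n q
    by_cases H : D n ⊆ h.P ∧ ∀ p ∈ h.P, ∃ q ∈ D n, pair q p ∈ h.le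
    · obtain ⟨r, a1, a2⟩ := H.2 q q.2
      exact ⟨⟨r, H.1 a1⟩, (h.mem_le.1 a2).2.2, fun _ _ => a1⟩
    · exact ⟨q, Le.refl _, fun a b => absurd ⟨a, b⟩ H⟩
  choose nx hn1 hn2 using h1
  let s : ℕ → h.P := fun n => Nat.rec ⟨p, hp⟩ (fun n q => nx n q) n
  have hs : ∀ n m, n ≤ m → Le (s m).1 (s n).1 := by
    intro n m hnm
    induction hnm with
    | refl => exact Le.refl _
    | step _ ih => exact (hn1 _ _).trans ih
  refine ⟨{q | q ∈ h.P ∧ ∃ n, Le (s n).1 q}, ⟨fun q hq => hq.1, ?_, ?_, ?_⟩, hp, 0, Le.refl _⟩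
  · rintro q ⟨-, n, hn⟩ r hr H
    exact ⟨hr, n, hn.trans (h.mem_le.1 H).2.2⟩
  · rintro q ⟨hq, n, hn⟩ r ⟨hr, m, hm⟩
    exact ⟨(s (max n m)).1, ⟨(s (max n m)).2, max n m, Le.refl _⟩,
      h.mem_le.2 ⟨(s (max n m)).2, hq, (hs _ _ (le_max_left n m)).trans hn⟩,
      h.mem_le.2 ⟨(s (max n m)).2, hr, (hs _ _ (le_max_right n m)).trans hm⟩⟩
  · intro E hE a1 a2
    obtain ⟨n, rfl⟩ : E ∈ Set.range D := hD ▸ hE
    exact ⟨(s (n + 1)).1, ⟨(s (n + 1)).2, n + 1, Le.refl _⟩, hn2 n _ a1 a2⟩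

end Hull

def app (R G : Set V) : Set V := {x | ∃ p ∈ G, pair p x ∈ R}

namespace Hull
variable {h : Hull} {G : Set V}

theorem frc_fix {R : ℕ → Set V} (hR : ∀ n, R n ∈ h.M.cls) (φ : Fm) {v : ℕ → V}
    (hv : ∀ n, v n ∈ h.M0) : Def h.good.fix.ext fun p => Frc h.M0 R φ v p.2 :=
  frc_def φ (Δ := h.good.fix.ext) (e := fun n _ => v n) (c := fun n _ => R n)
    (fun n => (h.good.cF (hv n)).wkc) (fun n => (h.good.cC (hR n)).wkc) DefF.v0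

theorem Gen.truth (hG : h.Gen G) {R : ℕ → Set V} (hR : ∀ n, R n ∈ h.M.cls) : ∀ (φ : Fm)
    {v : ℕ → V}, (∀ n, v n ∈ h.M0) →
    (Sat h.M0 (fun n => app (R n) G) φ v ↔ ∃ p ∈ G, Frc h.M0 R φ v p)
  | .mem _ _, _, _ => ⟨fun H => ⟨_, hG.top, H⟩, fun ⟨_, _, H⟩ => H⟩
  | .eq _ _, _, _ => ⟨fun H => ⟨_, hG.top, H⟩, fun ⟨_, _, H⟩ => H⟩
  | .inC i k, v, hv => by
      constructor
      · rintro ⟨p, a1, a2⟩
        exact ⟨p, a1, fun q b1 b2 b3 => ⟨q, b1, b2, Le.refl q, p, (hG.sub a1).1, (hG.sub a1).2,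
          b3, a2⟩⟩
      · rintro ⟨p, a1, a2⟩
        obtain ⟨r, b1, s, b2, b3, b4, b5⟩ := hG.below
          (Φ := fun r => ∃ s ∈ h.M0, IsP s ∧ Le r s ∧ pair s (v i) ∈ R k)
          (Def.ex ((Def.isP DefF.v0).and ((Def.le DefF.v1 DefF.v0).and (Def.inC
            (DefF.v0.pair (h.good.cF (hv i)).wkc.wkc) (h.good.cC (hR k)).wkc.wkc)))) a1 a2
        exact ⟨s, hG.up b1 ⟨b2, b3⟩ b4, b5⟩
  | .not φ, v, hv => by
      have ih := hG.truth hR φ hv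
      constructor
      · intro H
        obtain ⟨p, a1, a2⟩ := hG.dense
          (Φ := fun p => Frc h.M0 R φ v p ∨ Frc h.M0 R (.not φ) v p)
          ((frc_fix hR φ hv).or (frc_fix hR _ hv)) fun p b1 b2 => by
            by_cases H : Frc h.M0 R (.not φ) v p
            · exact ⟨p, b1, b2, Le.refl p, Or.inr H⟩
            · simp only [Frc] at H
              push Not at H
              obtain ⟨q, c1, c2, c3, c4⟩ := H
              exact ⟨q, c1, c2, c3, Or.inl c4⟩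
        exact ⟨p, a1, a2.resolve_left fun a => H (ih.2 ⟨p, a1, a⟩)⟩
      · rintro ⟨p, a1, a2⟩ H
        obtain ⟨q, b1, b2⟩ := ih.1 H
        obtain ⟨r, c1, c2, c3⟩ := hG.dir a1 b1
        exact a2 r (hG.sub c1).1 (hG.sub c1).2 c2 (Frc.mono φ b2 c3)
  | .and φ ψ, v, hv => by
      refine (and_congr (hG.truth hR φ hv) (hG.truth hR ψ hv)).trans ⟨?_, ?_⟩
      · rintro ⟨⟨p, a1, a2⟩, q, b1, b2⟩
        obtain ⟨r, c1, c2, c3⟩ := hG.dir a1 b1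
        exact ⟨r, c1, Frc.mono φ a2 c2, Frc.mono ψ b2 c3⟩
      · rintro ⟨p, a1, a2⟩
        exact ⟨⟨p, a1, a2.1⟩, p, a1, a2.2⟩
  | .all φ, v, hv => by
      have hc : ∀ x ∈ h.M0, ∀ n, cons x v n ∈ h.M0 := fun x hx n => by
        cases n
        · exact hx
        · exact hv _
      constructor
      · intro H
        obtain ⟨p, a1, a2⟩ := hG.dense
          (Φ := fun p => Frc h.M0 R (.all φ) v p ∨
            ¬ ∀ x ∈ h.M0, ¬ Frc h.M0 R (.not φ) (cons x v) p)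
          ((frc_fix hR _ hv).or (Def.not (Def.all (Def.not
            ((frc_def (.not φ) (Δ := h.good.fix.ext.ext) (e := cons Prod.snd fun n _ => v n)
              (c := fun n _ => R n) (fun n => by
                cases n
                · exact DefF.v0
                · exact (h.good.cF (hv _)).wkc.wkc) (fun n => (h.good.cC (hR n)).wkc.wkc)
              DefF.v1).congr fun p _ => Iff.of_eq (by
                congr 1
                funext n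
                cases n <;> rfl)))))) fun p b1 b2 => by
            by_cases H : Frc h.M0 R (.all φ) v p
            · exact ⟨p, b1, b2, Le.refl p, Or.inl H⟩
            · simp only [Frc] at H
              push Not at H
              obtain ⟨x, c1, c2⟩ := H
              have := mt (Frc.reg φ b1 b2) c2
              push Not at this
              obtain ⟨q, d1, d2, d3, d4⟩ := this
              exact ⟨q, d1, d2, d3, Or.inr fun H => H x c1 d4⟩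
        refine ⟨p, a1, a2.resolve_right fun a => a fun x hx a => ?_⟩
        obtain ⟨q, b1, b2⟩ := (hG.truth hR φ (hc x hx)).1 (H x hx)
        obtain ⟨r, c1, c2, c3⟩ := hG.dir a1 b1
        exact a r (hG.sub c1).1 (hG.sub c1).2 c2 (Frc.mono φ b2 c3)
      · rintro ⟨p, a1, a2⟩ x hx
        exact (hG.truth hR φ (hc x hx)).2 ⟨p, a1, a2 x hx⟩

variable (h) in
def Rep (U : Set V → Set V) : Prop := ∃ R ∈ h.M.cls, ∀ G, h.Gen G → U G = app R G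

theorem Rep.sub {U : Set V → Set V} (hU : h.Rep U) (hG : h.Gen G) : U G ⊆ h.M0 := by
  obtain ⟨R, hR, H⟩ := hU
  rw [H G hG]
  rintro x ⟨p, -, hp⟩
  exact (h.pair_mem.1 (h.cls_sub hR hp)).2

theorem Rep.const {A : Set V} (hA : A ∈ h.M.cls) : h.Rep fun _ => A := by
  refine ⟨_, h.good.cls (Φ := fun z => snd z ∈ A) (Def.inC DefF.v0.snd (h.good.cC hA).wkc),
    fun G hG => Set.ext fun x => ⟨fun hx => ⟨_, hG.top, ?_, by simpa using hx⟩, ?_⟩⟩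
  · exact h.pair_mem.2 ⟨h.top_mem.1, h.cls_sub hA hx⟩
  · rintro ⟨p, -, -, hp⟩
    simpa using hp

theorem Rep.id : h.Rep fun G => G := by
  refine ⟨_, h.good.cls (Φ := fun z => snd z = fst z) (Def.eq DefF.v0.snd DefF.v0.fst),
    fun G hG => Set.ext fun x => ⟨fun hx => ⟨_, hx, ?_, by simp⟩, ?_⟩⟩
  · exact h.pair_mem.2 ⟨(hG.sub hx).1, (hG.sub hx).1⟩
  · rintro ⟨p, hp, -, hp'⟩
    simp only [fst_pair, snd_pair] at hp'
    exact hp' ▸ hp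

variable (h) in
def rep : Ctx (Set V) where
  ok := h.Gen
  dom _ := h.M0
  T t := ∃ a ∈ h.M0, t = fun _ => a
  K := h.Rep
  tr _ _ := h.M0_trans
  pr _ _ := h.M0_pair
  emp _ _ := h.M0_emp
  T_mem := by rintro _ ⟨a, ha, rfl⟩ _ _; exact ha
  T_ne := ⟨_, _, h.M0_emp, rfl⟩
  K_ne := ⟨_, Rep.id⟩

theorem rF {a : V} (ha : a ∈ h.M0) : DefF h.rep fun _ => a := DefF.of_T ⟨a, ha, rfl⟩
theorem rC {a : Set V} (ha : a ∈ h.M.cls) : DefC h.rep fun _ => a := DefC.of_K (Rep.const ha)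
theorem rG : DefC h.rep fun G => G := DefC.of_K Rep.id
theorem Rep.defC {U : Set V → Set V} (hU : h.Rep U) : DefC h.rep U := DefC.of_K hU

theorem Rep.of_def {Φ : Set V → V → Prop} (H : Def h.rep.ext fun p => Φ p.1 p.2) :
    h.Rep fun G => {x | x ∈ h.M0 ∧ Φ G x} := by
  obtain ⟨φ, e, c, h1, h2, h3⟩ := H.unext
  choose a ha1 ha2 using h1
  choose R hR1 hR2 using h2
  have hc : ∀ x ∈ h.M0, ∀ n, cons x a n ∈ h.M0 := fun x hx n => by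
    cases n
    · exact hx
    · exact ha1 _
  refine ⟨_, h.good.cls (Φ := fun z => Frc h.M0 R φ (cons (snd z) a) (fst z))
    ((frc_def φ (Δ := h.good.fix.ext) (e := cons (fun p => snd p.2) fun n _ => a n)
      (c := fun n _ => R n) (fun n => by
        cases n
        · exact DefF.v0.snd
        · exact (h.good.cF (ha1 _)).wkc) (fun n => (h.good.cC (hR1 n)).wkc)
      DefF.v0.fst).congr fun p _ => Iff.of_eq (by
        congr 1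
        funext n
        cases n <;> rfl)), fun G hG => Set.ext fun x => ?_⟩
  have key : x ∈ h.M0 → (Φ G x ↔ ∃ p ∈ G, Frc h.M0 R φ (cons x a) p) := fun hx => by
    rw [h3 G hG x hx, ← hG.truth hR1 φ (hc x hx)]
    simp only [ha2, hR2 _ G hG]
    rfl
  constructor
  · rintro ⟨hx, H⟩
    obtain ⟨p, a1, a2⟩ := (key hx).1 H
    exact ⟨p, a1, h.pair_mem.2 ⟨(hG.sub a1).1, hx⟩, by simpa using a2⟩
  · rintro ⟨p, a1, a2, a3⟩
    have hx := (h.pair_mem.1 a2).2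
    exact ⟨hx, (key hx).2 ⟨p, a1, by simpa using a3⟩⟩

theorem Rep.etr {Ψ : Set V → Set V → V → Prop}
    (H : Def h.rep.extC.ext fun p => Ψ p.1.1 p.1.2 p.2) :
    ∃ U, h.Rep U ∧ ∀ G, h.Gen G → ∀ z ∈ h.M0, (z ∈ U G ↔ Ψ G {w | w ∈ U G ∧ Low w z} z) := by
  obtain ⟨φ, e, c, h1, h2, h3⟩ := H.unextCE
  choose a ha1 ha2 using h1
  choose R hR1 hR2 using h2
  obtain ⟨W, hW, H⟩ := h.etr_frc φ a R ha1 hR1
  refine ⟨app W, ⟨W, hW, fun _ _ => rfl⟩, fun G hG z hz => ?_⟩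
  have hc : ∀ n, cons z a n ∈ h.M0 := fun n => by
    cases n
    · exact hz
    · exact ha1 _
  have hc' : ∀ n, cons {w | w ∈ W ∧ Low (snd w) z} R n ∈ h.M.cls := fun n => by
    cases n
    · refine Set.mem_of_eq_of_mem (Set.ext fun w => ?_)
        (h.good.cls (Φ := fun w => w ∈ W ∧ Low (snd w) z)
        ((Def.inC DefF.v0 (h.good.cC hW).wkc).and (Def.low DefF.v0.snd (h.good.cF hz).wkc)))
      exact ⟨fun hw => ⟨h.cls_sub hW hw.1, hw⟩, fun hw => hw.2⟩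
    · exact hR1 _
  have e1 : (cons {w | w ∈ app W G ∧ Low w z} fun n => c n G) =
      fun n => app (cons {w | w ∈ W ∧ Low (snd w) z} R n) G := by
    funext n
    cases n
    · ext w
      constructor
      · rintro ⟨⟨p, a1, a2⟩, a3⟩
        exact ⟨p, a1, a2, by simpa using a3⟩
      · rintro ⟨p, a1, a2, a3⟩
        exact ⟨⟨p, a1, a2⟩, by simpa using a3⟩
    · exact hR2 _ G hG
  rw [h3 G hG _ z hz, e1]
  simp only [ha2]
  refine Iff.trans ?_ (hG.truth hc' φ hc).symm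
  exact ⟨fun ⟨p, a1, a2⟩ => ⟨p, a1, ((H z hz p (hG.sub a1).1).1 a2).2⟩,
    fun ⟨p, a1, a2⟩ => ⟨p, a1, (H z hz p (hG.sub a1).1).2 ⟨(hG.sub a1).2, a2⟩⟩⟩

theorem Rep.forces {U : Set V → Set V} (hU : h.Rep U) : ∃ W ∈ h.M.cls, ∀ p x,
    (pair p x ∈ W ↔ p ∈ h.P ∧ ∀ G, h.Gen G → p ∈ G → x ∈ U G) := by
  obtain ⟨R, hR, H⟩ := hU
  have hd : ∀ {α : Type 1} {Γ : Ctx α} {s t : α → V}, DefF Γ s → DefF Γ t → DefC Γ (fun _ => R) →
      Def Γ fun a => Frc (Γ.dom a) (fun _ => R) (.inC 0 0) (fun _ => s a) (t a) :=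
    fun hs ht hc => frc_def _ (fun _ => hs) (fun _ => hc) ht
  refine ⟨_, h.good.cls (Φ := fun z => IsP (fst z) ∧
    Frc h.M0 (fun _ => R) (.inC 0 0) (fun _ => snd z) (fst z)) ((Def.isP DefF.v0.fst).and
      (hd DefF.v0.snd DefF.v0.fst (h.good.cC hR).wkc)), fun p x => ?_⟩
  simp only [Set.mem_ofPred_eq, fst_pair, snd_pair]
  constructor
  · rintro ⟨a1, a2, a3⟩
    have a1 := h.pair_mem.1 a1
    refine ⟨⟨a1.1, a2⟩, fun G hG hp => ?_⟩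
    rw [H G hG]
    exact (hG.truth (fun _ => hR) (.inC 0 0) fun _ => a1.2).2 ⟨p, hp, a3⟩
  · rintro ⟨a1, a2⟩
    obtain ⟨G, hG, hp⟩ := h.exists_gen a1
    have hx : x ∈ h.M0 := Rep.sub ⟨R, hR, H⟩ hG (a2 G hG hp)
    refine ⟨h.pair_mem.2 ⟨a1.1, hx⟩, a1.2, fun q b1 b2 b3 => ?_⟩
    obtain ⟨G, hG, hq⟩ := h.exists_gen ⟨b1, b2⟩
    have := a2 G hG (hG.up hq a1 b3)
    rw [H G hG] at this
    obtain ⟨s, c1, c2⟩ := this
    obtain ⟨r, d1, d2, d3⟩ := hG.dir hq c1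
    exact ⟨r, (hG.sub d1).1, (hG.sub d1).2, d2, s, (hG.sub c1).1, (hG.sub c1).2, d3, c2⟩

theorem sem_truth {Φ : Set V → Prop} (H : Def h.rep Φ) (hG : h.Gen G) (hΦ : Φ G) :
    ∃ p ∈ G, ∀ G', h.Gen G' → p ∈ G' → Φ G' := by
  obtain ⟨R, -, hR⟩ := Rep.of_def (Φ := fun G _ => Φ G) H.wk
  obtain ⟨p, a1, a2⟩ : ∅ ∈ app R G := hR G hG ▸ (⟨h.M0_emp, hΦ⟩ : ∅ ∈ {x | x ∈ h.M0 ∧ Φ G})
  refine ⟨p, a1, fun G' hG' hp => ?_⟩
  have : ∅ ∈ app R G' := ⟨p, hp, a2⟩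
  rw [← hR G' hG'] at this
  exact this.2

/-! evaluation of names -/

theorem val_eq_up (hG : h.Gen G) {t p : V} (ht : t ∈ h.M0) (ht' : ∀ y ∈ t, ∀ z ∈ y, z ∈ t)
    (hp : p ∈ G) (htp : t ⊆ fst p) : ∀ x, x ∈ t → val G x = val (up p) x := by
  intro x
  induction x using pair_ind with
  | h x ih =>
    intro hx
    have key : ∀ y r, pair y r ∈ x → y ∈ t ∧ (r ∈ G ↔ r ∈ up p) := by
      intro y r hy
      have h1 : ({y, r} : V) ∈ t := ht' _ (ht' _ hx _ hy) _ (by simp [pair])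
      have h2 : r ∈ t := ht' _ h1 _ (by simp)
      refine ⟨ht' _ h1 _ (by simp), fun hr => ⟨(hG.sub hr).2, ⟨fun c hc => ?_⟩⟩,
        fun hr => hG.up hp ⟨h.M0_trans _ ht _ h2, hr.1⟩ hr.2⟩
      have h3 : fst r ∈ t := by
        have : ({fst r} : V) ∈ r := by
          have : ({fst r} : V) ∈ pair (fst r) (snd r) := by simp [pair]
          rwa [← (hG.sub hr).2.eq] at this
        exact ht' _ (ht' _ h2 _ this) _ (by simp)
      have h4 := htp (ht' _ h3 _ hc)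
      obtain ⟨s, -, a2, a3⟩ := hG.dir hp hr
      exact ⟨h4, (a2.out c h4).2.symm.trans (a3.out c hc).2⟩
    ext z
    simp only [mem_val]
    exact ⟨fun ⟨y, r, a1, a2, a3⟩ => ⟨y, r, (key y r a2).2.1 a1, a2, ih y r a2 (key y r a2).1 ▸ a3⟩,
      fun ⟨y, r, a1, a2, a3⟩ =>
        ⟨y, r, (key y r a2).2.2 a1, a2, (ih y r a2 (key y r a2).1).symm ▸ a3⟩⟩

theorem Gen.big (hG : h.Gen G) {t : V} (ht : t ∈ h.M0) : ∃ p ∈ G, t ⊆ fst p := by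
  refine hG.dense (Φ := fun p => t ⊆ fst p) (Def.sub (h.good.cF ht).wkc DefF.v0.fst)
    fun p a1 a2 => ⟨pair (fst p ∪ t) (snd p),
      h.pair_mem.2 ⟨h.union_mem (h.fst_mem a1) ht, h.snd_mem a1⟩,
      IsP.mk' fun c hc => mem_union.2 (Or.inl (a2.sub hc)), ⟨fun c hc => ?_⟩, fun c hc => ?_⟩
  · simp [hc]
  · simp [hc]

theorem val_def : DefF h.rep.ext fun p => val p.1 p.2 := by
  obtain ⟨F, hF, H⟩ := h.val_graph
  have key : ∀ G, h.Gen G → ∀ x ∈ h.M0, ∃ p ∈ G, ∃ t ∈ h.M0, x ∈ t ∧ (∀ y ∈ t, ∀ z ∈ y, z ∈ t) ∧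
      t ⊆ fst p := fun G hG x hx =>
    let ⟨t, a1, a2, a3⟩ := h.trcl x hx
    let ⟨p, b1, b2⟩ := hG.big a1
    ⟨p, b1, t, a1, a2, a3, b2⟩
  refine ⟨fun p hp => ?_, Def.congr (Φ := fun p => ∃ q ∈ h.M0, q ∈ p.1.1 ∧ ∃ t ∈ h.M0, p.1.2 ∈ t ∧
    (∀ y ∈ t, ∀ z ∈ y, z ∈ t) ∧ t ⊆ fst q ∧ pair (pair q p.1.2) p.2 ∈ F) ?_ fun p hp => ?_⟩
  · obtain ⟨q, a1, t, a2, a3, a4, a5⟩ := key p.1 hp.1 p.2 hp.2
    beta_reduce
    rw [val_eq_up hp.1 a2 a4 a1 a5 _ a3]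
    exact (H q (Gen.sub hp.1 a1).1 _ hp.2).1
  · exact Def.ex ((Def.inC DefF.v0 rG.wk.wk.wk).and (Def.ex ((Def.mem DefF.v3 DefF.v0).and
      ((Def.ball DefF.v0 (Def.ball DefF.v0 (Def.mem DefF.v0 DefF.v2))).and
        ((Def.sub DefF.v0 DefF.v1.fst).and
          (Def.inC ((DefF.v1.pair DefF.v3).pair DefF.v2) (rC hF).wkc.wkc.wkc.wkc))))))
  · constructor
    · rintro ⟨q, a0, a1, t, a2, a3, a4, a5, a6⟩
      beta_reduce
      rw [val_eq_up hp.1.1 a2 a4 a1 a5 _ a3]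
      exact ((H q a0 _ hp.1.2).2 _).1 a6
    · intro e
      obtain ⟨q, a1, t, a2, a3, a4, a5⟩ := key _ hp.1.1 _ hp.1.2
      refine ⟨q, (Gen.sub hp.1.1 a1).1, a1, t, a2, a3, a4, a5,
        ((H q (Gen.sub hp.1.1 a1).1 _ hp.1.2).2 _).2 ?_⟩
      rw [← val_eq_up hp.1.1 a2 a4 a1 a5 _ a3]
      exact e

theorem Gen.val_mem (hG : h.Gen G) {x : V} (hx : x ∈ h.M0) : val G x ∈ h.M0 :=
  val_def.1 (G, x) ⟨hG, hx⟩

end Hull

end Pool.Agent.Lib.MP_76c2e0_lc
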