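import Pool.Agent.Lib.MP_76c2e0_lc.Rep

namespace Pool.Agent.Lib.MP_76c2e0_lc

open ZFSet

noncomputable def flip (a p : V) : V := pair (fst p) ((fst p).sep fun c => ¬ (c ∈ snd p ↔ c ∈ a))

@[simp] theorem fst_flip (a p : V) : fst (flip a p) = fst p := by simp [flip]
theorem mem_snd_flip {a p c : V} : c ∈ snd (flip a p) ↔ c ∈ fst p ∧ ¬ (c ∈ snd p ↔ c ∈ a) := by
  simp only [flip, snd_pair, mem_sep]
theorem isP_flip (a p : V) : IsP (flip a p) := IsP.mk' sep_subset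

theorem IsP.ext {p q : V} (hp : IsP p) (hq : IsP q) (h1 : fst p = fst q)
    (h2 : ∀ c ∈ fst p, (c ∈ snd p ↔ c ∈ snd q)) : p = q := by
  have : snd p = snd q := ZFSet.ext fun c =>
    ⟨fun hc => (h2 c (hp.sub hc)).1 hc, fun hc => (h2 c (h1 ▸ hq.sub hc)).2 hc⟩
  rw [hp.eq, hq.eq, h1, this]

noncomputable def sd (a b : V) : V := (a ∪ b).sep fun c => ¬ (c ∈ a ↔ c ∈ b)

theorem mem_sd {a b c : V} : c ∈ sd a b ↔ ¬ (c ∈ a ↔ c ∈ b) := by
  simp only [sd, mem_sep, mem_union]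
  tauto

theorem sd_comm (a b : V) : sd a b = sd b a := ZFSet.ext fun c => by
  simp only [mem_sd]; tauto

theorem flip_flip (a b p : V) : flip a (flip b p) = flip (sd a b) p :=
  (isP_flip _ _).ext (isP_flip _ _) (by simp) fun c hc => by
    simp only [mem_snd_flip, fst_flip, mem_sd] at hc ⊢
    tauto

theorem flip_fix {a p : V} (hp : IsP p) (h : ∀ c ∈ a, c ∉ fst p) : flip a p = p :=
  (isP_flip _ _).ext hp (by simp) fun c hc => by
    have := h c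
    simp only [mem_snd_flip, fst_flip] at hc ⊢
    tauto

theorem flip_invol {a p : V} (hp : IsP p) : flip a (flip a p) = p := by
  rw [flip_flip]
  exact flip_fix hp fun c hc => by simp [mem_sd] at hc

theorem Le.flip {p q : V} (a : V) (h : Le p q) : Le (flip a p) (flip a q) := ⟨fun c hc => by
  have := h.out c (by simpa using hc)
  simp only [mem_snd_flip, fst_flip] at hc ⊢
  tauto⟩

structure Prot (E c : V) : Prop where
  out : c ∈ E ∨ (c = pair (fst c) (snd c) ∧ fst c ∈ E)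

theorem Def.prot {α : Type 1} {Γ : Ctx α} {s t : α → V} (hs : DefF Γ s) (ht : DefF Γ t) :
    Def Γ fun a => Prot (s a) (t a) :=
  ((Def.mem ht hs).or ((Def.eq ht (ht.fst.pair ht.snd)).and (Def.mem ht.fst hs))).congr
    fun _ _ => ⟨fun h => ⟨h⟩, fun h => h.out⟩

theorem Prot.mono {E E' c : V} (h : Prot E c) (h' : E ⊆ E') : Prot E' c :=
  ⟨h.out.imp (fun a => h' a) fun a => ⟨a.1, h' a.2⟩⟩

theorem Def.isFlip {α : Type 1} {Γ : Ctx α} {s t u : α → V} (hs : DefF Γ s) (ht : DefF Γ t)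
    (hu : DefF Γ u) : Def Γ fun a => u a = flip (s a) (t a) :=
  ((Def.isP hu).and ((Def.eq hu.fst ht.fst).and (Def.ball
    (Φ := fun a c => c ∈ snd (u a) ↔ ¬ (c ∈ snd (t a) ↔ c ∈ s a)) hu.fst
    ((Def.mem DefF.v0 hu.snd.wk).iff ((Def.mem DefF.v0 ht.snd.wk).iff
      (Def.mem DefF.v0 hs.wk)).not)))).congr fun a _ => by
    constructor
    · rintro ⟨a1, a2, a3⟩
      refine a1.ext (isP_flip _ _) (by simpa using a2) fun c hc => ?_
      rw [mem_snd_flip, a3 c hc, ← a2]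
      exact (and_iff_right hc).symm
    · intro e
      rw [e]
      exact ⟨isP_flip _ _, by simp, fun c hc => by
        rw [mem_snd_flip]; exact and_iff_right (by simpa using hc)⟩

namespace Hull
variable (h : Hull)

theorem flip_mem {a p : V} (ha : a ∈ h.M0) (hp : p ∈ h.M0) : flip a p ∈ h.P :=
  ⟨h.pair_mem.2 ⟨h.fst_mem hp, h.sep_mem (((Def.mem DefF.v0 (h.good.cF (h.snd_mem hp)).wkc).iff
    (Def.mem DefF.v0 (h.good.cF ha).wkc)).not) (h.fst_mem hp)⟩, isP_flip _ _⟩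

theorem sd_mem {a p : V} (ha : a ∈ h.M0) (hp : p ∈ h.M0) : sd a p ∈ h.M0 :=
  h.sep_mem (((Def.mem DefF.v0 (h.good.cF ha).wkc).iff
    (Def.mem DefF.v0 (h.good.cF hp).wkc)).not) (h.union_mem ha hp)

open Classical in
noncomputable def fl (a p : V) : V := if a ∈ h.M0 ∧ p ∈ h.P then flip a p else p

theorem fl_invol (a : V) : Function.Involutive (h.fl a) := fun p => by
  by_cases H : a ∈ h.M0 ∧ p ∈ h.P
  · rw [show h.fl a p = flip a p from if_pos H, fl, if_pos ⟨H.1, h.flip_mem H.1 H.2.1⟩,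
      flip_invol H.2.2]
  · rw [show h.fl a p = p from if_neg H, fl, if_neg H]

noncomputable def aut (a : V) : Equiv.Perm V := (h.fl_invol a).toPerm _

variable {h}

theorem aut_P {a p : V} (ha : a ∈ h.M0) (hp : p ∈ h.P) : h.aut a p = flip a p := if_pos ⟨ha, hp⟩
theorem aut_off {a p : V} (hp : p ∉ h.P) : h.aut a p = p := if_neg fun H => hp H.2
theorem aut_aut (a p : V) : h.aut a (h.aut a p) = p := h.fl_invol a p
theorem aut_mem {a p : V} (ha : a ∈ h.M0) (hp : p ∈ h.P) : h.aut a p ∈ h.P :=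
  aut_P ha hp ▸ h.flip_mem ha hp.1

theorem aut_mul {a b : V} (ha : a ∈ h.M0) (hb : b ∈ h.M0) : h.aut a * h.aut b = h.aut (sd a b) := by
  ext1 p
  rw [Equiv.Perm.mul_apply]
  by_cases hp : p ∈ h.P
  · rw [aut_P hb hp, aut_P ha (h.flip_mem hb hp.1), aut_P (h.sd_mem ha hb) hp, flip_flip]
  · rw [aut_off hp, aut_off hp, aut_off hp]

theorem aut_empty : h.aut ∅ = 1 := by
  ext1 p
  by_cases hp : p ∈ h.P
  · rw [aut_P h.M0_emp hp, flip_fix hp.2 (by simp)]; rfl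
  · rw [aut_off hp]; rfl

theorem aut_inv (a : V) : (h.aut a)⁻¹ = h.aut a := rfl

theorem aut_inj {a b : V} (ha : a ∈ h.M0) (hb : b ∈ h.M0) (e : h.aut a = h.aut b) : a = b := by
  have hp : pair (a ∪ b) ∅ ∈ h.P :=
    ⟨h.pair_mem.2 ⟨h.union_mem ha hb, h.M0_emp⟩, IsP.mk' (empty_subset _)⟩
  have := congrArg (fun π : Equiv.Perm V => snd (π (pair (a ∪ b) ∅))) e
  simp only [aut_P ha hp, aut_P hb hp] at this
  ext c
  have := ZFSet.ext_iff.1 this c
  simp only [mem_snd_flip, fst_pair, snd_pair, mem_union, notMem_empty] at this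
  tauto

variable (h) in
def HH (E : V) : Subgroup (Equiv.Perm V) where
  carrier := {π | ∃ a ∈ h.M0, (∀ c ∈ a, ¬ Prot E c) ∧ π = h.aut a}
  mul_mem' := by
    rintro _ _ ⟨a, a1, a2, rfl⟩ ⟨b, b1, b2, rfl⟩
    refine ⟨_, h.sd_mem a1 b1, fun c hc => ?_, aut_mul a1 b1⟩
    have := a2 c
    have := b2 c
    rw [mem_sd] at hc
    tauto
  one_mem' := ⟨∅, h.M0_emp, by simp, aut_empty.symm⟩
  inv_mem' := by
    rintro _ ⟨a, a1, a2, rfl⟩
    exact ⟨a, a1, a2, rfl⟩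

theorem not_prot_empty (c : V) : ¬ Prot ∅ c := fun H => by simpa using H.out

theorem aut_le {a p q : V} (ha : a ∈ h.M0) (hp : p ∈ h.P) (hq : q ∈ h.P) :
    Le (h.aut a p) (h.aut a q) ↔ Le p q := by
  rw [aut_P ha hp, aut_P ha hq]
  refine ⟨fun H => ?_, fun H => H.flip a⟩
  have := H.flip a
  rwa [flip_invol hp.2, flip_invol hq.2] at this

variable (h) in
noncomputable def S : SymSys h.M where
  P := h.P
  le := h.le
  aut := h.aut
  G := h.HH ∅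
  H := h.HH
  pre := ⟨h.P_cls, h.le_cls, fun p hp => h.mem_le.2 ⟨hp, hp, Le.refl p⟩,
    fun _ hp _ _ _ hr h1 h2 =>
      h.mem_le.2 ⟨hp, hr, (h.mem_le.1 h1).2.2.trans (h.mem_le.1 h2).2.2⟩⟩
  G_eq _ := ⟨fun ⟨a, a1, _, a3⟩ => ⟨a, a1, a3⟩,
    fun ⟨a, a1, a3⟩ => ⟨a, a1, fun c _ => not_prot_empty c, a3⟩⟩
  aut_off := by rintro _ ⟨a, -, -, rfl⟩ x hx; exact aut_off hx
  aut_mem := by rintro _ ⟨a, ha, -, rfl⟩ x hx; exact aut_mem ha hx
  aut_le := by
    rintro _ ⟨a, ha, -, rfl⟩ p hp q hq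
    simp only [h.mem_le, aut_mem ha hp, aut_mem ha hq, hp, hq, aut_le ha hp hq]
  aut_cls := by
    refine Set.mem_of_eq_of_mem (Set.ext fun z => ?_) (h.good.cls
      (Φ := fun z => ∃ a ∈ h.M0, ∃ p ∈ h.M0, IsP p ∧ ∃ q ∈ h.M0, q = flip a p ∧
        z = pair a (pair p q))
      (Def.ex (Def.ex ((Def.isP DefF.v0).and (Def.ex ((Def.isFlip DefF.v2 DefF.v1 DefF.v0).and
        (Def.eq DefF.v3 (DefF.v2.pair (DefF.v1.pair DefF.v0)))))))))
    constructor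
    · rintro ⟨a, ha, p, hp, rfl⟩
      exact ⟨h.pair_mem.2 ⟨ha, h.pair_mem.2 ⟨hp.1, (aut_mem ha hp).1⟩⟩, a, ha, p, hp.1, hp.2, _,
        (aut_mem ha hp).1, aut_P ha hp, rfl⟩
    · rintro ⟨-, a, ha, p, h1, h2, q, -, rfl, rfl⟩
      exact ⟨a, ha, p, ⟨h1, h2⟩, by rw [aut_P ha ⟨h1, h2⟩]⟩
  H_le := by
    rintro E - _ ⟨a, a1, -, rfl⟩
    exact ⟨a, a1, fun c _ => not_prot_empty c, rfl⟩
  H_cls := by
    refine Set.mem_of_eq_of_mem (Set.ext fun z => ?_) (h.good.cls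
      (Φ := fun z => ∃ a ∈ h.M0, ∃ b ∈ h.M0, (∀ c ∈ b, ¬ Prot a c) ∧ z = pair a b)
      (Def.ex (Def.ex ((Def.ball DefF.v0 (Def.prot DefF.v2 DefF.v0).not).and
        (Def.eq DefF.v2 (DefF.v1.pair DefF.v0))))))
    constructor
    · rintro ⟨a, ha, b, hb, ⟨b', b1, b2, b3⟩, rfl⟩
      obtain rfl := aut_inj hb b1 b3
      exact ⟨h.pair_mem.2 ⟨ha, hb⟩, a, ha, b, hb, b2, rfl⟩
    · rintro ⟨-, a, ha, b, hb, b2, rfl⟩
      exact ⟨a, ha, b, hb, ⟨b, hb, b2, rfl⟩, rfl⟩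
  H_top := ⟨∅, h.M0_emp, rfl⟩
  H_inf a ha b hb := ⟨a ∪ b, h.union_mem ha hb, by
    rintro _ ⟨c, c1, c2, rfl⟩
    exact ⟨⟨c, c1, fun d hd H => c2 d hd (H.mono fun _ hx => mem_union.2 (Or.inl hx)), rfl⟩,
      ⟨c, c1, fun d hd H => c2 d hd (H.mono fun _ hx => mem_union.2 (Or.inr hx)), rfl⟩⟩⟩
  H_conj := by
    rintro _ ⟨b, hb, -, rfl⟩ a ha
    refine ⟨a, ha, ?_⟩
    rintro _ ⟨c, c1, c2, rfl⟩
    refine ⟨c, c1, c2, ?_⟩
    rw [mul_assoc, aut_mul c1 hb, sd_comm, ← aut_mul hb c1, ← mul_assoc, inv_mul_cancel, one_mul]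

theorem hs_iff {x : V} : h.S.HS x ↔ x ∈ h.M0 ∧ IsName h.P x := by
  constructor
  · intro H
    induction H with
    | mk x a1 a2 _ _ ih => exact ⟨a1, x, a2, fun y p hy => (ih y p hy).2⟩
  · rintro ⟨hx, H⟩
    induction H with
    | mk x a1 a2 ih =>
      refine ⟨x, hx, a1, ?_, fun y p hy => ih y p hy (h.pair_mem.1 (h.M0_trans _ hx _ hy)).1⟩
      obtain ⟨t, b1, b2, b3⟩ := h.trcl x hx
      refine ⟨t, b1, ?_⟩
      rintro _ ⟨a, c1, c2, rfl⟩
      have key : ∀ y, y ∈ t → IsName h.P y → act (h.aut a) y = y := by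
        intro y
        induction y using pair_ind with
        | h y ih =>
          rintro hy ⟨_, d1, d2⟩
          have e : ∀ u p, pair u p ∈ y → pair (act (h.aut a) u) (h.aut a p) = pair u p := by
            intro u p hu
            obtain ⟨u', p', hp, e⟩ := d1 _ hu
            obtain ⟨rfl, rfl⟩ := pair_inj.1 e
            have h1 : ({u, p} : V) ∈ t := b3 _ (b3 _ hy _ hu) _ (by simp [pair])
            have h2 : p ∈ t := b3 _ h1 _ (by simp)
            have h3 : fst p ∈ t := by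
              have : ({fst p} : V) ∈ pair (fst p) (snd p) := by simp [pair]
              rw [← hp.2.eq] at this
              exact b3 _ (b3 _ h2 _ this) _ (by simp)
            rw [ih u p hu (b3 _ h1 _ (by simp)) (d2 u p hu), aut_P c1 hp,
              flip_fix hp.2 fun c hc H => c2 c hc ⟨Or.inl (b3 _ h3 _ H)⟩]
          ext z
          rw [mem_act]
          constructor
          · rintro ⟨u, p, hu, rfl⟩
            rwa [e u p hu]
          · intro hz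
            obtain ⟨u, p, -, rfl⟩ := d1 z hz
            exact ⟨u, p, hz, (e u p hz).symm⟩
      exact key x b2 ⟨x, a1, a2⟩

theorem chk_mem {x : V} (hx : x ∈ h.M0) : chk x ∈ h.M0 :=
  let ⟨_, _, H⟩ := h.chk_graph; (H x hx x hx).1

theorem chk_hs {x : V} (hx : x ∈ h.M0) : h.S.HS (chk x) := by
  refine hs_iff.2 ⟨chk_mem hx, ?_⟩
  clear hx
  induction x using ZFSet.inductionOn with
  | h x ih =>
    refine ⟨_, fun z hz => ?_, fun y p hy => ?_⟩
    · obtain ⟨y, -, rfl⟩ := mem_chk.1 hz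
      exact ⟨_, _, h.top_mem, rfl⟩
    · obtain ⟨u, hu, e⟩ := mem_chk.1 hy
      rw [(pair_inj.1 e).1]
      exact ih u hu

variable {G : Set V}

theorem Gen.sets (hG : h.Gen G) : (h.S.ext G).sets = h.M0 := by
  ext x
  constructor
  · rintro ⟨y, hy, rfl⟩
    exact hG.val_mem (hs_iff.1 hy).1
  · exact fun hx => ⟨chk x, chk_hs hx, val_chk hG.top x⟩

theorem mem_aut_image {a p : V} : p ∈ h.aut a '' G ↔ h.aut a p ∈ G :=
  ⟨fun ⟨q, h1, h2⟩ => by rwa [← h2, aut_aut], fun H => ⟨_, H, aut_aut a p⟩⟩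

theorem Gen.image (hG : h.Gen G) {a : V} (ha : a ∈ h.M0) : h.Gen (h.aut a '' G) := by
  refine ⟨?_, ?_, ?_, ?_⟩
  · rintro _ ⟨p, hp, rfl⟩
    exact aut_mem ha (hG.sub hp)
  · rintro _ ⟨p, hp, rfl⟩ q hq H
    refine mem_aut_image.2 (hG.up hp (aut_mem ha hq) ?_)
    rw [← aut_le ha (hG.sub hp) (aut_mem ha hq), aut_aut]
    exact (h.mem_le.1 H).2.2
  · rintro _ ⟨p, hp, rfl⟩ _ ⟨q, hq, rfl⟩
    obtain ⟨r, a1, a2, a3⟩ := hG.dir hp hq
    exact ⟨_, ⟨r, a1, rfl⟩, h.mem_le.2 ⟨aut_mem ha (hG.sub a1), aut_mem ha (hG.sub hp),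
      (aut_le ha (hG.sub a1) (hG.sub hp)).2 a2⟩, h.mem_le.2 ⟨aut_mem ha (hG.sub a1),
      aut_mem ha (hG.sub hq), (aut_le ha (hG.sub a1) (hG.sub hq)).2 a3⟩⟩
  · intro D hD h1 h2
    obtain ⟨p, a1, q, -, rfl, a2⟩ := hG.dense (Φ := fun p => ∃ q ∈ h.M0, q = flip a p ∧ q ∈ D)
      (Def.ex ((Def.isFlip (h.good.cF ha).wkc.wkc DefF.v1 DefF.v0).and
        (Def.inC DefF.v0 (h.good.cC hD).wkc.wkc))) fun p b1 b2 => by
        obtain ⟨q, c1, c2⟩ := h2 _ (h.flip_mem ha b1)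
        have c3 := ((h.mem_le.1 c2).2.2).flip a
        rw [flip_invol b2] at c3
        exact ⟨flip a q, (h.flip_mem ha (h1 c1).1).1, isP_flip _ _, c3, q, (h1 c1).1,
          (flip_invol (h1 c1).2).symm, c1⟩
    exact ⟨_, ⟨p, a1, aut_P ha (hG.sub a1)⟩, a2⟩

end Hull

end Pool.Agent.Lib.MP_76c2e0_lc
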